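import Pool.Agent.Q38.NG.Good

/-! The tuples with a bad step. -/

set_option autoImplicit false

namespace Pool.Agent.Q38.NG

open Finset
open Pool.Agent.H328R2.ABC (rad sum_inv_rad)
open Pool.Agent.Q38.NC

/-- the product of the coordinates before `j` -/
def Pl {k : ℕ} (y : Fin k → ℤ) (j : Fin k) : ℕ := ∏ i ∈ univ.filter (fun i => i < j), (y i).natAbs

/-- the sum of the coordinates before `j` -/
def Sl {k : ℕ} (y : Fin k → ℤ) (j : Fin k) : ℤ := ∑ i ∈ univ.filter (fun i => i < j), y i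

/-- a bad step -/
def Bad {k : ℕ} (y : Fin k → ℤ) (j : Fin k) (γ : ℕ) : Prop :=
  (γ : ℤ) ∣ Sl y j + y j ∧ Nat.gcd γ (y j).natAbs * (y j).natAbs <
    γ * (kp (γ * Pl y j) (y j).natAbs * mo (co (cp (γ * Pl y j) (y j).natAbs)))

theorem filter_castSucc {k : ℕ} (j : Fin k) :
    (univ.filter fun i : Fin (k + 1) => i < j.castSucc) =
      (univ.filter fun i : Fin k => i < j).map Fin.castSuccEmb := by
  ext i
  simp only [mem_filter, mem_univ, true_and, mem_map]
  constructor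
  · intro h
    have hl : i ≠ Fin.last k := by
      rintro rfl
      exact absurd h (not_lt.2 (Fin.le_last _))
    refine ⟨i.castPred hl, ?_, ?_⟩
    · rw [← Fin.castSucc_lt_castSucc_iff, Fin.castSucc_castPred]
      exact h
    · exact Fin.castSucc_castPred _ _
  · rintro ⟨i', h, rfl⟩
    exact Fin.castSucc_lt_castSucc_iff.2 h

theorem filter_last {k : ℕ} :
    (univ.filter fun i : Fin (k + 1) => i < Fin.last k) = univ.map Fin.castSuccEmb := by
  ext i
  simp only [mem_filter, mem_univ, true_and, mem_map]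
  constructor
  · intro h
    exact ⟨i.castPred h.ne, Fin.castSucc_castPred _ _⟩
  · rintro ⟨i', rfl⟩
    exact Fin.castSucc_lt_last _

theorem exists_bad : ∀ (k : ℕ) (y : Fin k → ℤ) (g : ℕ), (∀ i, y i ≠ 0) → g ≠ 0 →
    (g : ℤ) ∣ ∑ i, y i → (∀ p : ℕ, p.Prime → p ∣ g → ∃ i, ¬ (p : ℤ) ∣ y i) → ¬ Gd k y g →
    ∃ (j : Fin k) (γ : ℕ), γ ≠ 0 ∧ γ ∣ g ∧ (j : ℕ) ≠ 0 ∧ Bad y j γ := by
  intro k
  induction k with
  | zero =>
    intro y g _ hg _ hp hG
    exfalso
    apply hG
    show g = 1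
    by_contra hne
    obtain ⟨p, hp1, hp2⟩ := Nat.exists_prime_and_dvd hne
    obtain ⟨i, -⟩ := hp p hp1 hp2
    exact i.elim0
  | succ k ih =>
    intro y g hy hg hS hp hG
    obtain ⟨h, hh⟩ : ∃ h, h = Nat.gcd g (y (Fin.last k)).natAbs := ⟨_, rfl⟩
    have hhg : h ∣ g := by rw [hh]; exact Nat.gcd_dvd_left _ _
    have hhy : (h : ℤ) ∣ y (Fin.last k) := by
      rw [Int.natCast_dvd, hh]
      exact Nat.gcd_dvd_right _ _
    by_cases hG' : Gd k (fun i => y i.castSucc) h
    · -- the last step is bad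
      have hstep : ¬ Step (Pr fun i : Fin k => y i.castSucc) h (y (Fin.last k)) g := by
        intro hst
        apply hG
        unfold Gd
        rw [← hh]
        exact ⟨hG', hS, hst⟩
      have hlt : h * (y (Fin.last k)).natAbs < g *
          (kp (g * Pr fun i : Fin k => y i.castSucc) (y (Fin.last k)).natAbs *
            mo (co (cp (g * Pr fun i : Fin k => y i.castSucc) (y (Fin.last k)).natAbs))) := by
        by_contra hcon
        push Not at hcon
        exact hstep ⟨hh.symm, hcon⟩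
      have hk : k ≠ 0 := by
        rintro rfl
        have hg1 : g = 1 := by
          by_contra hne
          obtain ⟨p, hp1, hp2⟩ := Nat.exists_prime_and_dvd hne
          obtain ⟨i, hi⟩ := hp p hp1 hp2
          apply hi
          have hi0 : i = 0 := Fin.ext (by
            have := i.isLt
            simp only [Fin.val_zero]
            omega)
          have h1 : ∑ i, y i = y i := by
            rw [hi0]
            exact Fin.sum_univ_one _
          rw [← h1]
          exact dvd_trans (by exact_mod_cast hp2) hS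
        have h2 := Nat.le_of_dvd (Nat.pos_of_ne_zero (Int.natAbs_ne_zero.2 (hy (Fin.last 0))))
          (mod_dvd (g * Pr fun i : Fin 0 => y i.castSucc) (Int.natAbs_ne_zero.2 (hy (Fin.last 0))))
        rw [hh, hg1] at hlt
        rw [hg1] at h2
        rw [Nat.gcd_one_left] at hlt
        omega
      refine ⟨Fin.last k, g, hg, dvd_rfl, by rw [Fin.val_last]; exact hk, ?_, ?_⟩
      · unfold Sl
        rw [filter_last, sum_map]
        rw [Fin.sum_univ_castSucc] at hS
        exact hS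
      · have hPl : Pl y (Fin.last k) = Pr fun i : Fin k => y i.castSucc := by
          unfold Pl Pr
          rw [filter_last, prod_map]
          rfl
        rw [hPl, ← hh]
        exact hlt
    · have h1 : (h : ℤ) ∣ ∑ i : Fin k, y i.castSucc := by
        have h2 : (h : ℤ) ∣ ∑ i, y i := dvd_trans (by exact_mod_cast hhg) hS
        rw [Fin.sum_univ_castSucc] at h2
        exact (dvd_add_left hhy).1 h2
      obtain ⟨j, γ, k1, k2, k3, k4, k5⟩ := ih (fun i => y i.castSucc) h (fun i => hy _)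
        (by
          rw [hh]
          exact (Nat.gcd_pos_of_pos_left _ (Nat.pos_of_ne_zero hg)).ne') h1 (by
          intro p hp1 hp2
          obtain ⟨i, hi⟩ := hp p hp1 (hp2.trans hhg)
          have hl : i ≠ Fin.last k := by
            rintro rfl
            exact hi (dvd_trans (by exact_mod_cast hp2) hhy)
          exact ⟨i.castPred hl, by rwa [Fin.castSucc_castPred]⟩) hG'
      refine ⟨j.castSucc, γ, k1, k2.trans hhg, by rwa [Fin.val_castSucc], ?_, ?_⟩
      · have : Sl y j.castSucc = Sl (fun i => y i.castSucc) j := by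
          unfold Sl
          rw [filter_castSucc, sum_map]
          rfl
        rw [this]
        exact k4
      · have : Pl y j.castSucc = Pl (fun i => y i.castSucc) j := by
          unfold Pl
          rw [filter_castSucc, prod_map]
          rfl
        rw [this]
        exact k5

variable {m : ℕ}

theorem Pl_update (y : Fin m → ℤ) (j : Fin m) (c : ℤ) : Pl (Function.update y j c) j = Pl y j := by
  unfold Pl
  refine prod_congr rfl fun i hi => ?_
  rw [mem_filter] at hi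
  rw [Function.update_of_ne hi.2.ne]

theorem Sl_update (y : Fin m → ℤ) (j : Fin m) (c : ℤ) : Sl (Function.update y j c) j = Sl y j := by
  unfold Sl
  refine sum_congr rfl fun i hi => ?_
  rw [mem_filter] at hi
  rw [Function.update_of_ne hi.2.ne]

/-- the number of multiples -/
theorem card_mult {H γ : ℕ} (h1 : 1 ≤ γ) (h2 : γ ≤ H) (F : Finset ℤ)
    (hF : ∀ b ∈ F, b.natAbs ≤ H ∧ (γ : ℤ) ∣ b) : (F.card : ℝ) ≤ 3 * H / γ := by
  have hγ : (0 : ℝ) < γ := by exact_mod_cast h1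
  have hH : (0 : ℝ) ≤ H := Nat.cast_nonneg _
  have h3 := card_ap F γ h1 H hH (by
    intro b hb
    rw [← Int.cast_abs, Int.abs_eq_natAbs]
    exact_mod_cast (hF b hb).1) (fun b hb b' hb' => dvd_sub (hF b hb).2 (hF b' hb').2)
  refine h3.trans ?_
  have h4 : 1 ≤ (H : ℝ) / γ := by
    rw [le_div_iff₀ hγ, one_mul]
    exact_mod_cast h2
  calc 1 + 2 * (H : ℝ) / γ ≤ (H : ℝ) / γ + 2 * H / γ := by linarith
    _ = 3 * H / γ := by ring

open Classical in
theorem bad_count {H L : ℕ} (hH : 1 ≤ H)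
    (hL : ∀ K : ℕ, K ≠ 0 → K ≤ (m + 2) * H ^ (m + 2) → (Sm K H).card ≤ L) {j₀ j : Fin m}
    (hj : j₀ ≠ j)
    (G : Finset ((Fin m → ℤ) × ℤ × ℤ)) (hG : ∀ t ∈ G, Tr H t ∧
      rad (t.1 j₀).natAbs ≤ rad (t.1 j).natAbs ∧
      ∃ γ : ℕ, γ ≠ 0 ∧ (γ : ℤ) ∣ t.2.1 ∧ Bad t.1 j γ) :
    (G.card : ℝ) ≤ 9 * L * S1 H * SS H ^ m * (H : ℝ) ^ m := by
  have hH0 : (0 : ℝ) < H := by exact_mod_cast hH
  have hS1 := S1_nonneg H
  have hm2 : 2 ≤ m := by
    by_contra hcon
    push Not at hcon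
    have : Subsingleton (Fin m) := by
      rw [← Fintype.card_le_one_iff_subsingleton, Fintype.card_fin]
      omega
    exact hj (Subsingleton.elim _ _)
  choose! γ hγ using fun (t : (Fin m → ℤ) × ℤ × ℤ) (ht : t ∈ G) => (hG t ht).2.2
  obtain ⟨T, hT⟩ : ∃ T, T = ((Fintype.piFinset (fun _ : Fin m => ZZ H) ×ˢ Icc 1 H) ×ˢ
      (Icc 1 H ×ˢ ZZ H)).filter
    (fun z => z.2.1 ∈ Sm (z.1.2 * Pl z.1.1 j) H ∧ ((z.1.2 : ℕ) : ℤ) ∣ z.2.2) := ⟨_, rfl⟩
  obtain ⟨kk, hkk⟩ : ∃ kk : (Fin m → ℤ) × ℤ × ℤ → ℕ, ∀ t, kk t = γ t * Pl t.1 j :=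
    ⟨_, fun _ => rfl⟩
  have key := card_le_sum G (fun t => ((Function.update t.1 j
      ((co (cp (kk t) (t.1 j).natAbs) : ℕ) : ℤ), γ t), (kp (kk t) (t.1 j).natAbs, t.2.1))) T
    (fun z => 3 * ((H : ℝ) ^ (m - 1) * (1 / PR z.1.1))) ?_ ?_
  · refine key.trans ?_
    rw [hT, sum_filter, sum_product]
    have e1 : ∀ x ∈ Fintype.piFinset (fun _ : Fin m => ZZ H) ×ˢ Icc 1 H,
        ∑ z ∈ Icc 1 H ×ˢ ZZ H, (if z.1 ∈ Sm (x.2 * Pl x.1 j) H ∧ ((x.2 : ℕ) : ℤ) ∣ z.2 then
          3 * ((H : ℝ) ^ (m - 1) * (1 / PR x.1)) else 0) ≤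
        9 * L * (H : ℝ) ^ m * (1 / PR x.1) * (1 / (rad x.2 : ℝ)) := by
      rintro ⟨y, g⟩ hx
      rw [mem_product, Fintype.mem_piFinset, mem_Icc] at hx
      obtain ⟨hy, hg1, hg2⟩ := hx
      simp only at hy hg1 hg2 ⊢
      have hPR := PR_pos y
      rw [← sum_filter, sum_const, nsmul_eq_mul]
      have hsub : (Icc 1 H ×ˢ ZZ H).filter (fun z => z.1 ∈ Sm (g * Pl y j) H ∧
          ((g : ℕ) : ℤ) ∣ z.2) ⊆ Sm (g * Pl y j) H ×ˢ (ZZ H).filter (fun b => ((g : ℕ) : ℤ) ∣ b) := by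
        intro z hz
        rw [mem_filter, mem_product] at hz
        rw [mem_product, mem_filter]
        exact ⟨hz.2.1, hz.1.2, hz.2.2⟩
      have hPl : Pl y j ≤ H ^ m := by
        unfold Pl
        calc ∏ i ∈ univ.filter (fun i => i < j), (y i).natAbs ≤
              ∏ _i ∈ univ.filter (fun i => i < j), H :=
              prod_le_prod' fun i _ => (mem_ZZ.1 (hy i)).2
          _ = H ^ (univ.filter (fun i => i < j)).card := prod_const _
          _ ≤ H ^ m := Nat.pow_le_pow_right hH (by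
              have := card_filter_le (univ : Finset (Fin m)) (fun i => i < j)
              rwa [card_univ, Fintype.card_fin] at this)
      have hPl0 : Pl y j ≠ 0 :=
        prod_ne_zero_iff.2 fun i _ => Int.natAbs_ne_zero.2 (mem_ZZ.1 (hy i)).1
      have hc1 : (Sm (g * Pl y j) H).card ≤ L := by
        refine hL _ (mul_ne_zero (by omega) hPl0) ?_
        calc g * Pl y j ≤ H * H ^ m := Nat.mul_le_mul hg2 hPl
          _ = H ^ (m + 1) := by rw [pow_succ, mul_comm]
          _ ≤ H ^ (m + 2) := Nat.pow_le_pow_right hH (by omega)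
          _ ≤ (m + 2) * H ^ (m + 2) := Nat.le_mul_of_pos_left _ (by omega)
      have hc2 := card_mult (H := H) hg1 hg2 ((ZZ H).filter (fun b => ((g : ℕ) : ℤ) ∣ b)) (by
        intro b hb
        rw [mem_filter] at hb
        exact ⟨(mem_ZZ.1 hb.1).2, hb.2⟩)
      have hc3 : (((Icc 1 H ×ˢ ZZ H).filter (fun z => z.1 ∈ Sm (g * Pl y j) H ∧
          ((g : ℕ) : ℤ) ∣ z.2)).card : ℝ) ≤ L * (3 * H / g) := by
        have h1 := card_le_card hsub
        rw [card_product] at h1
        have h2 : (((Icc 1 H ×ˢ ZZ H).filter (fun z => z.1 ∈ Sm (g * Pl y j) H ∧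
          ((g : ℕ) : ℤ) ∣ z.2)).card : ℝ) ≤ ((Sm (g * Pl y j) H).card : ℝ) *
            (((ZZ H).filter (fun b => ((g : ℕ) : ℤ) ∣ b)).card : ℝ) := by exact_mod_cast h1
        exact h2.trans (mul_le_mul (by exact_mod_cast hc1) hc2 (Nat.cast_nonneg _)
          (Nat.cast_nonneg _))
      have hg0 : (0 : ℝ) < g := by exact_mod_cast hg1
      have hrg : (rad g : ℝ) ≤ g := by exact_mod_cast rad_le (by omega)
      have hrg0 := rad_pos' g
      have e5 : (H : ℝ) * (H : ℝ) ^ (m - 1) = (H : ℝ) ^ m := by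
        rw [← pow_succ']
        congr 1
        omega
      calc (((Icc 1 H ×ˢ ZZ H).filter (fun z => z.1 ∈ Sm (g * Pl y j) H ∧
            ((g : ℕ) : ℤ) ∣ z.2)).card : ℝ) * (3 * ((H : ℝ) ^ (m - 1) * (1 / PR y))) ≤
            L * (3 * H / g) * (3 * ((H : ℝ) ^ (m - 1) * (1 / PR y))) :=
            mul_le_mul_of_nonneg_right hc3 (by positivity)
        _ = 9 * L * (H * (H : ℝ) ^ (m - 1)) * (1 / PR y) * (1 / g) := by ring
        _ ≤ 9 * L * (H : ℝ) ^ m * (1 / PR y) * (1 / (rad g : ℝ)) := by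
            rw [e5]
            exact mul_le_mul_of_nonneg_left (one_div_le_one_div_of_le hrg0 hrg) (by positivity)
    refine (sum_le_sum e1).trans ?_
    rw [sum_product]
    simp only
    have e2 : ∀ y ∈ Fintype.piFinset (fun _ : Fin m => ZZ H), ∑ g ∈ Icc 1 H,
        9 * L * (H : ℝ) ^ m * (1 / PR y) * (1 / (rad g : ℝ)) =
        9 * L * (H : ℝ) ^ m * S1 H * (1 / PR y) := by
      intro y _
      rw [← mul_sum]
      unfold S1
      ring
    rw [sum_congr rfl e2, ← mul_sum, sum_pi]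
    refine le_of_eq ?_
    ring
  · intro t ht
    obtain ⟨h1, h2, -⟩ := hG t ht
    obtain ⟨g1, g2, g3⟩ := hγ t ht
    have hyj := h1.y j
    have hyj' := Int.natAbs_ne_zero.2 hyj.1
    have hb' := Int.natAbs_ne_zero.2 h1.b.1
    have hγH : γ t ≤ H := (Nat.le_of_dvd (Nat.pos_of_ne_zero hb') (Int.natCast_dvd.1 g2)).trans
      h1.b.2
    rw [hT, mem_filter]
    simp only [mem_product, Fintype.mem_piFinset, mem_Icc]
    refine ⟨⟨⟨fun i => ?_, ⟨Nat.one_le_iff_ne_zero.2 g1, hγH⟩⟩, ⟨⟨Nat.pos_of_ne_zero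
      (kp_ne _ hyj'), (Nat.le_of_dvd (Nat.pos_of_ne_zero hyj') (kp_dvd _ hyj')).trans hyj.2⟩,
      mem_ZZ.2 h1.b⟩⟩, ?_, g2⟩
    · by_cases hij : i = j
      · rw [hij, Function.update_self, mem_ZZ, Int.natAbs_natCast]
        refine ⟨by exact_mod_cast (co_pos (cp_ne _ hyj')).ne', (co_le _).trans
          ((Nat.le_of_dvd (Nat.pos_of_ne_zero hyj') (cp_dvd _ hyj')).trans hyj.2)⟩
      · rw [Function.update_of_ne hij]
        exact mem_ZZ.2 (h1.y i)
    · rw [Pl_update, ← hkk]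
      exact kp_mem hyj' hyj.2
  · rintro ⟨⟨z, g⟩, ⟨v, b⟩⟩ hz
    obtain ⟨F, hF⟩ : ∃ F, F = G.filter (fun t => ((Function.update t.1 j
      ((co (cp (kk t) (t.1 j).natAbs) : ℕ) : ℤ), γ t), (kp (kk t) (t.1 j).natAbs, t.2.1)) =
        ((z, g), (v, b))) := ⟨_, rfl⟩
    rw [← hF]
    have hPR := PR_pos z
    simp only
    rcases F.eq_empty_or_nonempty with h0 | ⟨t₀, ht₀⟩
    · rw [h0, card_empty, Nat.cast_zero]
      positivity
    have hfac : ∀ t ∈ F, t ∈ G ∧ (Function.update t.1 j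
        ((co (cp (kk t) (t.1 j).natAbs) : ℕ) : ℤ) = z ∧ γ t = g) ∧
          (kp (kk t) (t.1 j).natAbs = v ∧ t.2.1 = b) := by
      intro t ht
      rw [hF, mem_filter] at ht
      simp only [Prod.mk.injEq] at ht
      exact ht
    obtain ⟨k1, ⟨k2, k3⟩, ⟨k4, k5⟩⟩ := hfac t₀ ht₀
    -- the weight
    have hPRle : PR z ≤ (H : ℝ) ^ (m - 1) := by
      obtain ⟨h1, h2, -⟩ := hG t₀ k1
      have hyj := h1.y j
      have hyj' := Int.natAbs_ne_zero.2 hyj.1
      have hj0 : j₀ ∈ univ.erase j := mem_erase.2 ⟨hj, mem_univ _⟩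
      unfold PR
      rw [← mul_prod_erase _ _ (mem_univ j), ← mul_prod_erase _ _ hj0, ← mul_assoc, ← k2]
      have e1 : (rad (Function.update t₀.1 j ((co (cp (kk t₀) (t₀.1 j).natAbs) : ℕ) : ℤ)
          j).natAbs : ℝ) * (rad (Function.update t₀.1 j
            ((co (cp (kk t₀) (t₀.1 j).natAbs) : ℕ) : ℤ) j₀).natAbs : ℝ) ≤ H := by
        rw [Function.update_self, Function.update_of_ne hj, Int.natAbs_natCast]
        have e2 : rad (co (cp (kk t₀) (t₀.1 j).natAbs)) * rad (t₀.1 j₀).natAbs ≤ H := by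
          calc rad (co (cp (kk t₀) (t₀.1 j).natAbs)) * rad (t₀.1 j₀).natAbs ≤
                co (cp (kk t₀) (t₀.1 j).natAbs) * rad (t₀.1 j).natAbs :=
                Nat.mul_le_mul (rad_le (co_pos (cp_ne _ hyj')).ne') h2
            _ = rad (t₀.1 j).natAbs * co (cp (kk t₀) (t₀.1 j).natAbs) := mul_comm _ _
            _ ≤ (t₀.1 j).natAbs := co_cp_le _ hyj'
            _ ≤ H := hyj.2
        exact_mod_cast e2
      have e3 : ∏ i ∈ (univ.erase j).erase j₀, (rad (Function.update t₀.1 j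
          ((co (cp (kk t₀) (t₀.1 j).natAbs) : ℕ) : ℤ) i).natAbs : ℝ) ≤ (H : ℝ) ^ (m - 2) := by
        calc ∏ i ∈ (univ.erase j).erase j₀, (rad (Function.update t₀.1 j
              ((co (cp (kk t₀) (t₀.1 j).natAbs) : ℕ) : ℤ) i).natAbs : ℝ) ≤
              ∏ _i ∈ (univ.erase j).erase j₀, (H : ℝ) := by
              refine prod_le_prod (fun _ _ => Nat.cast_nonneg _) fun i hi => ?_
              rw [mem_erase, mem_erase] at hi
              rw [Function.update_of_ne hi.2.1]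
              exact_mod_cast (rad_le (Int.natAbs_ne_zero.2 (h1.y i).1)).trans (h1.y i).2
          _ = (H : ℝ) ^ (m - 2) := by
              rw [prod_const, card_erase_of_mem hj0, card_erase_of_mem (mem_univ j), card_univ,
                Fintype.card_fin]
              congr 1
      calc _ ≤ (H : ℝ) * (H : ℝ) ^ (m - 2) :=
            mul_le_mul e1 e3 (prod_nonneg fun _ _ => Nat.cast_nonneg _) hH0.le
        _ = (H : ℝ) ^ (m - 1) := by
            rw [← pow_succ']
            congr 1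
            omega
    have hw : 1 ≤ (H : ℝ) ^ (m - 1) * (1 / PR z) := by
      rw [mul_one_div, le_div_iff₀ hPR, one_mul]
      exact hPRle
    -- the fibre
    have hinj : Set.InjOn (fun t : (Fin m → ℤ) × ℤ × ℤ => t.1 j) (F : Set _) := by
      intro t ht t' ht' h
      obtain ⟨a1, ⟨a2, a3⟩, ⟨a4, a5⟩⟩ := hfac t ht
      obtain ⟨b1, ⟨b2, b3⟩, ⟨b4, b5⟩⟩ := hfac t' ht'
      have e1 : t.1 = t'.1 := by
        funext i
        by_cases hij : i = j
        · rw [hij]
          exact h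
        · have := congrFun (a2.trans b2.symm) i
          rwa [Function.update_of_ne hij, Function.update_of_ne hij] at this
      have e2 := (hG t a1).1.eq
      have e3 := (hG t' b1).1.eq
      refine Prod.ext e1 (Prod.ext (a5.trans b5.symm) ?_)
      rw [e2, e3, e1, a5, b5]
    obtain ⟨c, hc⟩ : ∃ c, c = co (cp (kk t₀) (t₀.1 j).natAbs) := ⟨_, rfl⟩
    have hcall : ∀ t ∈ F, co (cp (kk t) (t.1 j).natAbs) = c := by
      intro t ht
      obtain ⟨a1, ⟨a2, a3⟩, ⟨a4, a5⟩⟩ := hfac t ht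
      have := congrFun (a2.trans k2.symm) j
      rw [Function.update_self, Function.update_self] at this
      rw [hc]
      exact_mod_cast this
    have hgpos : 0 < g := by
      rw [← k3]
      exact Nat.pos_of_ne_zero (hγ t₀ k1).1
    have hyj₀ := Int.natAbs_ne_zero.2 ((hG t₀ k1).1.y j).1
    have hvc0 : 0 < v * mo c := by
      rw [← k4, hc]
      exact Nat.mul_pos (Nat.pos_of_ne_zero (kp_ne _ hyj₀)) (mo_pos (co_pos (cp_ne _ hyj₀)).ne')
    obtain ⟨q, hq⟩ : ∃ q, q = Nat.lcm (v * mo c) g := ⟨_, rfl⟩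
    have hq0 : 0 < q := by rw [hq]; exact Nat.lcm_pos hvc0 hgpos
    have hdv : ∀ t ∈ F, v * mo c ∣ (t.1 j).natAbs := by
      intro t ht
      obtain ⟨a1, ⟨a2, a3⟩, ⟨a4, a5⟩⟩ := hfac t ht
      rw [← a4, ← hcall t ht]
      exact mod_dvd _ (Int.natAbs_ne_zero.2 ((hG t a1).1.y j).1)
    have hSlall : ∀ t ∈ F, Sl t.1 j = Sl z j := by
      intro t ht
      obtain ⟨a1, ⟨a2, a3⟩, ⟨a4, a5⟩⟩ := hfac t ht
      rw [← a2, Sl_update]
    have hcard := card_ap (F.image fun t => t.1 j) q hq0 (q : ℝ) (Nat.cast_nonneg _) (by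
      intro x hx
      obtain ⟨t, ht, rfl⟩ := mem_image.1 hx
      obtain ⟨a1, ⟨a2, a3⟩, ⟨a4, a5⟩⟩ := hfac t ht
      obtain ⟨-, -, h5, h6⟩ := hγ t a1
      rw [← Int.cast_abs, Int.abs_eq_natAbs]
      have h7 : (t.1 j).natAbs ≤ q := by
        rw [← hkk, a3, a4, hcall t ht] at h6
        have hyj := Int.natAbs_ne_zero.2 ((hG t a1).1.y j).1
        have h8 : Nat.gcd (v * mo c) g ≤ Nat.gcd g (t.1 j).natAbs :=
          Nat.le_of_dvd (Nat.gcd_pos_of_pos_left _ hgpos)
            (Nat.dvd_gcd (Nat.gcd_dvd_right _ _) ((Nat.gcd_dvd_left _ _).trans (hdv t ht)))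
        have h9 : g * (v * mo c) ≤ Nat.gcd g (t.1 j).natAbs * q := by
          rw [mul_comm g, ← Nat.gcd_mul_lcm, ← hq]
          exact Nat.mul_le_mul_right _ h8
        have h10 := lt_of_lt_of_le h6 h9
        exact (lt_of_mul_lt_mul_left h10 (Nat.zero_le _)).le
      exact_mod_cast h7) (by
      intro x hx x' hx'
      obtain ⟨t, ht, rfl⟩ := mem_image.1 hx
      obtain ⟨t', ht', rfl⟩ := mem_image.1 hx'
      obtain ⟨a1, ⟨a2, a3⟩, ⟨a4, a5⟩⟩ := hfac t ht
      obtain ⟨b1, ⟨b2, b3⟩, ⟨b4, b5⟩⟩ := hfac t' ht'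
      have e1 : ((v * mo c : ℕ) : ℤ) ∣ t.1 j - t'.1 j :=
        dvd_sub (Int.natCast_dvd.2 (hdv t ht)) (Int.natCast_dvd.2 (hdv t' ht'))
      have e2 : (g : ℤ) ∣ t.1 j - t'.1 j := by
        have h5 := (hγ t a1).2.2.1
        have h6 := (hγ t' b1).2.2.1
        rw [a3, hSlall t ht] at h5
        rw [b3, hSlall t' ht'] at h6
        have := dvd_sub h5 h6
        rwa [add_sub_add_left_eq_sub] at this
      rw [hq, Int.natCast_dvd]
      exact Nat.lcm_dvd (Int.natCast_dvd.1 e1) (Int.natCast_dvd.1 e2))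
    rw [card_image_of_injOn hinj] at hcard
    have hq0' : (0 : ℝ) < q := by exact_mod_cast hq0
    have e9 : 1 + 2 * (q : ℝ) / q = 3 := by
      rw [mul_div_assoc, div_self hq0'.ne']
      norm_num
    rw [e9] at hcard
    linarith

end Pool.Agent.Q38.NG
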