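import Pool.Agent.Q38.NG.Bad
import Pool.Agent.Q38.NC.Tup

/-! Blocks of heights. -/

set_option autoImplicit false

namespace Pool.Agent.Q38.NG

open Finset
open Pool.Agent.H328R2.ABC (rad sum_inv_rad)
open Pool.Agent.Q38.NC

/-- nonzero integers without common prime factor, with sum zero and no vanishing subsum -/
structure AdG {n : ℕ} (x : Fin n → ℤ) : Prop where
  ne : ∀ i, x i ≠ 0
  cop : ∀ p : ℕ, p.Prime → ∃ i, ¬ (p : ℤ) ∣ x i
  sum : ∑ i, x i = 0
  nv : NV x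

/-- the choice of the indices -/
theorem choose_idx' {n : ℕ} (hn : 4 ≤ n) {H : ℕ} (hH : 1 ≤ H) {x : Fin n → ℤ}
    (hsum : ∑ i, x i = 0) (hmax : ∃ i, H ≤ 2 * (x i).natAbs) :
    ∃ a b c e j : Fin n, (a ≠ b ∧ a ≠ c ∧ a ≠ e ∧ b ≠ c ∧ b ≠ e ∧ c ≠ e) ∧
      H ≤ 2 * n * (x c).natAbs ∧ rad (x a).natAbs ≤ rad (x c).natAbs ∧
      rad (x e).natAbs ≤ rad (x b).natAbs ∧ j ≠ b ∧ j ≠ c ∧
      ∀ i, i ≠ b → i ≠ c → rad (x j).natAbs ≤ rad (x i).natAbs := by
  classical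
  obtain ⟨i, hi⟩ := hmax
  have hn0 : 1 ≤ n := by omega
  have hi' : H ≤ 2 * n * (x i).natAbs := by
    calc H ≤ 2 * (x i).natAbs := hi
      _ ≤ 2 * n * (x i).natAbs := by
          refine Nat.mul_le_mul_right _ ?_
          omega
  obtain ⟨j, hji, hj⟩ : ∃ j, j ≠ i ∧ H ≤ 2 * n * (x j).natAbs := by
    by_contra hcon
    push Not at hcon
    have h1 : x i = -∑ k ∈ univ.erase i, x k := by
      have h := hsum
      rw [← add_sum_erase _ _ (mem_univ i)] at h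
      linarith
    have h2 : (x i).natAbs ≤ ∑ k ∈ univ.erase i, (x k).natAbs := by
      rw [h1, Int.natAbs_neg]
      exact Int.natAbs_sum_le _ _
    have h3 : 2 * n * (x i).natAbs ≤ ∑ k ∈ univ.erase i, 2 * n * (x k).natAbs := by
      rw [← mul_sum]
      exact Nat.mul_le_mul_left _ h2
    have h4 : ∑ k ∈ univ.erase i, 2 * n * (x k).natAbs ≤ ∑ _k ∈ univ.erase i, H :=
      sum_le_sum fun k hk => (hcon k (mem_erase.1 hk).1).le
    rw [sum_const, card_erase_of_mem (mem_univ i), card_univ, Fintype.card_fin, smul_eq_mul] at h4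
    have h5 : n * H ≤ (n - 1) * H := by
      calc n * H ≤ n * (2 * (x i).natAbs) := Nat.mul_le_mul_left _ hi
        _ = 2 * n * (x i).natAbs := by ring
        _ ≤ (n - 1) * H := h3.trans h4
    have h6 : n ≤ n - 1 := Nat.le_of_mul_le_mul_right h5 hH
    omega
  -- the two large ones
  obtain ⟨a, c, hac, hc, hrad, hset⟩ : ∃ a c : Fin n, a ≠ c ∧ H ≤ 2 * n * (x c).natAbs ∧
      rad (x a).natAbs ≤ rad (x c).natAbs ∧ ({a, c} : Finset (Fin n)) = {i, j} := by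
    rcases le_total (rad (x i).natAbs) (rad (x j).natAbs) with h | h
    · exact ⟨i, j, hji.symm, hj, h, rfl⟩
    · exact ⟨j, i, hji, hi', h, pair_comm _ _⟩
  obtain ⟨S, hS⟩ : ∃ S : Finset (Fin n), S = (univ.erase a).erase c := ⟨_, rfl⟩
  have hcS : c ∈ univ.erase a := mem_erase.2 ⟨hac.symm, mem_univ _⟩
  have hScard : S.card = n - 2 := by
    rw [hS, card_erase_of_mem hcS, card_erase_of_mem (mem_univ a), card_univ, Fintype.card_fin]
    omega
  have hSne : S.Nonempty := by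
    rw [← card_pos, hScard]
    omega
  obtain ⟨b, hb, hbmax⟩ := S.exists_max_image (fun k => rad (x k).natAbs) hSne
  have hSe : (S.erase b).Nonempty := by
    rw [← card_pos, card_erase_of_mem hb, hScard]
    omega
  obtain ⟨e, he⟩ := hSe
  rw [mem_erase] at he
  have hbm := hb
  have hem := he.2
  rw [hS, mem_erase, mem_erase] at hbm hem
  have hT : ((univ.erase b).erase c).Nonempty := ⟨a, by
    rw [mem_erase, mem_erase]
    exact ⟨hac, hbm.2.1.symm, mem_univ _⟩⟩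
  obtain ⟨j', hj', hjmin⟩ := ((univ.erase b).erase c).exists_min_image
    (fun k => rad (x k).natAbs) hT
  rw [mem_erase, mem_erase] at hj'
  exact ⟨a, b, c, e, j', ⟨hbm.2.1.symm, hac, hem.2.1.symm, hbm.1, he.1.symm, hem.1.symm⟩, hc,
    hrad, hbmax e he.2, hj'.2.1, hj'.1, fun i hi1 hi2 => hjmin i (by
      rw [mem_erase, mem_erase]
      exact ⟨hi2, hi1, mem_univ _⟩)⟩

/-- an enumeration of the other indices -/
theorem exists_enum {m : ℕ} (hm : 0 < m) {b c j : Fin (m + 2)} (hbc : b ≠ c) (hjb : j ≠ b)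
    (hjc : j ≠ c) : ∃ f : Fin m → Fin (m + 2), Function.Injective f ∧ f ⟨0, hm⟩ = j ∧
      univ.image f = (univ.erase b).erase c := by
  classical
  obtain ⟨S, hS⟩ : ∃ S : Finset (Fin (m + 2)), S = (univ.erase b).erase c := ⟨_, rfl⟩
  have hcS : c ∈ univ.erase b := mem_erase.2 ⟨hbc.symm, mem_univ _⟩
  have hcard : S.card = m := by
    rw [hS, card_erase_of_mem hcS, card_erase_of_mem (mem_univ b), card_univ, Fintype.card_fin]
    omega
  have hjS : j ∈ S := by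
    rw [hS, mem_erase, mem_erase]
    exact ⟨hjc, hjb, mem_univ _⟩
  obtain ⟨e⟩ : Nonempty (S ≃ Fin m) := ⟨S.equivFinOfCardEq hcard⟩
  obtain ⟨σ, hσ⟩ : ∃ σ : Fin m ≃ Fin m, σ = Equiv.swap ⟨0, hm⟩ (e ⟨j, hjS⟩) := ⟨_, rfl⟩
  refine ⟨fun i => (e.symm (σ i)).1, ?_, ?_, ?_⟩
  · intro i i' h
    exact σ.injective (e.symm.injective (Subtype.ext h))
  · show (e.symm (σ ⟨0, hm⟩)).1 = j
    rw [hσ, Equiv.swap_apply_left, Equiv.symm_apply_apply]
  · rw [← hS]
    ext i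
    rw [mem_image]
    constructor
    · rintro ⟨i', -, rfl⟩
      exact (e.symm (σ i')).2
    · intro hi
      refine ⟨σ.symm (e ⟨i, hi⟩), mem_univ _, ?_⟩
      rw [Equiv.apply_symm_apply, Equiv.symm_apply_apply]

variable {m : ℕ}

/-- tuples with given indices -/
theorem cell_count (hm : 2 ≤ m) {H L J : ℕ} {R : ℝ} (hH : 1 ≤ H) (hJ : 1 ≤ J) (hR : 0 ≤ R)
    (hL : ∀ K : ℕ, K ≠ 0 → K ≤ (m + 2) * H ^ (m + 2) → (Sm K H).card ≤ L)
    {a b c e j : Fin (m + 2)}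
    (hne : a ≠ b ∧ a ≠ c ∧ a ≠ e ∧ b ≠ c ∧ b ≠ e ∧ c ≠ e) (hjb : j ≠ b) (hjc : j ≠ c)
    (G : Finset (Fin (m + 2) → ℤ)) (hG : ∀ x ∈ G, AdG x ∧ (∀ i, (x i).natAbs ≤ H) ∧
      (RX x : ℝ) ≤ R ∧ J ≤ (x b).natAbs ∧ (x b).natAbs ≤ 2 * J ∧
      H ≤ 2 * (m + 2) * (x c).natAbs ∧ rad (x a).natAbs ≤ rad (x c).natAbs ∧
      rad (x e).natAbs ≤ rad (x b).natAbs ∧
      ∀ i, i ≠ b → i ≠ c → rad (x j).natAbs ≤ rad (x i).natAbs) :
    (G.card : ℝ) ≤ (L * S1 H) ^ 2 * (L * (H : ℝ) ^ m * SS H ^ m +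
      4 * (2 * (m + 2) : ℕ) * R / H * (2 * L ^ 2 * S1 H ^ 3) ^ m) +
      m * (9 * L * S1 H * SS H ^ m * (H : ℝ) ^ m) := by
  classical
  obtain ⟨hab, hac, hae, hbc, hbe, hce⟩ := hne
  have hm0 : 0 < m := by omega
  obtain ⟨f, hf, hf0, hfim⟩ := exists_enum hm0 hbc hjb hjc
  have hfne : ∀ i, f i ≠ b ∧ f i ≠ c := by
    intro i
    have : f i ∈ (univ.erase b).erase c := by
      rw [← hfim]
      exact mem_image_of_mem _ (mem_univ _)
    rw [mem_erase, mem_erase] at this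
    exact ⟨this.2.1, this.1⟩
  have hfex : ∀ i, i ≠ b → i ≠ c → ∃ i', f i' = i := by
    intro i h1 h2
    have : i ∈ (univ.erase b).erase c := by
      rw [mem_erase, mem_erase]
      exact ⟨h2, h1, mem_univ _⟩
    rw [← hfim, mem_image] at this
    obtain ⟨i', -, h⟩ := this
    exact ⟨i', h⟩
  obtain ⟨a', ha'⟩ := hfex a hab hac
  obtain ⟨e', he'⟩ := hfex e hbe.symm hce.symm
  have hae' : a' ≠ e' := by
    rintro rfl
    exact hae (ha'.symm.trans he')
  have hcS : c ∈ univ.erase b := mem_erase.2 ⟨hbc.symm, mem_univ _⟩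
  obtain ⟨Φ, hΦ⟩ : ∃ Φ : (Fin (m + 2) → ℤ) → (Fin m → ℤ) × ℤ × ℤ,
    ∀ x, Φ x = ((fun i => x (f i)), x b, x c) := ⟨_, fun _ => rfl⟩
  have hinj : Function.Injective Φ := by
    intro x x' h
    rw [hΦ, hΦ, Prod.mk.injEq, Prod.mk.injEq] at h
    funext i
    by_cases hib : i = b
    · rw [hib]
      exact h.2.1
    · by_cases hic : i = c
      · rw [hic]
        exact h.2.2
      · obtain ⟨i', rfl⟩ := hfex i hib hic
        exact congrFun h.1 i'
  have hsumf : ∀ x : Fin (m + 2) → ℤ, ∑ i, x i = ∑ i, x (f i) + x b + x c := by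
    intro x
    rw [← add_sum_erase _ _ (mem_univ b), ← add_sum_erase _ _ hcS, ← hfim,
      sum_image fun i _ i' _ h => hf h]
    ring
  have hsumf' : ∀ x : Fin (m + 2) → ℤ, ∑ i ∈ (univ.erase b).erase c, x i = ∑ i, x (f i) := by
    intro x
    rw [← hfim, sum_image fun i _ i' _ h => hf h]
  have hprodf : ∀ x : Fin (m + 2) → ℤ, RX x =
      rad (Pr (fun i => x (f i)) * ((x b).natAbs * (x c).natAbs)) := by
    intro x
    have h1 : RX x = rad (∏ i, (x i).natAbs) := by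
      unfold RX rad
      rw [← Int.natAbsHom_apply, map_prod]
      rfl
    rw [h1]
    congr 1
    rw [← mul_prod_erase _ _ (mem_univ b), ← mul_prod_erase _ _ hcS, ← hfim,
      prod_image fun i _ i' _ h => hf h]
    unfold Pr
    ring
  have hTr : ∀ x ∈ G, Tr H (Φ x) := by
    intro x hx
    obtain ⟨g1, g2, -⟩ := hG x hx
    rw [hΦ]
    exact ⟨fun i => ⟨g1.ne _, g2 _⟩, ⟨g1.ne _, g2 _⟩, ⟨g1.ne _, g2 _⟩, by
      show ∑ i, x (f i) + x b + x c = 0
      rw [← hsumf, g1.sum]⟩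
  -- the good ones and the bad ones
  obtain ⟨G1, hG1⟩ : ∃ G1, G1 = (G.image Φ).filter
    (fun t => Gd m t.1 (Nat.gcd t.2.1.natAbs t.2.2.natAbs)) := ⟨_, rfl⟩
  obtain ⟨G2, hG2⟩ : ∃ G2 : Fin m → Finset ((Fin m → ℤ) × ℤ × ℤ), ∀ i, G2 i =
    (G.image Φ).filter (fun t => (⟨0, hm0⟩ : Fin m) ≠ i ∧
      ∃ γ : ℕ, γ ≠ 0 ∧ (γ : ℤ) ∣ t.2.1 ∧ Bad t.1 i γ) := ⟨_, fun _ => rfl⟩
  have hcover : G.image Φ ⊆ G1 ∪ univ.biUnion G2 := by
    intro t ht
    rw [mem_union]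
    by_cases hGd : Gd m t.1 (Nat.gcd t.2.1.natAbs t.2.2.natAbs)
    · left
      rw [hG1, mem_filter]
      exact ⟨ht, hGd⟩
    · right
      have ht' := ht
      obtain ⟨x, hx, rfl⟩ := mem_image.1 ht'
      have h1 := hTr x hx
      obtain ⟨g1, g2, -⟩ := hG x hx
      have hb' := Int.natAbs_ne_zero.2 h1.b.1
      have hgb : ((Nat.gcd (Φ x).2.1.natAbs (Φ x).2.2.natAbs : ℕ) : ℤ) ∣ (Φ x).2.1 :=
        Int.natCast_dvd.2 (Nat.gcd_dvd_left _ _)
      have hgc : ((Nat.gcd (Φ x).2.1.natAbs (Φ x).2.2.natAbs : ℕ) : ℤ) ∣ (Φ x).2.2 :=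
        Int.natCast_dvd.2 (Nat.gcd_dvd_right _ _)
      obtain ⟨i, γ, k1, k2, k3, k4⟩ := exists_bad m (Φ x).1 _ (fun i => (h1.y i).1)
        (Nat.gcd_pos_of_pos_left _ (Nat.pos_of_ne_zero hb')).ne' (by
          have h2 : ∑ i, (Φ x).1 i = -((Φ x).2.1 + (Φ x).2.2) := by
            have := h1.sum
            linarith
          rw [h2]
          exact (dvd_add hgb hgc).neg_right) (by
          intro p hp hpg
          obtain ⟨i, hi⟩ := g1.cop p hp
          have hpb : (p : ℤ) ∣ x b := by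
            have h3 : (p : ℤ) ∣ (Φ x).2.1 := dvd_trans (by exact_mod_cast hpg) hgb
            rwa [hΦ] at h3
          have hpc : (p : ℤ) ∣ x c := by
            have h3 : (p : ℤ) ∣ (Φ x).2.2 := dvd_trans (by exact_mod_cast hpg) hgc
            rwa [hΦ] at h3
          obtain ⟨i', hi'⟩ := hfex i (by rintro rfl; exact hi hpb) (by rintro rfl; exact hi hpc)
          refine ⟨i', ?_⟩
          rw [hΦ]
          show ¬ (p : ℤ) ∣ x (f i')
          rwa [hi']) hGd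
      rw [mem_biUnion]
      refine ⟨i, mem_univ _, ?_⟩
      rw [hG2, mem_filter]
      refine ⟨ht, ?_, γ, k1, dvd_trans (by exact_mod_cast k2) hgb, k4⟩
      rintro rfl
      exact k3 rfl
  have hc1 : (G1.card : ℝ) ≤ (L * S1 H) ^ 2 * (L * (H : ℝ) ^ m * SS H ^ m +
      4 * (2 * (m + 2) : ℕ) * R / H * (2 * L ^ 2 * S1 H ^ 3) ^ m) := by
    refine good_count hH hJ hR hL hae' G1 ?_
    intro t ht
    rw [hG1, mem_filter] at ht
    obtain ⟨ht1, hGd⟩ := ht
    obtain ⟨x, hx, rfl⟩ := mem_image.1 ht1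
    have h1 := hTr x hx
    obtain ⟨g1, g2, g3, g4, g5, g6, g7, g8, g9⟩ := hG x hx
    refine ⟨h1, ?_, hGd, ?_, ?_, ?_, ?_, ?_, ?_⟩
    · rw [hΦ]
      show ∑ i, x (f i) ≠ 0
      rw [← hsumf']
      refine g1.nv _ ?_ ?_
      · refine ⟨a, ?_⟩
        rw [mem_erase, mem_erase]
        exact ⟨hac, hab, mem_univ _⟩
      · intro h
        have := mem_univ b
        rw [← h, mem_erase, mem_erase] at this
        exact this.2.1 rfl
    · rw [hΦ]; exact g4
    · rw [hΦ]; exact g5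
    · rw [hΦ]; exact g6
    · rw [hΦ]
      show (rad (Pr (fun i => x (f i)) * ((x b).natAbs * (x c).natAbs)) : ℝ) ≤ R
      rw [← hprodf]
      exact g3
    · rw [hΦ]
      show rad (x (f a')).natAbs ≤ rad (x c).natAbs
      rw [ha']
      exact g7
    · rw [hΦ]
      show rad (x (f e')).natAbs ≤ rad (x b).natAbs
      rw [he']
      exact g8
  have hc2 : ∀ i, ((G2 i).card : ℝ) ≤ 9 * L * S1 H * SS H ^ m * (H : ℝ) ^ m := by
    intro i
    by_cases hi : (⟨0, hm0⟩ : Fin m) = i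
    · have : G2 i = ∅ := by
        rw [hG2]
        exact filter_eq_empty_iff.2 fun t _ h => h.1 hi
      rw [this, card_empty, Nat.cast_zero]
      have h2 := S1_nonneg H
      have h3 : 0 ≤ SS H := sum_nonneg fun _ _ => by positivity
      positivity
    · refine bad_count hH hL hi (G2 i) ?_
      intro t ht
      rw [hG2, mem_filter] at ht
      obtain ⟨ht1, -, hγ⟩ := ht
      obtain ⟨x, hx, rfl⟩ := mem_image.1 ht1
      obtain ⟨g1, g2, g3, g4, g5, g6, g7, g8, g9⟩ := hG x hx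
      refine ⟨hTr x hx, ?_, hγ⟩
      rw [hΦ]
      show rad (x (f ⟨0, hm0⟩)).natAbs ≤ rad (x (f i)).natAbs
      rw [hf0]
      exact g9 _ (hfne i).1 (hfne i).2
  rw [← card_image_of_injective G hinj]
  calc ((G.image Φ).card : ℝ) ≤ ((G1 ∪ univ.biUnion G2).card : ℝ) := by
        exact_mod_cast card_le_card hcover
    _ ≤ (G1.card : ℝ) + ∑ i, ((G2 i).card : ℝ) := by
        have h1 := card_union_le G1 (univ.biUnion G2)
        have h2 : (univ.biUnion G2).card ≤ ∑ i, (G2 i).card := card_biUnion_le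
        exact_mod_cast h1.trans (Nat.add_le_add_left h2 _)
    _ ≤ _ := by
        refine add_le_add hc1 ((sum_le_sum fun i _ => hc2 i).trans (le_of_eq ?_))
        rw [sum_const, card_univ, Fintype.card_fin, nsmul_eq_mul]

end Pool.Agent.Q38.NG
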