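import Pool.Agent.Q38.NG.Part
import Mathlib.NumberTheory.EulerProduct.Basic

/-! The number of integers composed of the primes of a given integer. -/

set_option autoImplicit false

namespace Pool.Agent.Q38.NG

open Finset
open Pool.Agent.H328R2.ABC (rad sum_inv_rad)
open Pool.Agent.Q38.NC

/-- the completely multiplicative function `n ^ (-δ)` -/
noncomputable def fd (δ : ℝ) : ℕ →* ℝ where
  toFun n := (n : ℝ) ^ (-δ)
  map_one' := by simp
  map_mul' m n := by
    push_cast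
    exact Real.mul_rpow (Nat.cast_nonneg _) (Nat.cast_nonneg _)

theorem card_Sm_le (δ : ℝ) (hδ : 0 < δ) (K H : ℕ) (hK : K ≠ 0) :
    ((Sm K H).card : ℝ) ≤ (H : ℝ) ^ δ * ∏ p ∈ K.primeFactors, (1 - (p : ℝ) ^ (-δ))⁻¹ := by
  classical
  have hlt : ∀ {p : ℕ}, p.Prime → ‖fd δ p‖ < 1 := by
    intro p hp
    have hp1 : (1 : ℝ) < p := by exact_mod_cast hp.one_lt
    show ‖(p : ℝ) ^ (-δ)‖ < 1
    rw [Real.norm_of_nonneg (by positivity)]
    exact Real.rpow_lt_one_of_one_lt_of_neg hp1 (by linarith)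
  have h1 := (EulerProduct.summable_and_hasSum_factoredNumbers_prod_filter_prime_geometric
    (f := fd δ) hlt K.primeFactors).2
  have h2 : K.primeFactors.filter (fun p => p.Prime) = K.primeFactors :=
    filter_true_of_mem fun p hp => Nat.prime_of_mem_primeFactors hp
  rw [h2] at h1
  have hmem : ∀ v ∈ Sm K H, v ∈ Nat.factoredNumbers K.primeFactors := by
    intro v hv
    obtain ⟨⟨h3, -⟩, h4⟩ := mem_Sm.1 hv
    rw [Nat.mem_factoredNumbers']
    intro p hp hpv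
    exact Nat.mem_primeFactors.2 ⟨hp, h4 p hp hpv, hK⟩
  have h5 : ∑ v ∈ (Sm K H).attach, fd δ v.1 ≤
      ∏ p ∈ K.primeFactors, (1 - fd δ p)⁻¹ := by
    have h6 : ∑ v ∈ (Sm K H).attach, fd δ v.1 =
        ∑ v ∈ (Sm K H).attach.map ⟨fun v => (⟨v.1, hmem v.1 v.2⟩ :
          {m // m ∈ Nat.factoredNumbers K.primeFactors}), by
            intro a b hab
            exact Subtype.ext (congrArg (fun t => t.1) hab)⟩, fd δ v.1 := by
      rw [sum_map]
      rfl
    rw [h6]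
    exact sum_le_hasSum _ (fun v _ => by
      show 0 ≤ ((v.1 : ℕ) : ℝ) ^ (-δ)
      positivity) h1
  have h7 : ((Sm K H).card : ℝ) ≤ (H : ℝ) ^ δ * ∑ v ∈ (Sm K H).attach, fd δ v.1 := by
    rw [mul_sum]
    calc ((Sm K H).card : ℝ) = ∑ v ∈ (Sm K H).attach, (1 : ℝ) := by
          rw [sum_const, card_attach, nsmul_eq_mul, mul_one]
      _ ≤ _ := by
          refine sum_le_sum fun v _ => ?_
          obtain ⟨⟨h3, h3'⟩, -⟩ := mem_Sm.1 v.2
          show (1 : ℝ) ≤ (H : ℝ) ^ δ * ((v.1 : ℕ) : ℝ) ^ (-δ)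
          have hv0 : (0 : ℝ) < (v.1 : ℕ) := by exact_mod_cast h3
          rw [Real.rpow_neg hv0.le, ← div_eq_mul_inv, le_div_iff₀ (by positivity), one_mul]
          exact Real.rpow_le_rpow hv0.le (by exact_mod_cast h3') hδ.le
  refine h7.trans (mul_le_mul_of_nonneg_left ?_ (by positivity))
  exact h5

theorem Sm_le (A : ℕ) (δ : ℝ) (hδ : 0 < δ) : ∃ C : ℝ, 1 ≤ C ∧ ∀ H : ℕ, 1 ≤ H →
    ∀ K : ℕ, K ≠ 0 → K ≤ A * H ^ A → ((Sm K H).card : ℝ) ≤ C * (H : ℝ) ^ δ := by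
  obtain ⟨δ', hδ'⟩ : ∃ δ' : ℝ, δ' = δ / 2 := ⟨_, rfl⟩
  have hδ'0 : 0 < δ' := by rw [hδ']; positivity
  obtain ⟨η, hη⟩ : ∃ η : ℝ, η = δ / (2 * (A + 1)) := ⟨_, rfl⟩
  have hη0 : 0 < η := by rw [hη]; positivity
  have h2 : (2 : ℝ) ^ (-δ') < 1 :=
    Real.rpow_lt_one_of_one_lt_of_neg (by norm_num) (by linarith)
  have h2' : (0 : ℝ) < (2 : ℝ) ^ (-δ') := by positivity
  obtain ⟨c, hc⟩ : ∃ c : ℝ, c = (1 - (2 : ℝ) ^ (-δ'))⁻¹ := ⟨_, rfl⟩
  have hc1 : 1 ≤ c := by
    rw [hc]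
    exact (one_le_inv₀ (by linarith)).2 (by linarith)
  obtain ⟨N0, hN0⟩ : ∃ N0 : ℕ, c ^ (1 / η) ≤ N0 := exists_nat_ge _
  have hloc : ∀ p : ℕ, p.Prime → (1 - (p : ℝ) ^ (-δ'))⁻¹ ≤
      (if p < N0 then c else 1) * (p : ℝ) ^ η := by
    intro p hp
    have hp1 : (1 : ℝ) < p := by exact_mod_cast hp.one_lt
    have hp2 : (2 : ℝ) ≤ p := by exact_mod_cast hp.two_le
    have h3 : (p : ℝ) ^ (-δ') ≤ (2 : ℝ) ^ (-δ') :=
      Real.rpow_le_rpow_of_nonpos (by norm_num) hp2 (by linarith)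
    have h4 : (1 - (p : ℝ) ^ (-δ'))⁻¹ ≤ c := by
      rw [hc]
      exact inv_anti₀ (by linarith) (by linarith)
    have h5 : (1 : ℝ) ≤ (p : ℝ) ^ η := Real.one_le_rpow hp1.le hη0.le
    split_ifs with h
    · calc (1 - (p : ℝ) ^ (-δ'))⁻¹ ≤ c := h4
        _ ≤ c * (p : ℝ) ^ η := le_mul_of_one_le_right (by linarith) h5
    · rw [one_mul]
      refine h4.trans ?_
      have h6 : c ^ (1 / η) ≤ p := hN0.trans (by exact_mod_cast not_lt.1 h)
      calc c = (c ^ (1 / η)) ^ η := by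
            rw [← Real.rpow_mul (by linarith), one_div, inv_mul_cancel₀ hη0.ne', Real.rpow_one]
        _ ≤ (p : ℝ) ^ η := Real.rpow_le_rpow (by positivity) h6 hη0.le
  refine ⟨c ^ N0 * ((A : ℝ) + 1) ^ η, ?_, fun H hH K hK hKH => ?_⟩
  · have h3 : 1 ≤ c ^ N0 := one_le_pow₀ hc1
    have h4 : 1 ≤ ((A : ℝ) + 1) ^ η :=
      Real.one_le_rpow (by linarith [show (0 : ℝ) ≤ A from Nat.cast_nonneg _]) hη0.le
    exact one_le_mul_of_one_le_of_one_le h3 h4
  have hH0 : (0 : ℝ) < H := by exact_mod_cast hH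
  have hA0 : (0 : ℝ) ≤ A := Nat.cast_nonneg _
  refine (card_Sm_le δ' hδ'0 K H hK).trans ?_
  have h8 : ∏ p ∈ K.primeFactors, (1 - (p : ℝ) ^ (-δ'))⁻¹ ≤
      c ^ N0 * (K : ℝ) ^ η := by
    calc ∏ p ∈ K.primeFactors, (1 - (p : ℝ) ^ (-δ'))⁻¹ ≤
          ∏ p ∈ K.primeFactors, ((if p < N0 then c else 1) * (p : ℝ) ^ η) := by
          refine prod_le_prod (fun p hp => ?_) fun p hp =>
            hloc p (Nat.prime_of_mem_primeFactors hp)
          have hp := Nat.prime_of_mem_primeFactors hp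
          have hp1 : (1 : ℝ) < p := by exact_mod_cast hp.one_lt
          have := Real.rpow_lt_one_of_one_lt_of_neg hp1 (show -δ' < 0 by linarith)
          exact inv_nonneg.2 (by linarith)
      _ = (∏ p ∈ K.primeFactors, (if p < N0 then c else 1)) *
            ∏ p ∈ K.primeFactors, (p : ℝ) ^ η := prod_mul_distrib
      _ ≤ c ^ N0 * (K : ℝ) ^ η := by
          refine mul_le_mul ?_ ?_ (prod_nonneg fun _ _ => by positivity) (by positivity)
          · rw [prod_ite, prod_const_one, mul_one, prod_const]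
            refine pow_le_pow_right₀ hc1 ?_
            calc (K.primeFactors.filter fun p => p < N0).card ≤ (range N0).card := by
                  refine card_le_card fun p hp => ?_
                  rw [mem_filter] at hp
                  exact mem_range.2 hp.2
              _ = N0 := card_range _
          · rw [Real.finsetProd_rpow _ _ fun _ _ => Nat.cast_nonneg _]
            refine Real.rpow_le_rpow (prod_nonneg fun _ _ => Nat.cast_nonneg _) ?_ hη0.le
            have h20 : rad K ≤ K := rad_le hK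
            have h21 : ((∏ p ∈ K.primeFactors, p : ℕ) : ℝ) ≤ K := by
              exact_mod_cast h20
            rw [Nat.cast_prod] at h21
            exact h21
  have h9 : (K : ℝ) ^ η ≤ ((A : ℝ) + 1) ^ η * (H : ℝ) ^ (A * η) := by
    have h10 : (K : ℝ) ≤ ((A : ℝ) + 1) * (H : ℝ) ^ A := by
      have : (K : ℝ) ≤ A * (H : ℝ) ^ A := by exact_mod_cast hKH
      have h11 : (0 : ℝ) ≤ (H : ℝ) ^ A := by positivity
      linarith
    calc (K : ℝ) ^ η ≤ (((A : ℝ) + 1) * (H : ℝ) ^ A) ^ η :=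
          Real.rpow_le_rpow (Nat.cast_nonneg _) h10 hη0.le
      _ = _ := by
          rw [Real.mul_rpow (by positivity) (by positivity), ← Real.rpow_natCast,
            ← Real.rpow_mul hH0.le]
  have h12 : (A : ℝ) * η ≤ δ / 2 := by
    rw [hη, mul_div_assoc', div_le_div_iff₀ (by positivity) (by norm_num)]
    nlinarith
  have hH1 : (1 : ℝ) ≤ H := by exact_mod_cast hH
  calc (H : ℝ) ^ δ' * ∏ p ∈ K.primeFactors, (1 - (p : ℝ) ^ (-δ'))⁻¹ ≤
        (H : ℝ) ^ δ' * (c ^ N0 * (((A : ℝ) + 1) ^ η * (H : ℝ) ^ (δ / 2))) := by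
        refine mul_le_mul_of_nonneg_left (h8.trans (mul_le_mul_of_nonneg_left (h9.trans ?_)
          (by positivity))) (by positivity)
        exact mul_le_mul_of_nonneg_left (Real.rpow_le_rpow_of_exponent_le hH1 h12) (by positivity)
    _ = c ^ N0 * ((A : ℝ) + 1) ^ η * ((H : ℝ) ^ δ' * (H : ℝ) ^ (δ / 2)) := by ring
    _ = _ := by
        rw [← Real.rpow_add hH0, hδ']
        congr 2
        ring

end Pool.Agent.Q38.NG
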