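import Pool.Agent.Q38.NG.Block
import Pool.Agent.Q38.NG.Smooth

/-! The bound for tuples of a given order of magnitude. -/

set_option autoImplicit false

namespace Pool.Agent.Q38.NG

open Finset
open Pool.Agent.H328R2.ABC (rad sum_inv_rad)
open Pool.Agent.Q38.NC

variable {m : ℕ}

theorem block_cells (hm : 2 ≤ m) {H L : ℕ} {R : ℝ} (hH : 1 ≤ H) (hR : 0 ≤ R)
    (hL : ∀ K : ℕ, K ≠ 0 → K ≤ (m + 2) * H ^ (m + 2) → (Sm K H).card ≤ L)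
    (G : Finset (Fin (m + 2) → ℤ)) (hG : ∀ x ∈ G, AdG x ∧ (∀ i, (x i).natAbs ≤ H) ∧
      (∃ i, H ≤ 2 * (x i).natAbs) ∧ (RX x : ℝ) ≤ R) :
    (G.card : ℝ) ≤ ((m : ℝ) + 2) ^ 5 * (Nat.log 2 H + 1) *
      ((L * S1 H) ^ 2 * (L * (H : ℝ) ^ m * SS H ^ m +
      4 * (2 * (m + 2) : ℕ) * R / H * (2 * L ^ 2 * S1 H ^ 3) ^ m) +
      m * (9 * L * S1 H * SS H ^ m * (H : ℝ) ^ m)) := by
  classical
  have hS1 := S1_nonneg H
  have hSS : 0 ≤ SS H := sum_nonneg fun _ _ => by positivity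
  obtain ⟨B, hB⟩ : ∃ B : ℝ, B = (L * S1 H) ^ 2 * (L * (H : ℝ) ^ m * SS H ^ m +
      4 * (2 * (m + 2) : ℕ) * R / H * (2 * L ^ 2 * S1 H ^ 3) ^ m) +
      m * (9 * L * S1 H * SS H ^ m * (H : ℝ) ^ m) := ⟨_, rfl⟩
  have hB0 : 0 ≤ B := by rw [hB]; positivity
  rw [← hB]
  have hex : ∀ x : Fin (m + 2) → ℤ, ∃ t : (Fin (m + 2) × Fin (m + 2) × Fin (m + 2) ×
      Fin (m + 2) × Fin (m + 2)) × ℕ, x ∈ G →
      (t.2 ≤ Nat.log 2 H ∧
      (t.1.1 ≠ t.1.2.1 ∧ t.1.1 ≠ t.1.2.2.1 ∧ t.1.1 ≠ t.1.2.2.2.1 ∧ t.1.2.1 ≠ t.1.2.2.1 ∧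
        t.1.2.1 ≠ t.1.2.2.2.1 ∧ t.1.2.2.1 ≠ t.1.2.2.2.1) ∧
      H ≤ 2 * (m + 2) * (x t.1.2.2.1).natAbs ∧ 2 ^ t.2 ≤ (x t.1.2.1).natAbs ∧
      (x t.1.2.1).natAbs ≤ 2 * 2 ^ t.2 ∧
      rad (x t.1.1).natAbs ≤ rad (x t.1.2.2.1).natAbs ∧
      rad (x t.1.2.2.2.1).natAbs ≤ rad (x t.1.2.1).natAbs ∧
      t.1.2.2.2.2 ≠ t.1.2.1 ∧ t.1.2.2.2.2 ≠ t.1.2.2.1 ∧
      ∀ i, i ≠ t.1.2.1 → i ≠ t.1.2.2.1 → rad (x t.1.2.2.2.2).natAbs ≤ rad (x i).natAbs) := by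
    intro x
    by_cases hx : x ∈ G
    · obtain ⟨h1, h2, h3, h4⟩ := hG x hx
      obtain ⟨a, b, c, e, j, k1, k2, k3, k4, k5, k6, k7⟩ :=
        choose_idx' (n := m + 2) (by omega) hH h1.sum h3
      have hb := Int.natAbs_ne_zero.2 (h1.ne b)
      refine ⟨((a, b, c, e, j), Nat.log 2 (x b).natAbs), fun _ => ⟨by
        show Nat.log 2 _ ≤ _
        exact Nat.log_mono_right (h2 b), k1, k2,
        Nat.pow_log_le_self 2 hb, ?_, k3, k4, k5, k6, k7⟩⟩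
      have := Nat.lt_pow_succ_log_self (b := 2) (by norm_num) (x b).natAbs
      rw [pow_succ] at this
      show (x b).natAbs ≤ 2 * 2 ^ Nat.log 2 (x b).natAbs
      omega
    · exact ⟨((0, 0, 0, 0, 0), 0), fun h => absurd h hx⟩
  choose f hf using hex
  have hmaps : ∀ x ∈ G, f x ∈ (univ : Finset (Fin (m + 2) × Fin (m + 2) × Fin (m + 2) ×
      Fin (m + 2) × Fin (m + 2))) ×ˢ range (Nat.log 2 H + 1) := by
    intro x hx
    rw [mem_product, mem_range]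
    exact ⟨mem_univ _, by have := (hf x hx).1; omega⟩
  refine (card_le_sum G f _ (fun _ => B) hmaps ?_).trans ?_
  · intro t ht
    rcases (G.filter fun x => f x = t).eq_empty_or_nonempty with h0 | ⟨x₀, hx₀⟩
    · rw [h0, card_empty, Nat.cast_zero]
      exact hB0
    · rw [mem_filter] at hx₀
      obtain ⟨-, d1, -, -, -, -, -, d2, d3, -⟩ := hf x₀ hx₀.1
      rw [hx₀.2] at d1 d2 d3
      rw [hB]
      refine cell_count hm hH (J := 2 ^ t.2) Nat.one_le_two_pow hR hL d1 d2 d3 _ ?_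
      intro x hx
      rw [mem_filter] at hx
      obtain ⟨g1, g2, g3, g4⟩ := hG x hx.1
      obtain ⟨-, -, m1, m2, m3, m4, m5, -, -, m6⟩ := hf x hx.1
      rw [hx.2] at m1 m2 m3 m4 m5 m6
      exact ⟨g1, g2, g4, m2, m3, m1, m4, m5, m6⟩
  · rw [sum_const, card_product, card_univ, card_range, nsmul_eq_mul]
    refine le_of_eq ?_
    simp only [Fintype.card_prod, Fintype.card_fin]
    push_cast
    ring

/-- **The upper bound for tuples of a given order of magnitude.** -/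
theorem block_le (hm : 2 ≤ m) (δ : ℝ) (hδ : 0 < δ) : ∃ C : ℝ, 1 ≤ C ∧ ∀ H : ℕ, 1 ≤ H →
    ∀ R : ℝ, 0 ≤ R → ∀ G : Finset (Fin (m + 2) → ℤ), (∀ x ∈ G, AdG x ∧
      (∀ i, (x i).natAbs ≤ H) ∧ (∃ i, H ≤ 2 * (x i).natAbs) ∧ (RX x : ℝ) ≤ R) →
    (G.card : ℝ) ≤ C * (H : ℝ) ^ δ * ((H : ℝ) ^ m + R / H) := by
  have hm0 : (0 : ℝ) ≤ m := Nat.cast_nonneg _
  obtain ⟨δ', hδ'⟩ : ∃ δ' : ℝ, δ' = δ / (5 * m + 6) := ⟨_, rfl⟩
  have hδ'0 : 0 < δ' := by rw [hδ']; positivity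
  obtain ⟨C1, hC1, h1⟩ := SS_le δ' hδ'0
  obtain ⟨C2, hC2, h2⟩ := log_le δ' hδ'0
  obtain ⟨C3, hC3, h3⟩ := Sm_le (m + 2) δ' hδ'0
  obtain ⟨C4, hC4, h4⟩ := sum_inv_rad δ' hδ'0
  obtain ⟨C, hC⟩ : ∃ C : ℝ, C = C1 + C2 + C3 + C4 := ⟨_, rfl⟩
  have hCone : 1 ≤ C := by rw [hC]; linarith
  refine ⟨((m : ℝ) + 2) ^ 5 * C ^ (5 * m + 6) * (1 + 8 * (m + 2) * 2 ^ m + 9 * m), ?_,
    fun H hH R hR G hG => ?_⟩
  · have e1 : 1 ≤ ((m : ℝ) + 2) ^ 5 := one_le_pow₀ (by linarith)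
    have e2 : 1 ≤ C ^ (5 * m + 6) := one_le_pow₀ hCone
    have e3 : 1 ≤ (1 + 8 * ((m : ℝ) + 2) * 2 ^ m + 9 * m) := by
      have : 0 ≤ 8 * ((m : ℝ) + 2) * 2 ^ m := by positivity
      linarith
    exact one_le_mul_of_one_le_of_one_le (one_le_mul_of_one_le_of_one_le e1 e2) e3
  have hH0 : (0 : ℝ) < H := by exact_mod_cast hH
  have hH1 : (1 : ℝ) ≤ H := by exact_mod_cast hH
  obtain ⟨E, hE⟩ : ∃ E : ℝ, E = C * (H : ℝ) ^ δ' := ⟨_, rfl⟩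
  have hHδ : 1 ≤ (H : ℝ) ^ δ' := Real.one_le_rpow hH1 hδ'0.le
  have hE1 : 1 ≤ E := by
    rw [hE]
    exact one_le_mul_of_one_le_of_one_le hCone hHδ
  have hle : ∀ c : ℝ, c ≤ C → c * (H : ℝ) ^ δ' ≤ E := fun c hc => by
    rw [hE]
    exact mul_le_mul_of_nonneg_right hc (by linarith)
  obtain ⟨L, hL⟩ : ∃ L : ℕ, L = ⌊C3 * (H : ℝ) ^ δ'⌋₊ := ⟨_, rfl⟩
  have hLE : (L : ℝ) ≤ E := by
    rw [hL]
    refine (Nat.floor_le (by positivity)).trans (hle C3 ?_)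
    rw [hC]
    linarith
  have hS1E : S1 H ≤ E := (h4 H hH).trans (hle C4 (by rw [hC]; linarith))
  have hSSE : SS H ≤ E := (h1 H hH).trans (hle C1 (by rw [hC]; linarith))
  have hlogE : (Nat.log 2 H : ℝ) + 1 ≤ E := (h2 H hH).trans (hle C2 (by rw [hC]; linarith))
  have hcells := block_cells hm hH hR (L := L) (by
    intro K hK hK2
    rw [hL]
    exact Nat.le_floor (h3 H hH K hK (by exact_mod_cast hK2))) G hG
  refine hcells.trans ?_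
  have hS1 := S1_nonneg H
  have hSS : 0 ≤ SS H := sum_nonneg fun _ _ => by positivity
  have hL0 : (0 : ℝ) ≤ L := Nat.cast_nonneg _
  have hE0 : 0 ≤ E := by linarith
  obtain ⟨Y, hY⟩ : ∃ Y : ℝ, Y = (H : ℝ) ^ m + R / H := ⟨_, rfl⟩
  have hRH : 0 ≤ R / H := by positivity
  have hY1 : (H : ℝ) ^ m ≤ Y := by rw [hY]; linarith
  have hY2 : R / H ≤ Y := by
    rw [hY]
    linarith [show 0 ≤ (H : ℝ) ^ m by positivity]
  have hY0 : 0 ≤ Y := by rw [hY]; positivity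
  rw [← hY]
  have hpow : ∀ k : ℕ, k ≤ 5 * m + 5 → E ^ k ≤ E ^ (5 * m + 5) :=
    fun k hk => pow_le_pow_right₀ hE1 hk
  have t1 : (L * S1 H) ^ 2 * (L * (H : ℝ) ^ m * SS H ^ m) ≤ E ^ (5 * m + 5) * Y := by
    calc (L * S1 H) ^ 2 * (L * (H : ℝ) ^ m * SS H ^ m) ≤ (E * E) ^ 2 * (E * Y * E ^ m) := by
          gcongr
      _ = E ^ (m + 5) * Y := by ring
      _ ≤ E ^ (5 * m + 5) * Y := mul_le_mul_of_nonneg_right (hpow _ (by omega)) hY0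
  have t2 : (L * S1 H) ^ 2 * (4 * (2 * (m + 2) : ℕ) * R / H * (2 * L ^ 2 * S1 H ^ 3) ^ m) ≤
      8 * (m + 2) * 2 ^ m * (E ^ (5 * m + 5) * Y) := by
    have e1 : 4 * ((2 * (m + 2) : ℕ) : ℝ) * R / H = 8 * ((m : ℝ) + 2) * (R / H) := by
      push_cast
      ring
    rw [e1]
    calc (L * S1 H) ^ 2 * (8 * ((m : ℝ) + 2) * (R / H) * (2 * L ^ 2 * S1 H ^ 3) ^ m) ≤
          (E * E) ^ 2 * (8 * ((m : ℝ) + 2) * Y * (2 * E ^ 2 * E ^ 3) ^ m) := by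
          gcongr
      _ = 8 * (m + 2) * 2 ^ m * (E ^ (5 * m + 4) * Y) := by
          rw [show 2 * E ^ 2 * E ^ 3 = 2 * E ^ 5 by ring, mul_pow 2, ← pow_mul]
          ring
      _ ≤ 8 * (m + 2) * 2 ^ m * (E ^ (5 * m + 5) * Y) :=
          mul_le_mul_of_nonneg_left (mul_le_mul_of_nonneg_right (hpow _ (by omega)) hY0)
            (by positivity)
  have t3 : (m : ℝ) * (9 * L * S1 H * SS H ^ m * (H : ℝ) ^ m) ≤ 9 * m * (E ^ (5 * m + 5) * Y) := by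
    calc (m : ℝ) * (9 * L * S1 H * SS H ^ m * (H : ℝ) ^ m) ≤
          m * (9 * E * E * E ^ m * Y) := by
          gcongr
      _ = 9 * m * (E ^ (m + 2) * Y) := by ring
      _ ≤ 9 * m * (E ^ (5 * m + 5) * Y) :=
          mul_le_mul_of_nonneg_left (mul_le_mul_of_nonneg_right (hpow _ (by omega)) hY0)
            (by positivity)
  have hlog0 : (0 : ℝ) ≤ (Nat.log 2 H : ℝ) + 1 := by positivity
  have hEY : 0 ≤ E ^ (5 * m + 5) * Y := by positivity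
  calc ((m : ℝ) + 2) ^ 5 * (Nat.log 2 H + 1) * ((L * S1 H) ^ 2 * (L * (H : ℝ) ^ m * SS H ^ m +
        4 * (2 * (m + 2) : ℕ) * R / H * (2 * L ^ 2 * S1 H ^ 3) ^ m) +
        m * (9 * L * S1 H * SS H ^ m * (H : ℝ) ^ m)) ≤
        ((m : ℝ) + 2) ^ 5 * E * ((1 + 8 * (m + 2) * 2 ^ m + 9 * m) * (E ^ (5 * m + 5) * Y)) := by
        refine mul_le_mul (mul_le_mul_of_nonneg_left hlogE (by positivity)) ?_ (by positivity)
          (by positivity)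
        rw [mul_add]
        linarith
    _ = ((m : ℝ) + 2) ^ 5 * (1 + 8 * (m + 2) * 2 ^ m + 9 * m) * E ^ (5 * m + 6) * Y := by ring
    _ = ((m : ℝ) + 2) ^ 5 * C ^ (5 * m + 6) * (1 + 8 * (m + 2) * 2 ^ m + 9 * m) *
          ((H : ℝ) ^ δ') ^ (5 * m + 6) * Y := by
        rw [hE, mul_pow]
        ring
    _ = _ := by
        congr 2
        rw [← Real.rpow_natCast, ← Real.rpow_mul hH0.le]
        congr 1
        rw [hδ']
        push_cast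
        field_simp

end Pool.Agent.Q38.NG
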