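import Pool.Agent.Q38.NG.Inner

/-! The chain of greatest common divisors and the main sum. -/

set_option autoImplicit false

namespace Pool.Agent.Q38.NG

open Finset
open Pool.Agent.H328R2.ABC (rad sum_inv_rad)
open Pool.Agent.Q38.NC

/-- one step of the chain, with the congruence -/
def St (S : ℤ) (P h : ℕ) (x : ℤ) (g : ℕ) : Prop := (g : ℤ) ∣ S + x ∧ Step P h x g

open Classical in
theorem inner (S : ℤ) {P h H L : ℕ} (hP : P ≠ 0) (hh : h ≠ 0)
    (hL : ∀ g ∈ Icc 1 H, (Sm (g * P) H).card ≤ L) (hL2 : (Sm (h * P) H).card ≤ L) :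
    ∑ x ∈ ZZ H, ∑ g ∈ Icc 1 H with St S P h x g,
      (g : ℝ) / (rad (x.natAbs * (g * P)) : ℝ) ≤
      2 * L ^ 2 * S1 H ^ 3 * (h / (rad (h * P) : ℝ)) := by
  have hS1 := S1_nonneg H
  have h1 : ∑ x ∈ ZZ H, ∑ g ∈ Icc 1 H with St S P h x g,
      (g : ℝ) / (rad (x.natAbs * (g * P)) : ℝ) =
      ∑ g ∈ Icc 1 H, ∑ x ∈ ZZ H with St S P h x g,
        (g : ℝ) / (rad (x.natAbs * (g * P)) : ℝ) := by
    simp only [sum_filter]
    rw [sum_comm]
  rw [h1]
  have h2 : ∀ g ∈ Icc 1 H, ∑ x ∈ ZZ H with St S P h x g,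
      (g : ℝ) / (rad (x.natAbs * (g * P)) : ℝ) ≤
      if h ∣ g then 2 * L * S1 H ^ 2 * (h / (rad (g * P) : ℝ)) else 0 := by
    intro g hg
    have hg' := hg
    rw [mem_Icc] at hg'
    split_ifs with hd
    · refine inner_g S hP (by omega) (hL g hg) _ ?_
      intro x hx
      rw [mem_filter] at hx
      obtain ⟨k1, k2⟩ := mem_ZZ.1 hx.1
      exact ⟨k1, k2, hx.2.1, hx.2.2⟩
    · refine le_of_eq (sum_eq_zero fun x hx => ?_)
      rw [mem_filter] at hx
      exact absurd (by rw [← hx.2.2.1]; exact Nat.gcd_dvd_left _ _) hd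
  refine (sum_le_sum h2).trans ?_
  rw [← sum_filter]
  have h3 : ∑ g ∈ Icc 1 H with h ∣ g, 2 * (L : ℝ) * S1 H ^ 2 * (h / (rad (g * P) : ℝ)) ≤
      ∑ t ∈ Icc 1 H, 2 * (L : ℝ) * S1 H ^ 2 * (h / (rad (t * (h * P)) : ℝ)) := by
    have hinj : Set.InjOn (fun t => h * t) (Icc 1 H : Finset ℕ) := fun t _ t' _ e =>
      Nat.eq_of_mul_eq_mul_left (Nat.pos_of_ne_zero hh) e
    have h4 : (Icc 1 H).filter (fun g => h ∣ g) ⊆ (Icc 1 H).image fun t => h * t := by
      intro g hg
      rw [mem_filter, mem_Icc] at hg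
      obtain ⟨⟨k1, k2⟩, t, rfl⟩ := hg
      refine mem_image.2 ⟨t, mem_Icc.2 ⟨?_, ?_⟩, rfl⟩
      · rcases Nat.eq_zero_or_pos t with h0 | h0
        · rw [h0, mul_zero] at k1
          omega
        · exact h0
      · exact (Nat.le_mul_of_pos_left t (Nat.pos_of_ne_zero hh)).trans k2
    refine (sum_le_sum_of_subset_of_nonneg h4 fun g _ _ => by positivity).trans ?_
    rw [sum_image hinj]
    refine le_of_eq (sum_congr rfl fun t _ => ?_)
    rw [show h * t * P = t * (h * P) by ring]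
  refine h3.trans ?_
  have h5 := sum_mult (H := H) (mul_ne_zero hh hP)
  have hL2' : ((Sm (h * P) H).card : ℝ) ≤ L := by exact_mod_cast hL2
  have hR := rad_pos' (h * P)
  calc ∑ t ∈ Icc 1 H, 2 * (L : ℝ) * S1 H ^ 2 * (h / (rad (t * (h * P)) : ℝ)) =
        2 * (L : ℝ) * S1 H ^ 2 * h * ∑ t ∈ Icc 1 H, 1 / (rad (t * (h * P)) : ℝ) := by
        rw [mul_sum]
        refine sum_congr rfl fun t _ => ?_
        ring
    _ ≤ 2 * (L : ℝ) * S1 H ^ 2 * h * (L * S1 H / (rad (h * P) : ℝ)) := by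
        refine mul_le_mul_of_nonneg_left (h5.trans ?_) (by positivity)
        gcongr
    _ = _ := by ring

/-- the product of the absolute values -/
def Pr {k : ℕ} (y : Fin k → ℤ) : ℕ := ∏ i, (y i).natAbs

theorem Pr_ne {k : ℕ} {y : Fin k → ℤ} (h : ∀ i, y i ≠ 0) : Pr y ≠ 0 :=
  prod_ne_zero_iff.2 fun i _ => Int.natAbs_ne_zero.2 (h i)

/-- the chain of good steps -/
def Gd : (k : ℕ) → (Fin k → ℤ) → ℕ → Prop
  | 0, _, g => g = 1
  | k + 1, y, g => Gd k (fun i => y i.castSucc) (Nat.gcd g (y (Fin.last k)).natAbs) ∧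
      (g : ℤ) ∣ ∑ i, y i ∧
      Step (Pr fun i : Fin k => y i.castSucc) (Nat.gcd g (y (Fin.last k)).natAbs)
        (y (Fin.last k)) g

theorem Pr_succ {k : ℕ} (y : Fin (k + 1) → ℤ) :
    Pr y = Pr (fun i : Fin k => y i.castSucc) * (y (Fin.last k)).natAbs := by
  unfold Pr
  rw [Fin.prod_univ_castSucc]

open Classical in
/-- **The main sum.** -/
theorem main_sum {H L : ℕ} : ∀ k : ℕ,
    (∀ K : ℕ, K ≠ 0 → K ≤ H ^ (k + 1) → (Sm K H).card ≤ L) →
    ∑ y ∈ Fintype.piFinset (fun _ : Fin k => ZZ H), ∑ g ∈ Icc 1 H with Gd k y g,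
      (g : ℝ) / (rad (g * Pr y) : ℝ) ≤ (2 * L ^ 2 * S1 H ^ 3) ^ k := by
  intro k
  induction k with
  | zero =>
    intro _
    rw [pow_zero]
    have h1 : (Fintype.piFinset (fun _ : Fin 0 => ZZ H)) ⊆ {fun i => i.elim0} := by
      intro y _
      rw [mem_singleton]
      exact Subsingleton.elim _ _
    refine (sum_le_sum_of_subset_of_nonneg h1 fun y _ _ => sum_nonneg fun _ _ => by
      positivity).trans ?_
    rw [sum_singleton]
    have h2 : (Icc 1 H).filter (fun g => Gd 0 (fun i : Fin 0 => i.elim0) g) ⊆ {1} := by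
      intro g hg
      rw [mem_filter] at hg
      exact mem_singleton.2 hg.2
    refine (sum_le_sum_of_subset_of_nonneg h2 fun y _ _ => by positivity).trans ?_
    rw [sum_singleton]
    have : rad (1 * Pr fun i : Fin 0 => (i.elim0 : ℤ)) = 1 := by
      simp [Pr, rad]
    rw [this]
    simp
  | succ k ih =>
    intro hL
    have hS1 := S1_nonneg H
    have hL' : ∀ K : ℕ, K ≠ 0 → K ≤ H ^ (k + 1) → (Sm K H).card ≤ L := by
      intro K hK hK2
      rcases Nat.eq_zero_or_pos H with h0 | h0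
      · rw [h0] at hK2
        exact absurd (Nat.le_zero.1 (by simpa using hK2)) hK
      · exact hL K hK (hK2.trans (Nat.pow_le_pow_right h0 (by omega)))
    have ih := ih hL'
    -- split off the last coordinate
    have h1 : ∑ y ∈ Fintype.piFinset (fun _ : Fin (k + 1) => ZZ H),
        ∑ g ∈ Icc 1 H with Gd (k + 1) y g, (g : ℝ) / (rad (g * Pr y) : ℝ) =
        ∑ z ∈ Fintype.piFinset (fun _ : Fin k => ZZ H) ×ˢ ZZ H,
          ∑ g ∈ Icc 1 H with Gd (k + 1) (Fin.snoc (α := fun _ => ℤ) z.1 z.2) g,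
            (g : ℝ) / (rad (g * Pr (Fin.snoc (α := fun _ => ℤ) z.1 z.2)) : ℝ) := by
      refine Finset.sum_nbij' (fun y => ((fun i => y i.castSucc), y (Fin.last k)))
        (fun z => Fin.snoc (α := fun _ => ℤ) z.1 z.2) ?_ ?_ ?_ ?_ ?_
      · intro y hy
        rw [Fintype.mem_piFinset] at hy
        rw [mem_product, Fintype.mem_piFinset]
        exact ⟨fun i => hy _, hy _⟩
      · intro z hz
        rw [mem_product, Fintype.mem_piFinset] at hz
        rw [Fintype.mem_piFinset]
        intro i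
        refine Fin.lastCases ?_ (fun j => ?_) i
        · rw [Fin.snoc_last]
          exact hz.2
        · rw [Fin.snoc_castSucc]
          exact hz.1 j
      · intro y _
        ext i
        refine Fin.lastCases ?_ (fun j => ?_) i
        · rw [Fin.snoc_last]
        · rw [Fin.snoc_castSucc]
      · intro z _
        simp only [Fin.snoc_castSucc, Fin.snoc_last]
      · intro y _
        have : (Fin.snoc (α := fun _ => ℤ) (fun i : Fin k => y i.castSucc) (y (Fin.last k))) =
            y := by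
          ext i
          refine Fin.lastCases ?_ (fun j => ?_) i
          · rw [Fin.snoc_last]
          · rw [Fin.snoc_castSucc]
        simp only [this]
    rw [h1, sum_product]
    -- compare with the chain
    have h2 : ∀ y ∈ Fintype.piFinset (fun _ : Fin k => ZZ H),
        ∑ x ∈ ZZ H, ∑ g ∈ Icc 1 H with Gd (k + 1) (Fin.snoc (α := fun _ => ℤ) y x) g,
            (g : ℝ) / (rad (g * Pr (Fin.snoc (α := fun _ => ℤ) y x)) : ℝ) ≤
        (2 * L ^ 2 * S1 H ^ 3) * ∑ h ∈ Icc 1 H with Gd k y h,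
          (h : ℝ) / (rad (h * Pr y) : ℝ) := by
      intro y hy
      rw [Fintype.mem_piFinset] at hy
      have hP : Pr y ≠ 0 := Pr_ne fun i => (mem_ZZ.1 (hy i)).1
      have hPle : Pr y ≤ H ^ k := by
        unfold Pr
        calc ∏ i, (y i).natAbs ≤ ∏ _i : Fin k, H := prod_le_prod' fun i _ => (mem_ZZ.1 (hy i)).2
          _ = H ^ k := by rw [prod_const, card_univ, Fintype.card_fin]
      have hKle : ∀ g ∈ Icc 1 H, (Sm (g * Pr y) H).card ≤ L := by
        intro g hg
        rw [mem_Icc] at hg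
        refine hL _ (mul_ne_zero (by omega) hP) ?_
        calc g * Pr y ≤ H * H ^ k := Nat.mul_le_mul hg.2 hPle
          _ = H ^ (k + 1) := by rw [pow_succ, mul_comm]
          _ ≤ H ^ (k + 1 + 1) := Nat.pow_le_pow_right (by omega) (by omega)
      have h3 : ∀ h ∈ (Icc 1 H).filter (fun h => Gd k y h),
          ∑ x ∈ ZZ H, ∑ g ∈ Icc 1 H with St (∑ i, y i) (Pr y) h x g,
            (g : ℝ) / (rad (x.natAbs * (g * Pr y)) : ℝ) ≤
          2 * L ^ 2 * S1 H ^ 3 * (h / (rad (h * Pr y) : ℝ)) := by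
        intro h hh
        rw [mem_filter] at hh
        have hh' := mem_Icc.1 hh.1
        exact inner _ hP (by omega) hKle (hKle h hh.1)
      rw [mul_sum]
      refine le_trans ?_ (sum_le_sum h3)
      simp only [sum_filter]
      have h4 : ∀ h : ℕ, (if Gd k y h then ∑ x ∈ ZZ H, ∑ g ∈ Icc 1 H,
          (if St (∑ i, y i) (Pr y) h x g then
            (g : ℝ) / (rad (x.natAbs * (g * Pr y)) : ℝ) else 0) else 0) =
          ∑ x ∈ ZZ H, ∑ g ∈ Icc 1 H, (if Gd k y h ∧ St (∑ i, y i) (Pr y) h x g then (g : ℝ) / (rad (x.natAbs * (g * Pr y)) : ℝ) else 0) := by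
        intro h
        by_cases hG : Gd k y h
        · simp only [hG, if_true, true_and]
        · simp only [hG, if_false, false_and, sum_const_zero]
      simp only [h4]
      rw [sum_comm (s := (Icc 1 H : Finset ℕ)) (t := ZZ H)]
      refine sum_le_sum fun x hx => ?_
      rw [sum_comm]
      refine sum_le_sum fun g hg => ?_
      obtain ⟨hx1, hx2⟩ := mem_ZZ.1 hx
      rw [mem_Icc] at hg
      by_cases hG : Gd (k + 1) (Fin.snoc (α := fun _ => ℤ) y x) g
      · rw [if_pos hG]
        unfold Gd at hG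
        simp only [Fin.snoc_castSucc, Fin.snoc_last] at hG
        obtain ⟨k1, k2, k3⟩ := hG
        have k2' : (g : ℤ) ∣ (∑ i, y i) + x := by
          rw [Fin.sum_univ_castSucc] at k2
          simpa only [Fin.snoc_castSucc, Fin.snoc_last] using k2
        have hmem : Nat.gcd g x.natAbs ∈ Icc 1 H := by
          rw [mem_Icc]
          exact ⟨Nat.gcd_pos_of_pos_left _ (by omega),
            (Nat.gcd_le_left _ (by omega)).trans hg.2⟩
        have h5 : ∀ h ∈ Icc 1 H, 0 ≤ (fun h => if Gd k y h ∧ St (∑ i, y i) (Pr y) h x g then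
            (g : ℝ) / (rad (x.natAbs * (g * Pr y)) : ℝ) else 0) h := by
          intro h _
          beta_reduce
          split_ifs
          · positivity
          · exact le_rfl
        refine le_trans ?_ (single_le_sum h5 hmem)
        rw [if_pos ⟨k1, k2', k3⟩, Pr_succ]
        simp only [Fin.snoc_castSucc, Fin.snoc_last]
        refine le_of_eq ?_
        congr 3
        ring
      · rw [if_neg hG]
        refine sum_nonneg fun h _ => ?_
        split_ifs
        · positivity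
        · exact le_rfl
    refine (sum_le_sum h2).trans ?_
    rw [← mul_sum, pow_succ' (2 * (L : ℝ) ^ 2 * S1 H ^ 3)]
    exact mul_le_mul_of_nonneg_left ih (by positivity)

end Pool.Agent.Q38.NG
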