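import Pool.Agent.Q38.NG.BlockLe
import Pool.Agent.Q38.NC.Low2

/-! The count of the tuples whose radical is at most a given power of the height. -/

set_option autoImplicit false

namespace Pool.Agent.Q38.NG

open Finset Filter Topology
open Pool.Agent.H328R2.ABC (rad sum_inv_rad)
open Pool.Agent.Q38.NC
open Pool.Agent.Q38.AE.Cov

theorem ht_pos' {n : ℕ} (hn : 0 < n) {x : Fin n → ℤ} (hx : AdG x) : 0 < ht x :=
  lt_of_lt_of_le (Int.natAbs_pos.2 (hx.ne ⟨0, hn⟩)) (le_ht x _)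

theorem block_le' {n : ℕ} (hn : 4 ≤ n) (δ : ℝ) (hδ : 0 < δ) : ∃ C : ℝ, 1 ≤ C ∧ ∀ H : ℕ, 1 ≤ H →
    ∀ R : ℝ, 0 ≤ R → ∀ G : Finset (Fin n → ℤ), (∀ x ∈ G, AdG x ∧ (∀ i, (x i).natAbs ≤ H) ∧
      (∃ i, H ≤ 2 * (x i).natAbs) ∧ (RX x : ℝ) ≤ R) →
    (G.card : ℝ) ≤ C * (H : ℝ) ^ δ * ((H : ℝ) ^ (n - 2) + R / H) := by
  obtain ⟨m, rfl⟩ : ∃ m, n = m + 2 := ⟨n - 2, by omega⟩
  obtain ⟨C, hC, h⟩ := block_le (m := m) (by omega) δ hδ
  exact ⟨C, hC, fun H hH R hR G hG => h H hH R hR G hG⟩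

/-- **The upper bound.** -/
theorem A_le {n : ℕ} (hn : 4 ≤ n) {P : (Fin n → ℤ) → Prop} (hP : ∀ x, P x → AdG x) {s : ℝ}
    (hs0 : 0 < s) (hs1 : s ≤ 1) (δ : ℝ) (hδ : 0 < δ) :
    ∃ C : ℝ, ∀ B : ℝ, 1 ≤ B → (A P lh lr s B).Finite ∧
      ((A P lh lr s B).ncard : ℝ) ≤ C * B ^ (max ((n : ℝ) - 2) (1 / s - 1) + δ) := by
  classical
  obtain ⟨C1, hC1, h1⟩ := block_le' hn (δ / 2) (by positivity)
  obtain ⟨g, hg⟩ : ∃ g : ℝ, g = max ((n : ℝ) - 2) (1 / s - 1) := ⟨_, rfl⟩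
  have hn2 : (2 : ℝ) ≤ (n : ℝ) - 2 := by
    have : (4 : ℝ) ≤ n := by exact_mod_cast hn
    linarith
  have hg1 : (n : ℝ) - 2 ≤ g := by rw [hg]; exact le_max_left _ _
  have hg2 : 1 / s - 1 ≤ g := by rw [hg]; exact le_max_right _ _
  have h1s : 1 ≤ 1 / s := by
    rw [le_div_iff₀ hs0]
    linarith
  rw [← hg]
  obtain ⟨e3, he3⟩ : ∃ e3 : ℝ, e3 = Real.exp 1 + 1 := ⟨_, rfl⟩
  have he30 : 0 < e3 := by rw [he3]; positivity
  refine ⟨(2 / (δ / 2) + 3) * (C1 * (2 : ℝ) ^ (δ / 2) * (e3 * 2 ^ g)), fun B hB => ?_⟩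
  have hB0 : 0 < B := by linarith
  refine fin_real _ _ fun G hG => ?_
  have hn0 : 0 < n := by omega
  -- the fibres of the logarithm of the height
  have hfib : ∀ k : ℕ, ((G.filter fun x => Nat.log 2 (ht x) = k).card : ℝ) ≤
      C1 * (2 : ℝ) ^ (δ / 2) * (e3 * 2 ^ g) * B ^ (g + δ / 2) := by
    intro k
    rcases (G.filter fun x => Nat.log 2 (ht x) = k).eq_empty_or_nonempty with h0 | ⟨x₀, hx₀⟩
    · rw [h0, card_empty, Nat.cast_zero]
      positivity
    · rw [mem_filter] at hx₀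
      have hk2B : ((2 ^ (k + 1) : ℕ) : ℝ) ≤ 2 * B := by
        obtain ⟨k1, k2, -⟩ := hG hx₀.1
        have hpos := ht_pos' hn0 (hP _ k1)
        unfold lh at k2
        rw [Real.exp_log (by exact_mod_cast hpos)] at k2
        have h3 := Nat.pow_log_le_self 2 hpos.ne'
        rw [hx₀.2] at h3
        have h4 : ((2 ^ k : ℕ) : ℝ) ≤ (ht x₀ : ℝ) := by exact_mod_cast h3
        rw [pow_succ]
        push_cast at h4 ⊢
        linarith
      obtain ⟨H, hH⟩ : ∃ H : ℕ, H = 2 ^ (k + 1) := ⟨_, rfl⟩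
      have hH1 : 1 ≤ H := by rw [hH]; exact Nat.one_le_two_pow
      have hH0 : (0 : ℝ) < H := by exact_mod_cast hH1
      have hH1' : (1 : ℝ) ≤ H := by exact_mod_cast hH1
      rw [← hH] at hk2B
      have h5 := h1 H hH1 (Real.exp 1 * (H : ℝ) ^ (1 / s)) (by positivity)
        (G.filter fun x => Nat.log 2 (ht x) = k) (by
          intro x hx
          rw [mem_filter] at hx
          obtain ⟨k1, k2, k3⟩ := hG hx.1
          have hA := hP _ k1
          have hpos := ht_pos' hn0 hA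
          have hlt : ht x < H := by
            rw [hH, ← hx.2]
            exact Nat.lt_pow_succ_log_self (by norm_num) _
          refine ⟨hA, fun i => (le_ht x i).trans hlt.le, ?_, ?_⟩
          · obtain ⟨i, hi⟩ := exists_ht hn0 x
            refine ⟨i, ?_⟩
            rw [hi, hH, pow_succ, mul_comm]
            refine Nat.mul_le_mul_left _ ?_
            rw [← hx.2]
            exact Nat.pow_log_le_self 2 hpos.ne'
          · have hR0 : (0 : ℝ) < RX x := by exact_mod_cast RX_pos x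
            have hht0 : (0 : ℝ) < ht x := by exact_mod_cast hpos
            unfold lr lh at k3
            rw [← Real.log_rpow hht0, Real.log_lt_iff_lt_exp hR0, Real.exp_add,
              Real.exp_log (by positivity)] at k3
            refine k3.le.trans ?_
            rw [mul_comm]
            refine mul_le_mul_of_nonneg_left ?_ (Real.exp_pos _).le
            exact Real.rpow_le_rpow hht0.le (by exact_mod_cast hlt.le) (by positivity))
      refine h5.trans ?_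
      have e1 : (H : ℝ) ^ (δ / 2) ≤ (2 : ℝ) ^ (δ / 2) * B ^ (δ / 2) := by
        rw [← Real.mul_rpow (by norm_num) hB0.le]
        exact Real.rpow_le_rpow hH0.le hk2B (by positivity)
      have e2 : (H : ℝ) ^ g ≤ 2 ^ g * B ^ g := by
        rw [← Real.mul_rpow (by norm_num) hB0.le]
        exact Real.rpow_le_rpow hH0.le hk2B (by linarith)
      have e4 : (H : ℝ) ^ (n - 2) ≤ (H : ℝ) ^ g := by
        rw [← Real.rpow_natCast]
        refine Real.rpow_le_rpow_of_exponent_le hH1' ?_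
        rw [Nat.cast_sub (by omega)]
        push_cast
        exact hg1
      have e5 : Real.exp 1 * (H : ℝ) ^ (1 / s) / H ≤ Real.exp 1 * (H : ℝ) ^ g := by
        have : (H : ℝ) ^ (1 / s) / H = (H : ℝ) ^ (1 / s - 1) := by
          rw [Real.rpow_sub_one hH0.ne']
        rw [mul_div_assoc, this]
        exact mul_le_mul_of_nonneg_left (Real.rpow_le_rpow_of_exponent_le hH1' hg2)
          (Real.exp_pos _).le
      calc C1 * (H : ℝ) ^ (δ / 2) * ((H : ℝ) ^ (n - 2) + Real.exp 1 * (H : ℝ) ^ (1 / s) / H) ≤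
            C1 * ((2 : ℝ) ^ (δ / 2) * B ^ (δ / 2)) * (e3 * (2 ^ g * B ^ g)) := by
            refine mul_le_mul (mul_le_mul_of_nonneg_left e1 (by linarith)) ?_ (by positivity)
              (by positivity)
            calc (H : ℝ) ^ (n - 2) + Real.exp 1 * (H : ℝ) ^ (1 / s) / H ≤
                  (H : ℝ) ^ g + Real.exp 1 * (H : ℝ) ^ g := add_le_add e4 e5
              _ = e3 * (H : ℝ) ^ g := by rw [he3]; ring
              _ ≤ e3 * (2 ^ g * B ^ g) := mul_le_mul_of_nonneg_left e2 he30.le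
        _ = C1 * (2 : ℝ) ^ (δ / 2) * (e3 * 2 ^ g) * (B ^ g * B ^ (δ / 2)) := by ring
        _ = _ := by rw [← Real.rpow_add hB0]
  -- the number of fibres
  obtain ⟨K, hK⟩ : ∃ K : ℕ, K = Nat.log 2 ⌊B⌋₊ := ⟨_, rfl⟩
  have hfl : 1 ≤ ⌊B⌋₊ := by
    rw [Nat.one_le_floor_iff]
    exact hB
  have hmaps : ∀ x ∈ G, Nat.log 2 (ht x) ∈ range (K + 1) := by
    intro x hx
    obtain ⟨k1, k2, -⟩ := hG hx
    have hpos := ht_pos' hn0 (hP _ k1)
    unfold lh at k2
    rw [Real.exp_log (by exact_mod_cast hpos)] at k2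
    rw [mem_range, Nat.lt_succ_iff, hK]
    exact Nat.log_mono_right (Nat.le_floor k2)
  have hKle : (K : ℝ) + 1 ≤ (2 / (δ / 2) + 3) * B ^ (δ / 2) := by
    have h3 : (K : ℝ) * Real.log 2 ≤ Real.log B := by
      rw [← Real.log_pow]
      refine Real.log_le_log (by positivity) ?_
      have h4 := Nat.pow_log_le_self 2 (show ⌊B⌋₊ ≠ 0 by omega)
      rw [← hK] at h4
      calc (2 : ℝ) ^ K = ((2 ^ K : ℕ) : ℝ) := by push_cast; rfl
        _ ≤ (⌊B⌋₊ : ℝ) := by exact_mod_cast h4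
        _ ≤ B := Nat.floor_le hB0.le
    have h4 : Real.log B ≤ B ^ (δ / 2) / (δ / 2) := Real.log_le_rpow_div hB0.le (by positivity)
    have h5 := Real.log_two_gt_d9
    have h6 : (1 : ℝ) ≤ B ^ (δ / 2) := Real.one_le_rpow hB (by positivity)
    have h7 : (K : ℝ) ≤ 2 * (B ^ (δ / 2) / (δ / 2)) := by
      have h8 : (0 : ℝ) ≤ (K : ℝ) := Nat.cast_nonneg _
      nlinarith
    calc (K : ℝ) + 1 ≤ 2 * (B ^ (δ / 2) / (δ / 2)) + 3 * B ^ (δ / 2) := by linarith
      _ = (2 / (δ / 2) + 3) * B ^ (δ / 2) := by ring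
  rw [Finset.card_eq_sum_card_fiberwise (fun x hx => hmaps x hx)]
  push_cast
  refine (sum_le_sum fun k _ => hfib k).trans ?_
  rw [sum_const, card_range, nsmul_eq_mul]
  push_cast
  have h9 : 0 ≤ C1 * (2 : ℝ) ^ (δ / 2) * (e3 * 2 ^ g) * B ^ (g + δ / 2) := by positivity
  calc ((K : ℝ) + 1) * (C1 * (2 : ℝ) ^ (δ / 2) * (e3 * 2 ^ g) * B ^ (g + δ / 2)) ≤
        ((2 / (δ / 2) + 3) * B ^ (δ / 2)) *
          (C1 * (2 : ℝ) ^ (δ / 2) * (e3 * 2 ^ g) * B ^ (g + δ / 2)) :=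
        mul_le_mul_of_nonneg_right hKle h9
    _ = (2 / (δ / 2) + 3) * (C1 * (2 : ℝ) ^ (δ / 2) * (e3 * 2 ^ g)) *
          (B ^ (δ / 2) * B ^ (g + δ / 2)) := by ring
    _ = _ := by
        rw [← Real.rpow_add hB0]
        congr 2
        ring

end Pool.Agent.Q38.NG
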