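import Pool.Agent.Q38.NG.Cnt

/-! The exact exponents. -/

set_option autoImplicit false

namespace Pool.Agent.Q38.NG

open Finset Filter Topology
open Pool.Agent.Q38.AE.Cov
open Pool.Agent.Q38.NC (Adm NV lh lr ht RX ht_pos RX_pos low)

variable {n : ℕ} {P : (Fin n → ℤ) → Prop}

theorem lh_nonneg (hn : 0 < n) {x : Fin n → ℤ} (hx : AdG x) : 0 ≤ lh x :=
  Real.log_nonneg (by exact_mod_cast ht_pos' hn hx)

theorem inv_facts (hn : 4 ≤ n) {M : ℝ} (h1 : 1 / (n : ℝ) < M) (h2 : M < 1 / ((n : ℝ) - 1)) :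
    0 < M ∧ M < 1 ∧ 0 < (n : ℝ) - 1 / M ∧ (n : ℝ) - 1 / M < 1 := by
  have hn4 : (4 : ℝ) ≤ n := by exact_mod_cast hn
  have hn0 : (0 : ℝ) < n := by linarith
  have hn1 : (0 : ℝ) < (n : ℝ) - 1 := by linarith
  have hM0 : 0 < M := lt_trans (by positivity) h1
  rw [div_lt_iff₀ hn0] at h1
  rw [lt_div_iff₀ hn1] at h2
  have h3 : 1 / M < n := by rw [div_lt_iff₀ hM0]; linarith
  have h4 : (n : ℝ) - 1 < 1 / M := by rw [lt_div_iff₀ hM0]; linarith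
  refine ⟨hM0, ?_, by linarith, by linarith⟩
  by_contra h
  push Not at h
  nlinarith

/-- the tuples of height at most `B` with `N < h / M` -/
def Z (P : (Fin n → ℤ) → Prop) (M B : ℝ) : Set (Fin n → ℤ) :=
  {x | P x ∧ Real.exp (lh x) ≤ B ∧ lr x < 1 / M * lh x}

theorem Z_up (hn : 4 ≤ n) (hP : ∀ x, P x → AdG x) {M : ℝ} (h1 : 1 / (n : ℝ) < M)
    (h2 : M < 1 / ((n : ℝ) - 1)) (ε : ℝ) (hε : 0 < ε) : ∃ C : ℝ, 0 < C ∧ ∀ B : ℝ, 1 ≤ B →
    (Z P M B).Finite ∧ ((Z P M B).ncard : ℝ) ≤ C * B ^ (1 / M - 1 + ε) := by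
  obtain ⟨hM0, hM1, h3, h4⟩ := inv_facts hn h1 h2
  obtain ⟨C, hC⟩ := A_le hn hP hM0 hM1.le ε hε
  have e : max ((n : ℝ) - 2) (1 / M - 1) = 1 / M - 1 := max_eq_right (by linarith)
  rw [e] at hC
  refine ⟨|C| + 1, by positivity, fun B hB => ?_⟩
  have hB0 : 0 < B := by linarith
  obtain ⟨f, c⟩ := hC B hB
  have hsub : Z P M B ⊆ A P lh lr M B := fun x hx => ⟨hx.1, hx.2.1, hx.2.2.trans (lt_add_one _)⟩
  refine ⟨f.subset hsub, ?_⟩
  have h5 : ((Z P M B).ncard : ℝ) ≤ ((A P lh lr M B).ncard : ℝ) := by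
    exact_mod_cast Set.ncard_le_ncard hsub f
  refine h5.trans (c.trans (mul_le_mul_of_nonneg_right ?_ (by positivity)))
  linarith [le_abs_self C]

/-- pairwise coprime tuples -/
theorem adG_of_adm (hn : 2 ≤ n) {x : Fin n → ℤ} (h1 : Adm x) (h2 : NV x) : AdG x := by
  refine ⟨h1.ne, fun p hp => ?_, h1.sum, h2⟩
  by_contra hcon
  push Not at hcon
  have h3 := h1.cop ⟨0, by omega⟩ ⟨1, by omega⟩ (by
    intro h
    have := congrArg Fin.val h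
    simp at this)
  have h4 : p ∣ Int.gcd (x ⟨0, by omega⟩) (x ⟨1, by omega⟩) :=
    Int.dvd_gcd (hcon _) (hcon _)
  rw [h3] at h4
  exact hp.one_lt.ne' (Nat.dvd_one.1 h4)

theorem Z_low (hn : 4 ≤ n) (hP : ∀ x, P x → AdG x) (hP' : ∀ x, Adm x → NV x → P x) {M : ℝ}
    (h1 : 1 / (n : ℝ) < M)
    (h2 : M < 1 / ((n : ℝ) - 1)) (ε : ℝ) (hε : 0 < ε) : ∀ᶠ B : ℝ in atTop,
    B ^ (1 / M - 1 - ε) ≤ ((Z P M B).ncard : ℝ) := by
  obtain ⟨hM0, hM1, h3, h4⟩ := inv_facts hn h1 h2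
  obtain ⟨m, rfl⟩ : ∃ m, n = m + 1 + 1 := ⟨n - 2, by omega⟩
  obtain ⟨C, -, hup⟩ := Z_up hn hP h1 h2 1 one_pos
  filter_upwards [low (m := m) (by omega) h3 h4 hε, eventually_ge_atTop 1] with B hB hB1
  have hB0 : 0 < B := by linarith
  obtain ⟨G, hG1, hG2⟩ := hB
  have e1 : (m : ℝ) + 1 - (((m + 1 + 1 : ℕ) : ℝ) - 1 / M) - ε = 1 / M - 1 - ε := by
    push_cast
    ring
  have e2 : (m : ℝ) + 2 - (((m + 1 + 1 : ℕ) : ℝ) - 1 / M) = 1 / M := by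
    push_cast
    ring
  rw [e1] at hG2
  rw [e2] at hG1
  refine hG2.trans ?_
  have hsub : (G : Set (Fin (m + 1 + 1) → ℤ)) ⊆ Z P M B := by
    intro x hx
    obtain ⟨k1, k2, k3, k4⟩ := hG1 x hx
    have hpos : (0 : ℝ) < ht x := by exact_mod_cast ht_pos (by omega) k1
    have hR : (0 : ℝ) < RX x := by exact_mod_cast RX_pos x
    refine ⟨hP' x k1 k2, ?_, ?_⟩
    · unfold lh
      rw [Real.exp_log hpos]
      exact k3
    · unfold lh lr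
      rw [← Real.log_rpow hpos]
      exact Real.log_lt_log hR k4
  have h5 := Set.ncard_le_ncard hsub (hup B hB1).1
  rw [Set.ncard_coe_finset] at h5
  exact_mod_cast h5

theorem Z_exact (hn : 4 ≤ n) (hP : ∀ x, P x → AdG x) (hP' : ∀ x, Adm x → NV x → P x) {M : ℝ}
    (h1 : 1 / (n : ℝ) < M) (h2 : M < 1 / ((n : ℝ) - 1)) :
    Tendsto (fun X : ℝ => Real.log ((Z P M X).ncard : ℝ) / Real.log X) atTop
      (𝓝 (1 / M - 1)) := by
  refine tendsto_exponent (fun ε hε => ?_) fun ε hε => ?_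
  · obtain ⟨C, hC, h⟩ := Z_up hn hP h1 h2 ε hε
    exact ⟨C, hC, fun X hX => (h X hX).2⟩
  · exact eventually_atTop.1 (Z_low hn hP hP' h1 h2 ε hε)

theorem E_up (hn : 4 ≤ n) (hP : ∀ x, P x → AdG x) {M L : ℝ} (h1 : 1 / (n : ℝ) < M)
    (h2 : M < 1 / ((n : ℝ) - 1)) (hML : M < L) (hL : L ≤ (1 - M) / ((n : ℝ) - 2)) {ε : ℝ}
    (hε : 0 < ε) : ∃ C : ℝ, 0 < C ∧ ∀ X : ℝ, 1 ≤ X → (E P lh lr M L X).Finite ∧
      ((E P lh lr M L X).ncard : ℝ) ≤ C * X ^ (1 - M + ε) := by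
  obtain ⟨hM0, hM1, h3, h4⟩ := inv_facts hn h1 h2
  have hn4 : (4 : ℝ) ≤ n := by exact_mod_cast hn
  have hn2 : (0 : ℝ) < (n : ℝ) - 2 := by linarith
  rw [le_div_iff₀ hn2] at hL
  refine cover (G := 1 / M) hM0 hML.le (by positivity) (fun s hs1 hs2 => ?_) hε
  have hs0 : 0 < s := by linarith
  have hs1' : s ≤ 1 := by nlinarith
  have hsM : 1 / s ≤ 1 / M := one_div_le_one_div_of_le hM0 hs1
  refine ⟨max ((n : ℝ) - 2) (1 / s - 1), le_trans hn2.le (le_max_left _ _), ?_, ?_, ?_⟩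
  · exact max_le (by linarith) (by linarith)
  · rw [mul_max_of_nonneg _ _ hs0.le]
    refine max_le ?_ ?_
    · have := mul_le_mul_of_nonneg_right hs2 hn2.le
      linarith
    · have : s * (1 / s - 1) = 1 - s := by field_simp
      rw [this]
      linarith
  · exact fun δ hδ => A_le hn hP hs0 hs1' δ hδ

theorem F_low (hn : 4 ≤ n) (hP : ∀ x, P x → AdG x) (hP' : ∀ x, Adm x → NV x → P x) {M L : ℝ}
    (h1 : 1 / (n : ℝ) < M) (h2 : M < 1 / ((n : ℝ) - 1)) (hML : M < L)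
    (hL : L ≤ (1 - M) / ((n : ℝ) - 2)) {ε : ℝ} (hε : 0 < ε) :
    ∃ X₀ : ℝ, ∀ X : ℝ, X₀ ≤ X → X ^ (1 - M - ε) ≤ ((F P lh lr M L X).ncard : ℝ) := by
  obtain ⟨hM0, hM1, h3, h4⟩ := inv_facts hn h1 h2
  have hn4 : (4 : ℝ) ≤ n := by exact_mod_cast hn
  have hn2 : (0 : ℝ) < (n : ℝ) - 2 := by linarith
  have hL0 : 0 < L := by linarith
  have hL1 : L ≤ 1 := by
    rw [le_div_iff₀ hn2] at hL
    nlinarith
  obtain ⟨g', hg'⟩ : ∃ g', g' = max ((n : ℝ) - 2) (1 / L - 1) := ⟨_, rfl⟩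
  have hg1 : g' < 1 / M - 1 := by
    rw [hg']
    refine max_lt (by linarith) ?_
    have := one_div_lt_one_div_of_lt hM0 hML
    linarith
  obtain ⟨ε', hε'⟩ : ∃ ε', ε' = min (ε / 2) ((1 / M - 1 - g') / 2) := ⟨_, rfl⟩
  have hε'0 : 0 < ε' := by
    rw [hε']
    exact lt_min (by linarith) (by linarith)
  have hε'1 : ε' ≤ ε / 2 := by rw [hε']; exact min_le_left _ _
  have hε'2 : ε' ≤ (1 / M - 1 - g') / 2 := by rw [hε']; exact min_le_right _ _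
  have hlow := lower (P := P) (h := lh) (N := lr) (M := M) (L := L) (L' := L)
    (g := 1 / M - 1 - ε') (g' := g') (ε := ε / 2) hM0 hML le_rfl
    (fun x hx => lh_nonneg (by omega) (hP x hx))
    ⟨1, one_pos, by
      filter_upwards [Z_low hn hP hP' h1 h2 ε' hε'0] with B hB
      rw [one_mul]
      exact hB⟩
    (fun X hX => by
      obtain ⟨C, -, hC⟩ := E_up hn hP h1 h2 hML hL one_pos
      exact (hC X hX).1)
    (fun δ hδ => by
      rw [hg']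
      exact A_le hn hP hL0 hL1 δ hδ) (by linarith) (by linarith)
  obtain ⟨X₀, hX₀⟩ := hlow
  refine ⟨max X₀ 1, fun X hX => ?_⟩
  have hX1 : 1 ≤ X := (le_max_right _ _).trans hX
  refine le_trans ?_ (hX₀ X ((le_max_left _ _).trans hX))
  refine Real.rpow_le_rpow_of_exponent_le hX1 ?_
  have e1 : M * (1 / M - 1 - ε') = 1 - M - M * ε' := by field_simp
  rw [e1]
  nlinarith

theorem F_exact (hn : 4 ≤ n) (hP : ∀ x, P x → AdG x) (hP' : ∀ x, Adm x → NV x → P x) {M L : ℝ}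
    (h1 : 1 / (n : ℝ) < M) (h2 : M < 1 / ((n : ℝ) - 1)) (hML : M < L)
    (hL : L ≤ (1 - M) / ((n : ℝ) - 2)) :
    (∀ X : ℝ, 1 ≤ X → (F P lh lr M L X).Finite) ∧
    Tendsto (fun X : ℝ => Real.log ((F P lh lr M L X).ncard : ℝ) / Real.log X) atTop
      (𝓝 (1 - M)) := by
  obtain ⟨hM0, hM1, h3, h4⟩ := inv_facts hn h1 h2
  have hfin : ∀ X : ℝ, 1 ≤ X → (F P lh lr M L X).Finite := by
    intro X hX
    obtain ⟨C, -, hC⟩ := E_up hn hP h1 h2 hML hL one_pos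
    exact (hC X hX).1.subset (F_sub (by linarith) (by linarith))
  refine ⟨hfin, tendsto_exponent (fun ε hε => ?_) fun ε hε => F_low hn hP hP' h1 h2 hML hL hε⟩
  obtain ⟨C, hC, h⟩ := E_up hn hP h1 h2 hML hL hε
  refine ⟨C, hC, fun X hX => le_trans ?_ (h X hX).2⟩
  exact_mod_cast Set.ncard_le_ncard (F_sub (by linarith) (by linarith)) (h X hX).1

end Pool.Agent.Q38.NG
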