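import Pool.Agent.Q38.NG.Last

/-! The tuples all of whose steps are good. -/

set_option autoImplicit false

namespace Pool.Agent.Q38.NG

open Finset
open Pool.Agent.H328R2.ABC (rad sum_inv_rad)
open Pool.Agent.Q38.NC

variable {m : ℕ}

/-- a tuple with two distinguished coordinates -/
structure Tr (H : ℕ) (t : (Fin m → ℤ) × ℤ × ℤ) : Prop where
  y : ∀ i, t.1 i ≠ 0 ∧ (t.1 i).natAbs ≤ H
  b : t.2.1 ≠ 0 ∧ t.2.1.natAbs ≤ H
  c : t.2.2 ≠ 0 ∧ t.2.2.natAbs ≤ H
  sum : ∑ i, t.1 i + t.2.1 + t.2.2 = 0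

theorem Tr.eq {H : ℕ} {t : (Fin m → ℤ) × ℤ × ℤ} (h : Tr H t) : t.2.2 = -(∑ i, t.1 i) - t.2.1 := by
  have := h.sum
  linarith

open Classical in
theorem good_count {H L D J : ℕ} {R : ℝ} (hH : 1 ≤ H) (hJ : 1 ≤ J) (hR : 0 ≤ R)
    (hL : ∀ K : ℕ, K ≠ 0 → K ≤ (m + 2) * H ^ (m + 2) → (Sm K H).card ≤ L) {a e : Fin m}
    (hae : a ≠ e)
    (G : Finset ((Fin m → ℤ) × ℤ × ℤ)) (hG : ∀ t ∈ G, Tr H t ∧ ∑ i, t.1 i ≠ 0 ∧
      Gd m t.1 (Nat.gcd t.2.1.natAbs t.2.2.natAbs) ∧ J ≤ t.2.1.natAbs ∧ t.2.1.natAbs ≤ 2 * J ∧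
      H ≤ D * t.2.2.natAbs ∧ (rad (Pr t.1 * (t.2.1.natAbs * t.2.2.natAbs)) : ℝ) ≤ R ∧
      rad (t.1 a).natAbs ≤ rad t.2.2.natAbs ∧ rad (t.1 e).natAbs ≤ rad t.2.1.natAbs) :
    (G.card : ℝ) ≤ (L * S1 H) ^ 2 * (L * (H : ℝ) ^ m * SS H ^ m +
      4 * D * R / H * (2 * L ^ 2 * S1 H ^ 3) ^ m) := by
  have hH0 : (0 : ℝ) < H := by exact_mod_cast hH
  have hS1 := S1_nonneg H
  obtain ⟨T, hT⟩ : ∃ T, T = (Fintype.piFinset (fun _ : Fin m => ZZ H) ×ˢ Icc 1 H).filter
    (fun z => Gd m z.1 z.2 ∧ z.2 ∣ (∑ i, z.1 i).natAbs ∧ ∑ i, z.1 i ≠ 0) := ⟨_, rfl⟩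
  have hPle : ∀ y ∈ Fintype.piFinset (fun _ : Fin m => ZZ H), Pr y ≤ H ^ m := by
    intro y hy
    rw [Fintype.mem_piFinset] at hy
    unfold Pr
    calc ∏ i, (y i).natAbs ≤ ∏ _i : Fin m, H := prod_le_prod' fun i _ => (mem_ZZ.1 (hy i)).2
      _ = H ^ m := by rw [prod_const, card_univ, Fintype.card_fin]
  have hsmall : H ^ (m + 1) ≤ (m + 2) * H ^ (m + 2) := by
    calc H ^ (m + 1) ≤ H ^ (m + 2) := Nat.pow_le_pow_right hH (by omega)
      _ ≤ (m + 2) * H ^ (m + 2) := Nat.le_mul_of_pos_left _ (by omega)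
  have key := card_le_sum G (fun t => (t.1, Nat.gcd t.2.1.natAbs t.2.2.natAbs)) T
    (fun z => (L * S1 H) ^ 2 * ((H / (rad (z.1 a).natAbs : ℝ)) * (H / (rad (z.1 e).natAbs : ℝ)) +
      4 * D * R / H * ((z.2 : ℝ) / (rad (z.2 * Pr z.1) : ℝ)))) ?_ ?_
  · refine key.trans ?_
    rw [← mul_sum, sum_add_distrib, ← mul_sum]
    refine mul_le_mul_of_nonneg_left (add_le_add ?_ (mul_le_mul_of_nonneg_left ?_
      (by positivity))) (by positivity)
    · -- the first sum
      have e1 : ∀ y ∈ Fintype.piFinset (fun _ : Fin m => ZZ H),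
          (H / (rad (y a).natAbs : ℝ)) * (H / (rad (y e).natAbs : ℝ)) ≤
            (H : ℝ) ^ m * (1 / PR y) := by
        intro y hy
        rw [Fintype.mem_piFinset] at hy
        have h1 : ∀ i, 1 ≤ (H : ℝ) / (rad (y i).natAbs : ℝ) := by
          intro i
          obtain ⟨k1, k2⟩ := mem_ZZ.1 (hy i)
          rw [le_div_iff₀ (rad_pos' _), one_mul]
          exact_mod_cast (rad_le (Int.natAbs_ne_zero.2 k1)).trans k2
        have h2 : (H : ℝ) ^ m * (1 / PR y) = ∏ i, ((H : ℝ) / (rad (y i).natAbs : ℝ)) := by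
          unfold PR
          rw [prod_div_distrib, prod_const, card_univ, Fintype.card_fin]
          ring
        have hea : e ∈ univ.erase a := mem_erase.2 ⟨hae.symm, mem_univ _⟩
        rw [h2, ← mul_prod_erase _ _ (mem_univ a), ← mul_prod_erase _ _ hea, ← mul_assoc]
        refine le_mul_of_one_le_right ?_ ?_
        · exact mul_nonneg (by linarith [h1 a]) (by linarith [h1 e])
        · have h3 : ∀ s : Finset (Fin m), 1 ≤ ∏ i ∈ s, ((H : ℝ) / (rad (y i).natAbs : ℝ)) := by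
            intro s
            induction s using Finset.induction_on with
            | empty => simp
            | insert i s hi ih =>
              rw [prod_insert hi]
              exact one_le_mul_of_one_le_of_one_le (h1 i) ih
          exact h3 _
      have e2 : ∑ z ∈ T, (H / (rad (z.1 a).natAbs : ℝ)) * (H / (rad (z.1 e).natAbs : ℝ)) ≤
          ∑ y ∈ Fintype.piFinset (fun _ : Fin m => ZZ H), (L : ℝ) * ((H : ℝ) ^ m * (1 / PR y)) := by
        rw [hT, sum_filter, sum_product]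
        refine sum_le_sum fun y hy => ?_
        have hy' := hy
        rw [Fintype.mem_piFinset] at hy'
        have hPR := PR_pos y
        simp only
        rw [← sum_filter, sum_const, nsmul_eq_mul]
        by_cases hS : ∑ i, y i = 0
        · have : (Icc 1 H).filter (fun g => Gd m y g ∧ g ∣ (∑ i, y i).natAbs ∧ ∑ i, y i ≠ 0) = ∅ := by
            refine filter_eq_empty_iff.2 fun g _ h => h.2.2 hS
          rw [this, card_empty, Nat.cast_zero, zero_mul]
          positivity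
        · have hc : ((Icc 1 H).filter (fun g => Gd m y g ∧ g ∣ (∑ i, y i).natAbs ∧
              ∑ i, y i ≠ 0)).card ≤ L := by
            refine (card_le_card fun g hg => ?_).trans (hL (∑ i, y i).natAbs
              (Int.natAbs_ne_zero.2 hS) ?_)
            · rw [mem_filter, mem_Icc] at hg
              exact mem_Sm.2 ⟨hg.1, fun p _ hpg => hpg.trans hg.2.2.1⟩
            · calc (∑ i, y i).natAbs ≤ ∑ i, (y i).natAbs := Int.natAbs_sum_le _ _
                _ ≤ ∑ _i : Fin m, H := sum_le_sum fun i _ => (mem_ZZ.1 (hy' i)).2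
                _ = m * H := by rw [sum_const, card_univ, Fintype.card_fin, smul_eq_mul]
                _ ≤ (m + 2) * H ^ (m + 2) :=
                  Nat.mul_le_mul (by omega) (Nat.le_self_pow (by omega) _)
          have hc' : (((Icc 1 H).filter (fun g => Gd m y g ∧ g ∣ (∑ i, y i).natAbs ∧
              ∑ i, y i ≠ 0)).card : ℝ) ≤ L := by exact_mod_cast hc
          have h5 := rad_pos' (y a).natAbs
          have h6 := rad_pos' (y e).natAbs
          exact mul_le_mul hc' (e1 y hy) (by positivity) (Nat.cast_nonneg _)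
      refine e2.trans (le_of_eq ?_)
      rw [← mul_sum, ← mul_sum, sum_pi]
      ring
    · refine le_trans ?_ (main_sum (H := H) (L := L) m fun K hK hK2 => hL K hK (hK2.trans hsmall))
      rw [hT, sum_filter, sum_product]
      refine sum_le_sum fun y _ => ?_
      simp only
      rw [sum_filter]
      refine sum_le_sum fun g _ => ?_
      by_cases hg : Gd m y g
      · rw [if_pos hg]
        split_ifs
        · exact le_rfl
        · positivity
      · rw [if_neg hg, if_neg fun h => hg h.1]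
  · intro t ht
    obtain ⟨h1, h2, h3, -⟩ := hG t ht
    rw [hT, mem_filter, mem_product, Fintype.mem_piFinset, mem_Icc]
    have hb := Int.natAbs_ne_zero.2 h1.b.1
    refine ⟨⟨fun i => mem_ZZ.2 (h1.y i), Nat.gcd_pos_of_pos_left _ (Nat.pos_of_ne_zero hb),
      (Nat.gcd_le_left _ (Nat.pos_of_ne_zero hb)).trans h1.b.2⟩, h3, ?_, h2⟩
    have e1 : ((Nat.gcd t.2.1.natAbs t.2.2.natAbs : ℕ) : ℤ) ∣ ∑ i, t.1 i := by
      have e2 : ((Nat.gcd t.2.1.natAbs t.2.2.natAbs : ℕ) : ℤ) ∣ t.2.1 :=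
        Int.natCast_dvd.2 (Nat.gcd_dvd_left _ _)
      have e3 : ((Nat.gcd t.2.1.natAbs t.2.2.natAbs : ℕ) : ℤ) ∣ t.2.2 :=
        Int.natCast_dvd.2 (Nat.gcd_dvd_right _ _)
      have e4 : ∑ i, t.1 i = -(t.2.1 + t.2.2) := by
        have := h1.sum
        linarith
      rw [e4]
      exact (dvd_add e2 e3).neg_right
    exact Int.natCast_dvd.1 e1
  · rintro ⟨y, g⟩ hz
    rw [hT, mem_filter, mem_product, Fintype.mem_piFinset, mem_Icc] at hz
    obtain ⟨⟨hy, hg1, hg2⟩, hGd, -, hS⟩ := hz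
    simp only at hy hg1 hg2 hGd hS ⊢
    have hP : Pr y ≠ 0 := Pr_ne fun i => (mem_ZZ.1 (hy i)).1
    have hSm : (Sm (g * Pr y) H).card ≤ L := by
      refine hL _ (mul_ne_zero (by omega) hP) ?_
      calc g * Pr y ≤ H * H ^ m := Nat.mul_le_mul hg2 (hPle y (Fintype.mem_piFinset.2 hy))
        _ = H ^ (m + 1) := by rw [pow_succ, mul_comm]
        _ ≤ _ := hsmall
    obtain ⟨F, hF⟩ : ∃ F, F = G.filter
      (fun t => (t.1, Nat.gcd t.2.1.natAbs t.2.2.natAbs) = (y, g)) := ⟨_, rfl⟩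
    rw [← hF]
    have hfac : ∀ t ∈ F, t ∈ G ∧ t.1 = y ∧ Nat.gcd t.2.1.natAbs t.2.2.natAbs = g := by
      intro t ht
      rw [hF, mem_filter, Prod.mk.injEq] at ht
      exact ht
    have hinj : Set.InjOn (fun t : (Fin m → ℤ) × ℤ × ℤ => t.2.1) (F : Set _) := by
      intro t ht t' ht' h
      obtain ⟨k1, k2, -⟩ := hfac t ht
      obtain ⟨l1, l2, -⟩ := hfac t' ht'
      have e1 := (hG t k1).1.eq
      have e2 := (hG t' l1).1.eq
      simp only at h
      refine Prod.ext (k2.trans l2.symm) (Prod.ext h ?_)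
      rw [e1, e2, h, k2, l2]
    rw [← card_image_of_injOn hinj]
    refine pair_count (∑ i, y i) hP (by omega) hH hJ hR
      (Nat.one_le_iff_ne_zero.2 (rad_pos _).ne') (Nat.one_le_iff_ne_zero.2 (rad_pos _).ne') hSm _ ?_
    intro b hb
    obtain ⟨t, ht, rfl⟩ := mem_image.1 hb
    obtain ⟨k1, k2, k3⟩ := hfac t ht
    obtain ⟨g1, g2, g3, g4, g5, g6, g7, g8, g9⟩ := hG t k1
    have e1 := g1.eq
    rw [k2] at e1 g7 g8 g9
    rw [← e1]
    exact ⟨g1.b, g1.c, k3, g4, g5, g6, g7, g8, g9⟩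

end Pool.Agent.Q38.NG
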