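import Pool.Agent.Q38.NG.Part

/-! The inner sum. -/

set_option autoImplicit false

namespace Pool.Agent.Q38.NG

open Finset
open Pool.Agent.H328R2.ABC (rad sum_inv_rad)
open Pool.Agent.Q38.NC

/-- a sum over integers of one residue class which are not small -/
theorem sum_inv_ap (F : Finset ℤ) {q H : ℕ} (hq : 0 < q)
    (hF : ∀ x ∈ F, q ≤ x.natAbs ∧ x.natAbs ≤ H)
    (hc : ∀ x ∈ F, ∀ y ∈ F, (q : ℤ) ∣ x - y) :
    ∑ x ∈ F, 1 / (x.natAbs : ℝ) ≤ 2 * S1 H / q := by
  classical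
  have hq0 : (0 : ℝ) < q := by exact_mod_cast hq
  have h1 : ∀ x ∈ F, 1 / (x.natAbs : ℝ) ≤
      (fun z : Bool × ℕ => 1 / (q : ℝ) * (1 / (rad z.2 : ℝ))) (decide (0 < x), x.natAbs / q) := by
    intro x hx
    obtain ⟨h2, h3⟩ := hF x hx
    show 1 / (x.natAbs : ℝ) ≤ 1 / (q : ℝ) * (1 / (rad (x.natAbs / q) : ℝ))
    rw [one_div_mul_one_div]
    have h4 : 0 < x.natAbs / q := Nat.div_pos h2 hq
    refine one_div_le_one_div_of_le (mul_pos hq0 (rad_pos' _)) ?_
    have h5 : q * rad (x.natAbs / q) ≤ x.natAbs :=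
      (Nat.mul_le_mul_left _ (rad_le h4.ne')).trans (Nat.mul_div_le _ _)
    exact_mod_cast h5
  refine (sum_le_sum h1).trans ?_
  have hinj : Set.InjOn (fun x : ℤ => (decide (0 < x), x.natAbs / q)) (F : Set ℤ) := by
    intro x hx y hy h
    rw [mem_coe] at hx hy
    simp only [Prod.mk.injEq, decide_eq_decide] at h
    obtain ⟨h2, h3⟩ := h
    obtain ⟨k, hk⟩ := hc x hx y hy
    have hx1 := (hF x hx).1
    have hy1 := (hF y hy).1
    have e1 := Nat.div_add_mod x.natAbs q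
    have e2 := Nat.div_add_mod y.natAbs q
    have e3 := Nat.mod_lt x.natAbs hq
    have e4 := Nat.mod_lt y.natAbs hq
    rw [h3] at e1
    have e5 : |x - y| < q := by
      rw [abs_lt]
      by_cases hpos : 0 < x
      · have hpos' := h2.1 hpos
        constructor <;> omega
      · have hpos' : ¬ 0 < y := fun h => hpos (h2.2 h)
        constructor <;> omega
    have e6 : x - y = 0 := Int.eq_zero_of_abs_lt_dvd ⟨k, hk⟩ e5
    omega
  rw [← Finset.sum_image (g := fun x : ℤ => (decide (0 < x), x.natAbs / q))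
    (f := fun z : Bool × ℕ => 1 / (q : ℝ) * (1 / (rad z.2 : ℝ))) hinj]
  have h2 : F.image (fun x : ℤ => (decide (0 < x), x.natAbs / q)) ⊆
      (univ : Finset Bool) ×ˢ Icc 1 H := by
    intro z hz
    obtain ⟨x, hx, rfl⟩ := mem_image.1 hz
    obtain ⟨h2, h3⟩ := hF x hx
    rw [mem_product]
    exact ⟨mem_univ _, mem_Icc.2 ⟨Nat.div_pos h2 hq, (Nat.div_le_self _ _).trans h3⟩⟩
  refine (sum_le_sum_of_subset_of_nonneg h2 fun z _ _ => by positivity).trans (le_of_eq ?_)
  rw [sum_product]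
  simp only
  rw [sum_const, nsmul_eq_mul, ← mul_sum]
  unfold S1
  simp only [card_univ, Fintype.card_bool]
  push_cast
  ring

/-- one step of the chain -/
def Step (P h : ℕ) (x : ℤ) (g : ℕ) : Prop :=
  Nat.gcd g x.natAbs = h ∧
    g * (kp (g * P) x.natAbs * mo (co (cp (g * P) x.natAbs))) ≤ h * x.natAbs

/-- the sum over the last coordinate for a given divisor -/
theorem inner_g (S : ℤ) {P h H g L : ℕ} (hP : P ≠ 0) (hg : g ≠ 0)
    (hL : (Sm (g * P) H).card ≤ L) (F : Finset ℤ)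
    (hF : ∀ x ∈ F, x ≠ 0 ∧ x.natAbs ≤ H ∧ (g : ℤ) ∣ S + x ∧ Step P h x g) :
    ∑ x ∈ F, (g : ℝ) / (rad (x.natAbs * (g * P)) : ℝ) ≤
      2 * L * S1 H ^ 2 * (h / (rad (g * P) : ℝ)) := by
  classical
  have hK : g * P ≠ 0 := mul_ne_zero hg hP
  obtain ⟨K, hKd⟩ : ∃ K, K = g * P := ⟨_, rfl⟩
  rw [← hKd] at hL hK ⊢
  have hS1 := S1_nonneg H
  have hR := rad_pos' K
  -- the code
  have hmaps : ∀ x ∈ F, (kp K x.natAbs, co (cp K x.natAbs)) ∈ Sm K H ×ˢ Icc 1 H := by
    intro x hx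
    obtain ⟨h1, h2, -, -⟩ := hF x hx
    have h1' := Int.natAbs_ne_zero.2 h1
    rw [mem_product]
    refine ⟨kp_mem h1' h2, mem_Icc.2 ⟨co_pos (cp_ne K h1'), (co_le _).trans
      ((Nat.le_of_dvd (Nat.pos_of_ne_zero h1') (cp_dvd K h1')).trans h2)⟩⟩
  rw [← Finset.sum_fiberwise_of_maps_to hmaps]
  have hfib : ∀ z ∈ Sm K H ×ˢ Icc 1 H,
      ∑ x ∈ F with (kp K x.natAbs, co (cp K x.natAbs)) = z,
        (g : ℝ) / (rad (x.natAbs * K) : ℝ) ≤
      2 * S1 H * (h / (rad K : ℝ)) * (1 / (rad z.2 : ℝ)) := by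
    rintro ⟨v, c⟩ hz
    rw [mem_product] at hz
    obtain ⟨hv, hc⟩ := hz
    simp only at hv hc
    obtain ⟨⟨hv1, hv2⟩, hv3⟩ := mem_Sm.1 hv
    rw [mem_Icc] at hc
    have hg0 : (0 : ℝ) < g := by exact_mod_cast Nat.pos_of_ne_zero hg
    have hv0 : (0 : ℝ) < v := by exact_mod_cast hv1
    have hc0 : (0 : ℝ) < c := by exact_mod_cast hc.1
    have hrc := rad_pos' c
    rcases (F.filter fun x => (kp K x.natAbs, co (cp K x.natAbs)) = (v, c)).eq_empty_or_nonempty
      with h0 | ⟨x₀, hx₀⟩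
    · rw [h0, sum_empty]
      positivity
    -- the modulus
    have hfac : ∀ x ∈ F.filter (fun x => (kp K x.natAbs, co (cp K x.natAbs)) = (v, c)),
        x ≠ 0 ∧ x.natAbs ≤ H ∧ (g : ℤ) ∣ S + x ∧ Step P h x g ∧ kp K x.natAbs = v ∧
          co (cp K x.natAbs) = c := by
      intro x hx
      rw [mem_filter, Prod.mk.injEq] at hx
      obtain ⟨h1, h2, h3, h4⟩ := hF x hx.1
      exact ⟨h1, h2, h3, h4, hx.2.1, hx.2.2⟩
    obtain ⟨q, hq⟩ : ∃ q, q = Nat.lcm (v * mo c) g := ⟨_, rfl⟩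
    have hvc : v * mo c ≠ 0 := mul_ne_zero (by omega) (mo_pos (by omega)).ne'
    have hgcd : Nat.gcd (v * mo c) g = h := by
      obtain ⟨h1, h2, h3, ⟨h4, h4'⟩, h5, h6⟩ := hfac x₀ hx₀
      have h1' := Int.natAbs_ne_zero.2 h1
      have h7 : v * mo c ∣ x₀.natAbs := by
        rw [← h5, ← h6]
        exact mod_dvd K h1'
      refine Nat.dvd_antisymm ?_ ?_
      · rw [← h4]
        exact Nat.dvd_gcd (Nat.gcd_dvd_right _ _) ((Nat.gcd_dvd_left _ _).trans h7)
      · refine Nat.dvd_gcd (Dvd.dvd.mul_right ?_ _) (by rw [← h4]; exact Nat.gcd_dvd_left _ _)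
        rw [← h5]
        refine dvd_kp h1' (by rw [← h4]; exact Nat.gcd_dvd_right _ _) fun p hp hph => ?_
        rw [hKd]
        exact Dvd.dvd.mul_right ((hph.trans (by rw [← h4]; exact Nat.gcd_dvd_left _ _))) _
    have hh0 : 0 < h := by
      rw [← hgcd]
      exact Nat.gcd_pos_of_pos_right _ (Nat.pos_of_ne_zero hg)
    have hqh : h * q = v * mo c * g := by
      rw [hq, ← hgcd]
      exact Nat.gcd_mul_lcm _ _
    have hq0 : 0 < q := by
      rw [hq]
      exact Nat.lcm_pos (Nat.pos_of_ne_zero hvc) (Nat.pos_of_ne_zero hg)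
    have hap := sum_inv_ap (F.filter fun x => (kp K x.natAbs, co (cp K x.natAbs)) = (v, c))
      (H := H) hq0 (by
        intro x hx
        obtain ⟨h1, h2, h3, ⟨h4, h4'⟩, h5, h6⟩ := hfac x hx
        refine ⟨?_, h2⟩
        rw [← hKd, h5, h6, mul_comm, ← hqh] at h4'
        exact Nat.le_of_mul_le_mul_left h4' hh0) (by
        intro x hx y hy
        obtain ⟨h1, -, h3, -, h5, h6⟩ := hfac x hx
        obtain ⟨k1, -, k3, -, k5, k6⟩ := hfac y hy
        have h1' := Int.natAbs_ne_zero.2 h1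
        have k1' := Int.natAbs_ne_zero.2 k1
        have e1 : (g : ℤ) ∣ x - y := by
          have := dvd_sub h3 k3
          simpa using this
        have e2 : ((v * mo c : ℕ) : ℤ) ∣ x := by
          rw [Int.natCast_dvd, ← h5, ← h6]
          exact mod_dvd K h1'
        have e3 : ((v * mo c : ℕ) : ℤ) ∣ y := by
          rw [Int.natCast_dvd, ← k5, ← k6]
          exact mod_dvd K k1'
        rw [hq, Int.natCast_dvd]
        exact Nat.lcm_dvd (Int.natCast_dvd.1 (dvd_sub e2 e3)) (Int.natCast_dvd.1 e1))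
    -- the terms
    have hterm : ∀ x ∈ F.filter (fun x => (kp K x.natAbs, co (cp K x.natAbs)) = (v, c)),
        (g : ℝ) / (rad (x.natAbs * K) : ℝ) = (g * v * c / (rad K : ℝ)) * (1 / (x.natAbs : ℝ)) := by
      intro x hx
      obtain ⟨h1, -, -, -, h5, h6⟩ := hfac x hx
      have h1' := Int.natAbs_ne_zero.2 h1
      have e1 := rad_mul_part hK h1'
      have e2 : v * (rad (cp K x.natAbs) * c) = x.natAbs := by
        rw [← h6, rad_mul_co, ← h5]
        exact kp_mul_cp K h1'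
      have e3 : (v : ℝ) * ((rad (cp K x.natAbs) : ℝ) * c) = (x.natAbs : ℝ) := by
        exact_mod_cast e2
      have e4 := rad_pos' (cp K x.natAbs)
      rw [e1, ← e3]
      push_cast
      field_simp
    rw [sum_congr rfl hterm, ← mul_sum]
    calc (g * v * c / (rad K : ℝ)) * ∑ x ∈ F with (kp K x.natAbs, co (cp K x.natAbs)) = (v, c),
          1 / (x.natAbs : ℝ) ≤ (g * v * c / (rad K : ℝ)) * (2 * S1 H / q) :=
          mul_le_mul_of_nonneg_left hap (by positivity)
      _ = 2 * S1 H * (h / (rad K : ℝ)) * (1 / (rad c : ℝ)) := by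
          have hq0' : (0 : ℝ) < q := by exact_mod_cast hq0
          have e5 : (h : ℝ) * q = v * (c * (rad c : ℝ)) * g := by
            unfold mo at hqh
            exact_mod_cast hqh
          have e6 : (g : ℝ) * v * c = h * q / (rad c : ℝ) := by
            rw [e5]
            field_simp
          rw [e6]
          field_simp
  refine (sum_le_sum hfib).trans ?_
  rw [← mul_sum, sum_product]
  simp only
  rw [sum_const, nsmul_eq_mul]
  have hL' : ((Sm K H).card : ℝ) ≤ L := by exact_mod_cast hL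
  calc 2 * S1 H * (h / (rad K : ℝ)) * (((Sm K H).card : ℝ) * ∑ x ∈ Icc 1 H, 1 / (rad x : ℝ)) ≤
        2 * S1 H * (h / (rad K : ℝ)) * (L * S1 H) := by
        refine mul_le_mul_of_nonneg_left ?_ (by positivity)
        exact mul_le_mul_of_nonneg_right hL' hS1
    _ = _ := by ring

end Pool.Agent.Q38.NG
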