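import Pool.Agent.Q38.NG.Chain

/-! The last two coordinates. -/

set_option autoImplicit false

namespace Pool.Agent.Q38.NG

open Finset
open Pool.Agent.H328R2.ABC (rad sum_inv_rad)
open Pool.Agent.Q38.NC

theorem card_le_sum {α β : Type*} [DecidableEq β] (G : Finset α) (φ : α → β) (T : Finset β)
    (w : β → ℝ) (hmap : ∀ x ∈ G, φ x ∈ T)
    (hw : ∀ t ∈ T, ((G.filter fun x => φ x = t).card : ℝ) ≤ w t) :
    (G.card : ℝ) ≤ ∑ t ∈ T, w t := by
  rw [card_eq_sum_card_fiberwise hmap]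
  push_cast
  exact sum_le_sum hw

/-- the number of the last pairs -/
theorem pair_count (S : ℤ) {P g H L D J ra re : ℕ} {R : ℝ} (hP : P ≠ 0) (hg : g ≠ 0)
    (hH : 1 ≤ H) (hJ : 1 ≤ J) (hR : 0 ≤ R) (hra : 1 ≤ ra) (hre : 1 ≤ re)
    (hL : (Sm (g * P) H).card ≤ L) (F : Finset ℤ)
    (hF : ∀ b ∈ F, (b ≠ 0 ∧ b.natAbs ≤ H) ∧ (-S - b ≠ 0 ∧ (-S - b).natAbs ≤ H) ∧
      Nat.gcd b.natAbs (-S - b).natAbs = g ∧ J ≤ b.natAbs ∧ b.natAbs ≤ 2 * J ∧
      H ≤ D * (-S - b).natAbs ∧ (rad (P * (b.natAbs * (-S - b).natAbs)) : ℝ) ≤ R ∧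
      ra ≤ rad (-S - b).natAbs ∧ re ≤ rad b.natAbs) :
    (F.card : ℝ) ≤ (L * S1 H) ^ 2 * ((H / ra) * (H / re) + 4 * D * R / H *
      ((g : ℝ) / (rad (g * P) : ℝ))) := by
  classical
  have hK : g * P ≠ 0 := mul_ne_zero hg hP
  obtain ⟨K, hKd⟩ : ∃ K, K = g * P := ⟨_, rfl⟩
  rw [← hKd] at hL hK ⊢
  have hgK : g ∣ K := ⟨P, hKd⟩
  have hS1 := S1_nonneg H
  have hRK := rad_pos' K
  have hH0 : (0 : ℝ) < H := by exact_mod_cast hH
  have hJ0 : (0 : ℝ) < J := by exact_mod_cast hJ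
  have hra0 : (0 : ℝ) < ra := by exact_mod_cast hra
  have hre0 : (0 : ℝ) < re := by exact_mod_cast hre
  obtain ⟨W, hW⟩ : ∃ W : ℝ, W = (H / ra) * (H / re) + 4 * D * R / H *
      ((g : ℝ) / (rad K : ℝ)) := ⟨_, rfl⟩
  have hW0 : 0 ≤ W := by rw [hW]; positivity
  rw [← hW]
  have key := card_le_sum F (fun b => ((kp K b.natAbs, co (cp K b.natAbs)),
      (kp K (-S - b).natAbs, co (cp K (-S - b).natAbs))))
    ((Sm K H ×ˢ Icc 1 H) ×ˢ (Sm K H ×ˢ Icc 1 H))
    (fun z => W * (1 / (rad z.1.2 : ℝ)) * (1 / (rad z.2.2 : ℝ))) ?_ ?_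
  · refine key.trans ?_
    rw [sum_product]
    simp only [sum_product]
    have e1 : ∀ x ∈ Sm K H, ∀ y ∈ Icc 1 H, ∑ x1 ∈ Sm K H, ∑ y1 ∈ Icc 1 H,
        W * (1 / (rad y : ℝ)) * (1 / (rad y1 : ℝ)) =
        ((Sm K H).card * S1 H * W) * (1 / (rad y : ℝ)) := by
      intro x _ y _
      rw [sum_const, nsmul_eq_mul, ← mul_sum]
      unfold S1
      ring
    rw [sum_congr rfl fun x hx => sum_congr rfl fun y hy => e1 x hx y hy]
    rw [sum_const, nsmul_eq_mul, ← mul_sum]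
    have hL' : ((Sm K H).card : ℝ) ≤ L := by exact_mod_cast hL
    have hc0 : (0 : ℝ) ≤ (Sm K H).card := Nat.cast_nonneg _
    have e2 : (((Sm K H).card : ℝ) * S1 H) ^ 2 ≤ (L * S1 H) ^ 2 :=
      pow_le_pow_left₀ (by positivity) (mul_le_mul_of_nonneg_right hL' hS1) 2
    calc ((Sm K H).card : ℝ) * (((Sm K H).card * S1 H * W) * ∑ i ∈ Icc 1 H, 1 / (rad i : ℝ)) =
          (((Sm K H).card : ℝ) * S1 H) ^ 2 * W := by
          unfold S1
          ring
      _ ≤ (L * S1 H) ^ 2 * W := mul_le_mul_of_nonneg_right e2 hW0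
  · intro b hb
    obtain ⟨⟨h1, h2⟩, ⟨h3, h4⟩, -⟩ := hF b hb
    have h1' := Int.natAbs_ne_zero.2 h1
    have h3' := Int.natAbs_ne_zero.2 h3
    simp only [mem_product]
    refine ⟨⟨kp_mem h1' h2, mem_Icc.2 ⟨co_pos (cp_ne K h1'), (co_le _).trans
      ((Nat.le_of_dvd (Nat.pos_of_ne_zero h1') (cp_dvd K h1')).trans h2)⟩⟩,
      ⟨kp_mem h3' h4, mem_Icc.2 ⟨co_pos (cp_ne K h3'), (co_le _).trans
      ((Nat.le_of_dvd (Nat.pos_of_ne_zero h3') (cp_dvd K h3')).trans h4)⟩⟩⟩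
  · rintro ⟨⟨vb, cb⟩, ⟨vc, cc⟩⟩ hz
    simp only [mem_product] at hz
    obtain ⟨⟨hvb, hcb⟩, ⟨hvc, hcc⟩⟩ := hz
    rw [mem_Icc] at hcb hcc
    obtain ⟨⟨hvb1, -⟩, -⟩ := mem_Sm.1 hvb
    obtain ⟨⟨hvc1, -⟩, -⟩ := mem_Sm.1 hvc
    simp only
    obtain ⟨F', hF'⟩ : ∃ F', F' = F.filter (fun b => ((kp K b.natAbs, co (cp K b.natAbs)),
      (kp K (-S - b).natAbs, co (cp K (-S - b).natAbs))) = ((vb, cb), (vc, cc))) := ⟨_, rfl⟩
    rw [← hF']
    have hrb := rad_pos' cb
    have hrc := rad_pos' cc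
    rcases F'.eq_empty_or_nonempty with h0 | ⟨b₀, hb₀⟩
    · rw [h0, card_empty, Nat.cast_zero]
      positivity
    have hfac : ∀ b ∈ F', b ∈ F ∧ (kp K b.natAbs = vb ∧ co (cp K b.natAbs) = cb) ∧
        (kp K (-S - b).natAbs = vc ∧ co (cp K (-S - b).natAbs) = cc) := by
      intro b hb
      rw [hF', mem_filter] at hb
      simp only [Prod.mk.injEq] at hb
      exact hb
    have hdA : ∀ b ∈ F', vb * mo cb ∣ b.natAbs := by
      intro b hb
      obtain ⟨k1, ⟨k2, k3⟩, -⟩ := hfac b hb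
      rw [← k2, ← k3]
      exact mod_dvd K (Int.natAbs_ne_zero.2 (hF b k1).1.1)
    have hdB : ∀ b ∈ F', vc * mo cc ∣ (-S - b).natAbs := by
      intro b hb
      obtain ⟨k1, -, ⟨k2, k3⟩⟩ := hfac b hb
      rw [← k2, ← k3]
      exact mod_dvd K (Int.natAbs_ne_zero.2 (hF b k1).2.1.1)
    have hA0 : 0 < vb * mo cb := Nat.mul_pos hvb1 (mo_pos (by omega))
    have hB0 : 0 < vc * mo cc := Nat.mul_pos hvc1 (mo_pos (by omega))
    obtain ⟨q, hq⟩ : ∃ q, q = Nat.lcm (vb * mo cb) (vc * mo cc) := ⟨_, rfl⟩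
    have hq0 : 0 < q := by rw [hq]; exact Nat.lcm_pos hA0 hB0
    obtain ⟨k1, ⟨k2, k3⟩, ⟨k4, k5⟩⟩ := hfac b₀ hb₀
    obtain ⟨⟨f1, f2⟩, ⟨f3, f4⟩, f5, f6, f7, f8, f9, f10, f11⟩ := hF b₀ k1
    have f1' := Int.natAbs_ne_zero.2 f1
    have f3' := Int.natAbs_ne_zero.2 f3
    have hgcd : Nat.gcd (vb * mo cb) (vc * mo cc) ≤ g := by
      refine Nat.le_of_dvd (Nat.pos_of_ne_zero hg) ?_
      rw [← f5]
      exact Nat.dvd_gcd ((Nat.gcd_dvd_left _ _).trans (hdA b₀ hb₀))
        ((Nat.gcd_dvd_right _ _).trans (hdB b₀ hb₀))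
    have hqg : (vb * mo cb) * (vc * mo cc) ≤ g * q := by
      rw [← Nat.gcd_mul_lcm, ← hq]
      exact Nat.mul_le_mul_right _ hgcd
    have hcard := card_ap F' q hq0 (2 * J : ℝ) (by positivity) (by
      intro b hb
      rw [← Int.cast_abs, Int.abs_eq_natAbs]
      exact_mod_cast (hF b (hfac b hb).1).2.2.2.2.1) (by
      intro b hb b' hb'
      have e1 : ((vb * mo cb : ℕ) : ℤ) ∣ b - b' :=
        dvd_sub (Int.natCast_dvd.2 (hdA b hb)) (Int.natCast_dvd.2 (hdA b' hb'))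
      have e2 : ((vc * mo cc : ℕ) : ℤ) ∣ b - b' := by
        have := dvd_sub (Int.natCast_dvd.2 (hdB b' hb')) (Int.natCast_dvd.2 (hdB b hb))
        have e3 : -S - b' - (-S - b) = b - b' := by ring
        rwa [e3] at this
      rw [hq, Int.natCast_dvd]
      exact Nat.lcm_dvd (Int.natCast_dvd.1 e1) (Int.natCast_dvd.1 e2))
    -- the first term
    have hvb0 : (0 : ℝ) < vb := by exact_mod_cast hvb1
    have hvc0 : (0 : ℝ) < vc := by exact_mod_cast hvc1
    have hcb0 : (0 : ℝ) < cb := by exact_mod_cast hcb.1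
    have hcc0 : (0 : ℝ) < cc := by exact_mod_cast hcc.1
    have t1 : 1 ≤ (H / ra) * (H / re) * (1 / (rad cb : ℝ)) * (1 / (rad cc : ℝ)) := by
      have e1 : ra * rad cc ≤ H := by
        calc ra * rad cc ≤ rad (-S - b₀).natAbs * cc :=
              Nat.mul_le_mul f10 (rad_le (by omega))
          _ ≤ (-S - b₀).natAbs := by rw [← k5]; exact co_cp_le K f3'
          _ ≤ H := f4
      have e2 : re * rad cb ≤ H := by
        calc re * rad cb ≤ rad b₀.natAbs * cb :=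
              Nat.mul_le_mul f11 (rad_le (by omega))
          _ ≤ b₀.natAbs := by rw [← k3]; exact co_cp_le K f1'
          _ ≤ H := f2
      have e1' : (ra : ℝ) * (rad cc : ℝ) ≤ H := by exact_mod_cast e1
      have e2' : (re : ℝ) * (rad cb : ℝ) ≤ H := by exact_mod_cast e2
      have e3 : 1 ≤ (H : ℝ) / (ra * (rad cc : ℝ)) := by
        rw [le_div_iff₀ (by positivity), one_mul]
        exact e1'
      have e4 : 1 ≤ (H : ℝ) / (re * (rad cb : ℝ)) := by
        rw [le_div_iff₀ (by positivity), one_mul]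
        exact e2'
      have e5 := one_le_mul_of_one_le_of_one_le e3 e4
      calc (1 : ℝ) ≤ _ := e5
        _ = _ := by field_simp
    -- the second term
    have t2 : 2 * (2 * (J : ℝ)) / q ≤ 4 * D * R / H * ((g : ℝ) / (rad K : ℝ)) *
        (1 / (rad cb : ℝ)) * (1 / (rad cc : ℝ)) := by
      have hcop : Nat.Coprime (cp K b₀.natAbs) (cp K (-S - b₀).natAbs) := by
        rw [Nat.coprime_iff_gcd_eq_one]
        by_contra hne
        obtain ⟨p, hp, hpd⟩ := Nat.exists_prime_and_dvd hne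
        have g1 := hpd.trans (Nat.gcd_dvd_left _ _)
        have g2 := hpd.trans (Nat.gcd_dvd_right _ _)
        have g3 : p ∣ g := by
          rw [← f5]
          exact Nat.dvd_gcd (g1.trans (cp_dvd K f1')) (g2.trans (cp_dvd K f3'))
        exact hp.one_lt.ne' (Nat.dvd_one.1 ((cp_coprime K b₀.natAbs) ▸
          Nat.dvd_gcd g1 (g3.trans hgK)))
      have hrad : rad (P * (b₀.natAbs * (-S - b₀).natAbs)) =
          rad (cp K b₀.natAbs) * (rad (cp K (-S - b₀).natAbs) * rad K) := by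
        rw [← Pool.Agent.H328R2.ABC.RadSumAux.rad_mul_cop (cp_coprime K (-S - b₀).natAbs),
          ← Pool.Agent.H328R2.ABC.RadSumAux.rad_mul_cop
            (Nat.Coprime.mul_right hcop (cp_coprime K b₀.natAbs))]
        refine rad_congr (mul_ne_zero hP (mul_ne_zero f1' f3'))
          (mul_ne_zero (cp_ne K f1') (mul_ne_zero (cp_ne K f3') hK)) fun p hp => ?_
        rw [hp.dvd_mul, hp.dvd_mul, hp.dvd_mul, hp.dvd_mul]
        constructor
        · rintro (h | h | h)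
          · exact Or.inr (Or.inr (hKd ▸ Dvd.dvd.mul_left h g))
          · rw [← kp_mul_cp K f1', hp.dvd_mul] at h
            rcases h with h | h
            · exact Or.inr (Or.inr (dvd_of_dvd_kp hp h))
            · exact Or.inl h
          · rw [← kp_mul_cp K f3', hp.dvd_mul] at h
            rcases h with h | h
            · exact Or.inr (Or.inr (dvd_of_dvd_kp hp h))
            · exact Or.inr (Or.inl h)
        · rintro (h | h | h)
          · exact Or.inr (Or.inl (h.trans (cp_dvd K f1')))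
          · exact Or.inr (Or.inr (h.trans (cp_dvd K f3')))
          · rw [hKd, hp.dvd_mul] at h
            rcases h with h | h
            · refine Or.inr (Or.inl (h.trans ?_))
              rw [← f5]
              exact Nat.gcd_dvd_left _ _
            · exact Or.inl h
      have e1 : vb * (rad (cp K b₀.natAbs) * cb) = b₀.natAbs := by
        rw [← k3, rad_mul_co, ← k2]
        exact kp_mul_cp K f1'
      have e2 : vc * (rad (cp K (-S - b₀).natAbs) * cc) = (-S - b₀).natAbs := by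
        rw [← k5, rad_mul_co, ← k4]
        exact kp_mul_cp K f3'
      obtain ⟨rb, hrb'⟩ : ∃ t : ℝ, t = (rad (cp K b₀.natAbs) : ℝ) := ⟨_, rfl⟩
      obtain ⟨rc, hrc'⟩ : ∃ t : ℝ, t = (rad (cp K (-S - b₀).natAbs) : ℝ) := ⟨_, rfl⟩
      have e1' : (vb : ℝ) * (rb * cb) = (b₀.natAbs : ℝ) := by
        rw [hrb']
        exact_mod_cast e1
      have e2' : (vc : ℝ) * (rc * cc) = ((-S - b₀).natAbs : ℝ) := by
        rw [hrc']
        exact_mod_cast e2
      have hrad' : rb * (rc * (rad K : ℝ)) ≤ R := by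
        rw [hrb', hrc']
        refine le_trans (le_of_eq ?_) f9
        rw [hrad]
        push_cast
        ring
      have hrb0 : 0 < rb := by rw [hrb']; exact rad_pos' _
      have hrc0 : 0 < rc := by rw [hrc']; exact rad_pos' _
      have f6' : (J : ℝ) ≤ (b₀.natAbs : ℝ) := by exact_mod_cast f6
      have f8' : (H : ℝ) ≤ D * ((-S - b₀).natAbs : ℝ) := by exact_mod_cast f8
      have hD0 : (0 : ℝ) ≤ D := Nat.cast_nonneg _
      have main : (J : ℝ) * H * (rad K : ℝ) ≤ D * R * (vb * cb * (vc * cc)) := by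
        calc (J : ℝ) * H * (rad K : ℝ) ≤ (b₀.natAbs : ℝ) * (D * ((-S - b₀).natAbs : ℝ)) *
              (rad K : ℝ) := by
              refine mul_le_mul_of_nonneg_right (mul_le_mul f6' f8' hH0.le (Nat.cast_nonneg _))
                hRK.le
          _ = D * (rb * (rc * (rad K : ℝ))) * (vb * cb * (vc * cc)) := by
              rw [← e1', ← e2']
              ring
          _ ≤ D * R * (vb * cb * (vc * cc)) :=
              mul_le_mul_of_nonneg_right (mul_le_mul_of_nonneg_left hrad' hD0) (by positivity)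
      have hqg' : ((vb : ℝ) * (cb * (rad cb : ℝ))) * (vc * (cc * (rad cc : ℝ))) ≤ g * q := by
        unfold mo at hqg
        exact_mod_cast hqg
      have hq0' : (0 : ℝ) < q := by exact_mod_cast hq0
      have hg0 : (0 : ℝ) < g := by exact_mod_cast Nat.pos_of_ne_zero hg
      rw [div_le_iff₀ hq0']
      have e6 : 4 * D * R / H * ((g : ℝ) / (rad K : ℝ)) * (1 / (rad cb : ℝ)) *
          (1 / (rad cc : ℝ)) * q = (4 * D * R * (g * q)) / (H * (rad K : ℝ) * ((rad cb : ℝ) *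
            (rad cc : ℝ))) := by
        field_simp
      rw [e6, le_div_iff₀ (by positivity)]
      calc 2 * (2 * (J : ℝ)) * (H * (rad K : ℝ) * ((rad cb : ℝ) * (rad cc : ℝ))) =
            4 * (J * H * (rad K : ℝ)) * ((rad cb : ℝ) * (rad cc : ℝ)) := by ring
        _ ≤ 4 * (D * R * (vb * cb * (vc * cc))) * ((rad cb : ℝ) * (rad cc : ℝ)) := by
            refine mul_le_mul_of_nonneg_right (mul_le_mul_of_nonneg_left main (by norm_num))
              (by positivity)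
        _ = 4 * D * R * (((vb : ℝ) * (cb * (rad cb : ℝ))) * (vc * (cc * (rad cc : ℝ)))) := by ring
        _ ≤ 4 * D * R * (g * q) := mul_le_mul_of_nonneg_left hqg' (by positivity)
    refine hcard.trans ?_
    calc 1 + 2 * (2 * (J : ℝ)) / q ≤ (H / ra) * (H / re) * (1 / (rad cb : ℝ)) *
          (1 / (rad cc : ℝ)) + 4 * D * R / H * ((g : ℝ) / (rad K : ℝ)) *
        (1 / (rad cb : ℝ)) * (1 / (rad cc : ℝ)) := add_le_add t1 t2
      _ = W * (1 / (rad cb : ℝ)) * (1 / (rad cc : ℝ)) := by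
          rw [hW]
          ring

end Pool.Agent.Q38.NG
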