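import Pool.Agent.Q38.NG.Exact

/-! The exact exponents outside small sets, and with an additive constant. -/

set_option autoImplicit false

namespace Pool.Agent.Q38.NG

open Finset Filter Topology
open Pool.Agent.Q38.AE.Cov
open Pool.Agent.Q38.NC (Adm NV lh lr ht RX ht_pos RX_pos low le_ht ht_le fin_real)

variable {n : ℕ} {Q : (Fin n → ℤ) → Prop}

/-- the property fails for few tuples -/
def Few (Q : (Fin n → ℤ) → Prop) : Prop :=
  ∃ C : ℝ, 0 ≤ C ∧ ∀ B : ℝ, 1 ≤ B → ∀ G : Finset (Fin n → ℤ),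
    (∀ x ∈ G, AdG x ∧ ¬ Q x ∧ (ht x : ℝ) ≤ B) → (G.card : ℝ) ≤ C * B ^ ((n : ℝ) - 2)

theorem finite_ht (K : ℝ) : {x : Fin n → ℤ | (ht x : ℝ) ≤ K}.Finite := by
  refine Set.Finite.subset (Finset.finite_toSet
    (Fintype.piFinset fun _ : Fin n => Icc (-(⌊K⌋₊ : ℤ)) ⌊K⌋₊)) ?_
  intro x hx
  rw [mem_coe, Fintype.mem_piFinset]
  intro j
  have h3 : (x j).natAbs ≤ ⌊K⌋₊ := by
    apply Nat.le_floor
    exact le_trans (by exact_mod_cast le_ht x j) hx
  rw [mem_Icc]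
  omega

/-- the lower bound outside a small set -/
theorem Z_low_off (hn : 4 ≤ n) (hQ : Few Q) {M : ℝ}
    (h1 : 1 / (n : ℝ) < M) (h2 : M < 1 / ((n : ℝ) - 1)) (ε : ℝ) (hε : 0 < ε) :
    ∀ᶠ B : ℝ in atTop, B ^ (1 / M - 1 - ε) ≤ ((Z (fun x => AdG x ∧ Q x) M B).ncard : ℝ) := by
  classical
  obtain ⟨hM0, hM1, h3, h4⟩ := inv_facts hn h1 h2
  obtain ⟨C, hC, hfew⟩ := hQ
  obtain ⟨ε', hε'⟩ : ∃ ε', ε' = min ε ((1 / M - 1 - ((n : ℝ) - 2)) / 2) := ⟨_, rfl⟩
  have hε'0 : 0 < ε' := by rw [hε']; exact lt_min hε (by linarith)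
  have hε'1 : ε' ≤ ε := by rw [hε']; exact min_le_left _ _
  have hε'2 : ε' ≤ (1 / M - 1 - ((n : ℝ) - 2)) / 2 := by rw [hε']; exact min_le_right _ _
  have hlow := Z_low (P := AdG) hn (fun _ h => h)
    (fun x h h' => adG_of_adm (by omega) h h') h1 h2 (ε' / 2) (by positivity)
  obtain ⟨C1, -, hup⟩ := Z_up (P := AdG) hn (fun _ h => h) h1 h2 1 one_pos
  -- the main term dominates
  have hdom : ∀ᶠ B : ℝ in atTop, (1 + C) ≤ B ^ (ε' / 2) :=
    (tendsto_rpow_atTop (show 0 < ε' / 2 by positivity)).eventually_ge_atTop _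
  filter_upwards [hlow, eventually_ge_atTop 1, hdom] with B hB hB1 hB2
  have hB0 : 0 < B := by linarith
  have hfin := (hup B hB1).1
  obtain ⟨T, hT⟩ : ∃ T, T = hfin.toFinset.filter (fun x => ¬ Q x) := ⟨_, rfl⟩
  have hTc : (T.card : ℝ) ≤ C * B ^ ((n : ℝ) - 2) := by
    refine hfew B hB1 T ?_
    intro x hx
    rw [hT, mem_filter, Set.Finite.mem_toFinset] at hx
    obtain ⟨⟨k1, k2, -⟩, k3⟩ := hx
    refine ⟨k1, k3, ?_⟩
    have hpos : (0 : ℝ) < ht x := by exact_mod_cast ht_pos' (by omega) k1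
    unfold lh at k2
    rwa [Real.exp_log hpos] at k2
  have hcov : Z AdG M B ⊆ Z (fun x => AdG x ∧ Q x) M B ∪ (T : Set (Fin n → ℤ)) := by
    intro x hx
    by_cases hq : Q x
    · exact Or.inl ⟨⟨hx.1, hq⟩, hx.2⟩
    · right
      rw [hT, mem_coe, mem_filter, Set.Finite.mem_toFinset]
      exact ⟨hx, hq⟩
  have hfin2 : (Z (fun x => AdG x ∧ Q x) M B).Finite := hfin.subset fun x hx => ⟨hx.1.1, hx.2⟩
  have hc1 : ((Z (n := n) AdG M B).ncard : ℝ) ≤ ((Z (fun x => AdG x ∧ Q x) M B).ncard : ℝ) + T.card := by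
    have e1 := Set.ncard_le_ncard hcov (hfin2.union T.finite_toSet)
    have e2 := Set.ncard_union_le (Z (fun x => AdG x ∧ Q x) M B) (T : Set (Fin n → ℤ))
    rw [Set.ncard_coe_finset] at e2
    exact_mod_cast e1.trans e2
  have e1 : B ^ ((n : ℝ) - 2) ≤ B ^ (1 / M - 1 - ε') :=
    Real.rpow_le_rpow_of_exponent_le hB1 (by linarith)
  have e2 : B ^ (1 / M - 1 - ε) ≤ B ^ (1 / M - 1 - ε') :=
    Real.rpow_le_rpow_of_exponent_le hB1 (by linarith)
  have e3 : B ^ (1 / M - 1 - ε' / 2) = B ^ (1 / M - 1 - ε') * B ^ (ε' / 2) := by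
    rw [← Real.rpow_add hB0]
    congr 1
    ring
  rw [e3] at hB
  have e4 : 0 < B ^ (1 / M - 1 - ε') := by positivity
  nlinarith [mul_le_mul_of_nonneg_left hB2 e4.le, mul_le_mul_of_nonneg_left e1 hC]

/-- the lower bound by the radical outside a small set -/
theorem F_low_off (hn : 4 ≤ n) (hQ : Few Q) {M L : ℝ}
    (h1 : 1 / (n : ℝ) < M) (h2 : M < 1 / ((n : ℝ) - 1)) (hML : M < L)
    (hL : L ≤ (1 - M) / ((n : ℝ) - 2)) {ε : ℝ} (hε : 0 < ε) :
    ∃ X₀ : ℝ, ∀ X : ℝ, X₀ ≤ X →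
      X ^ (1 - M - ε) ≤ ((F (fun x => AdG x ∧ Q x) lh lr M L X).ncard : ℝ) := by
  obtain ⟨hM0, hM1, h3, h4⟩ := inv_facts hn h1 h2
  have hn4 : (4 : ℝ) ≤ n := by exact_mod_cast hn
  have hn2 : (0 : ℝ) < (n : ℝ) - 2 := by linarith
  have hL0 : 0 < L := by linarith
  have hL1 : L ≤ 1 := by
    rw [le_div_iff₀ hn2] at hL
    nlinarith
  obtain ⟨g', hg'⟩ : ∃ g', g' = max ((n : ℝ) - 2) (1 / L - 1) := ⟨_, rfl⟩
  have hg1 : g' < 1 / M - 1 := by
    rw [hg']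
    refine max_lt (by linarith) ?_
    have := one_div_lt_one_div_of_lt hM0 hML
    linarith
  obtain ⟨ε', hε'⟩ : ∃ ε', ε' = min (ε / 2) ((1 / M - 1 - g') / 2) := ⟨_, rfl⟩
  have hε'0 : 0 < ε' := by
    rw [hε']
    exact lt_min (by linarith) (by linarith)
  have hε'1 : ε' ≤ ε / 2 := by rw [hε']; exact min_le_left _ _
  have hε'2 : ε' ≤ (1 / M - 1 - g') / 2 := by rw [hε']; exact min_le_right _ _
  have hlow := lower (P := fun x => AdG x ∧ Q x) (h := lh) (N := lr) (M := M) (L := L) (L' := L)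
    (g := 1 / M - 1 - ε') (g' := g') (ε := ε / 2) hM0 hML le_rfl
    (fun x hx => lh_nonneg (by omega) hx.1)
    ⟨1, one_pos, by
      filter_upwards [Z_low_off hn hQ h1 h2 ε' hε'0] with B hB
      rw [one_mul]
      exact hB⟩
    (fun X hX => by
      obtain ⟨C, -, hC⟩ := E_up (P := fun x => AdG x ∧ Q x) hn (fun _ h => h.1) h1 h2 hML hL one_pos
      exact (hC X hX).1)
    (fun δ hδ => by
      rw [hg']
      exact A_le hn (fun _ h => h.1) hL0 hL1 δ hδ) (by linarith) (by linarith)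
  obtain ⟨X₀, hX₀⟩ := hlow
  refine ⟨max X₀ 1, fun X hX => ?_⟩
  have hX1 : 1 ≤ X := (le_max_right _ _).trans hX
  refine le_trans ?_ (hX₀ X ((le_max_left _ _).trans hX))
  refine Real.rpow_le_rpow_of_exponent_le hX1 ?_
  have e1 : M * (1 / M - 1 - ε') = 1 - M - M * ε' := by field_simp
  rw [e1]
  nlinarith

/-- height at most `log B`, violation of the inequality with constants `M` and `c` -/
def Zc (P : (Fin n → ℤ) → Prop) (M c B : ℝ) : Set (Fin n → ℤ) :=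
  {x | P x ∧ Real.exp (lh x) ≤ B ∧ M * lr x + c ≤ lh x}

/-- radical at most `log X`, height between `M rad + c` and `L rad` -/
def Fc (P : (Fin n → ℤ) → Prop) (M L c X : ℝ) : Set (Fin n → ℤ) :=
  {x | P x ∧ Real.exp (lr x) ≤ X ∧ M * lr x + c ≤ lh x ∧ lh x < L * lr x}

theorem lr_nonneg (x : Fin n → ℤ) : 0 ≤ lr x := Real.log_nonneg (by exact_mod_cast RX_pos x)

/-- few tuples are lost when the constant is changed -/
theorem lost {M M' c : ℝ} (hM'0 : 0 < M') (hMM : M' < M) {x : Fin n → ℤ} (hx : 0 < ht x)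
    (h1 : M * lr x + c ≤ lh x) (h2 : lh x ≤ M' * lr x) :
    (ht x : ℝ) ≤ Real.exp (M' * (|c| / (M - M'))) := by
  have h3 : (M - M') * lr x ≤ -c := by linarith
  have h4 : lr x ≤ |c| / (M - M') := by
    rw [le_div_iff₀ (by linarith)]
    linarith [neg_abs_le c]
  have h5 : lh x ≤ M' * (|c| / (M - M')) := h2.trans (mul_le_mul_of_nonneg_left h4 hM'0.le)
  have hx' : (0 : ℝ) < ht x := by exact_mod_cast hx
  unfold lh at h5
  rwa [Real.log_le_iff_le_exp hx'] at h5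

variable {P : (Fin n → ℤ) → Prop}

theorem Zc_up (hn : 4 ≤ n) (hP : ∀ x, P x → AdG x) {M : ℝ} (h1 : 1 / (n : ℝ) < M) (c : ℝ)
    (ε : ℝ) (hε : 0 < ε) : ∃ C : ℝ, 0 < C ∧ ∀ B : ℝ, 1 ≤ B →
    (Zc P M c B).Finite ∧
      ((Zc P M c B).ncard : ℝ) ≤ C * B ^ (max ((n : ℝ) - 2) (1 / M - 1) + ε) := by
  have hn4 : (4 : ℝ) ≤ n := by exact_mod_cast hn
  have hn0 : (0 : ℝ) < n := by linarith
  have hM0 : 0 < M := lt_trans (by positivity) h1
  obtain ⟨g, hg⟩ : ∃ g : ℝ, g = max ((n : ℝ) - 2) (1 / M - 1) := ⟨_, rfl⟩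
  have hg1 : (n : ℝ) - 2 ≤ g := by rw [hg]; exact le_max_left _ _
  have hg2 : 1 / M - 1 ≤ g := by rw [hg]; exact le_max_right _ _
  obtain ⟨M', hM'⟩ : ∃ M' : ℝ, M' = 1 / (g + 1 + ε / 2) := ⟨_, rfl⟩
  have hM'0 : 0 < M' := by rw [hM']; exact one_div_pos.2 (by linarith)
  have hMM : M' < M := by
    rw [hM', div_lt_iff₀ (by linarith)]
    have : 1 / M < g + 1 + ε / 2 := by linarith
    rw [div_lt_iff₀ hM0] at this
    linarith
  have hM'1 : M' ≤ 1 := by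
    rw [hM', div_le_one (by linarith)]
    linarith
  have hinv : 1 / M' - 1 = g + ε / 2 := by
    rw [hM', one_div_one_div]
    ring
  obtain ⟨C, hC⟩ := A_le (P := P) hn hP hM'0 hM'1 (ε / 2) (by positivity)
  have e : max ((n : ℝ) - 2) (1 / M' - 1) + ε / 2 = g + ε := by
    rw [hinv, max_eq_right (by linarith)]
    ring
  rw [e] at hC
  obtain ⟨D, hD⟩ : ∃ D : Set (Fin n → ℤ), D =
    {x | (ht x : ℝ) ≤ Real.exp (M' * (|c| / (M - M')))} := ⟨_, rfl⟩
  have hDfin : D.Finite := by rw [hD]; exact finite_ht _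
  rw [← hg]
  refine ⟨|C| + D.ncard + 1, by positivity, fun B hB => ?_⟩
  obtain ⟨f, hc⟩ := hC B hB
  have hsub : Zc P M c B ⊆ A P lh lr M' B ∪ D := by
    intro x hx
    by_cases hlt : lh x ≤ M' * lr x
    · right
      rw [hD]
      exact lost hM'0 hMM (ht_pos' (by omega) (hP x hx.1)) hx.2.2 hlt
    · left
      refine ⟨hx.1, hx.2.1, ?_⟩
      push Not at hlt
      have : lr x < 1 / M' * lh x := by
        rw [one_div, ← div_eq_inv_mul, lt_div_iff₀ hM'0]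
        linarith
      linarith
  have hfin := (f.union hDfin).subset hsub
  refine ⟨hfin, ?_⟩
  have h5 : ((Zc P M c B).ncard : ℝ) ≤ ((A P lh lr M' B).ncard : ℝ) + (D.ncard : ℝ) := by
    have e1 := Set.ncard_le_ncard hsub (f.union hDfin)
    exact_mod_cast e1.trans (Set.ncard_union_le _ _)
  have hB1 : 1 ≤ B ^ (g + ε) := Real.one_le_rpow hB (by linarith)
  have h6 : C * B ^ (g + ε) ≤ |C| * B ^ (g + ε) :=
    mul_le_mul_of_nonneg_right (le_abs_self C) (by positivity)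
  have h7 : (D.ncard : ℝ) ≤ (D.ncard : ℝ) * B ^ (g + ε) :=
    le_mul_of_one_le_right (Nat.cast_nonneg _) hB1
  calc ((Zc P M c B).ncard : ℝ) ≤ |C| * B ^ (g + ε) + (D.ncard : ℝ) * B ^ (g + ε) := by
        linarith
    _ ≤ (|C| + D.ncard + 1) * B ^ (g + ε) := by nlinarith

theorem Zc_low (hn : 4 ≤ n) (hQ : Few Q) {M : ℝ} (h1 : 1 / (n : ℝ) < M)
    (h2 : M < 1 / ((n : ℝ) - 1)) (c : ℝ) (ε : ℝ) (hε : 0 < ε) :
    ∃ X₀ : ℝ, ∀ B : ℝ, X₀ ≤ B →
      B ^ (1 / M - 1 - ε) ≤ ((Zc (fun x => AdG x ∧ Q x) M c B).ncard : ℝ) := by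
  obtain ⟨hM0, hM1, h3, h4⟩ := inv_facts hn h1 h2
  have hn4 : (4 : ℝ) ≤ n := by exact_mod_cast hn
  -- the larger constant
  obtain ⟨ε', hε'⟩ : ∃ ε', ε' = min (ε / 4) ((1 / M - 1 - ((n : ℝ) - 2)) / 2) := ⟨_, rfl⟩
  have hε'0 : 0 < ε' := by rw [hε']; exact lt_min (by linarith) (by linarith)
  have hε'1 : ε' ≤ ε / 4 := by rw [hε']; exact min_le_left _ _
  have hε'2 : ε' ≤ (1 / M - 1 - ((n : ℝ) - 2)) / 2 := by rw [hε']; exact min_le_right _ _
  obtain ⟨N, hN⟩ : ∃ N : ℝ, N = 1 / (1 / M - ε') := ⟨_, rfl⟩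
  have hpos : 0 < 1 / M - ε' := by linarith
  have hN0 : 0 < N := by rw [hN]; exact one_div_pos.2 hpos
  have hMN : M < N := by
    rw [hN, lt_div_iff₀ hpos]
    have : M * (1 / M - ε') = 1 - M * ε' := by field_simp
    rw [this]
    nlinarith
  have hN2 : N < 1 / ((n : ℝ) - 1) := by
    rw [hN]
    exact one_div_lt_one_div_of_lt (by linarith) (by linarith)
  have hNinv : 1 / N = 1 / M - ε' := by rw [hN, one_div_one_div]
  have hlow := Z_low_off hn hQ (h1.trans hMN) hN2 ε' hε'0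
  obtain ⟨K, hK⟩ : ∃ K : ℝ, K = M * (|c| / (N - M)) + |c| := ⟨_, rfl⟩
  obtain ⟨D, hD⟩ : ∃ D : Set (Fin n → ℤ), D = {x | (ht x : ℝ) ≤ Real.exp K} := ⟨_, rfl⟩
  have hDfin : D.Finite := by rw [hD]; exact finite_ht _
  have hdom : ∀ᶠ B : ℝ in atTop, (1 + (D.ncard : ℝ)) ≤ B ^ (ε' / 2) :=
    (tendsto_rpow_atTop (show 0 < ε' / 2 by positivity)).eventually_ge_atTop _
  obtain ⟨X₀, hX₀⟩ := eventually_atTop.1 (hlow.and (hdom.and (eventually_ge_atTop (1 : ℝ))))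
  refine ⟨X₀, fun B hB => ?_⟩
  obtain ⟨k1, k2, k3⟩ := hX₀ B hB
  have hB0 : 0 < B := by linarith
  obtain ⟨C1, -, hup⟩ := Zc_up (P := fun x => AdG x ∧ Q x) hn (fun _ h => h.1) h1 c 1 one_pos
  have hfin := (hup B k3).1
  have hsub : Z (fun x => AdG x ∧ Q x) N B ⊆ Zc (fun x => AdG x ∧ Q x) M c B ∪ D := by
    intro x hx
    obtain ⟨g1, g2, g3⟩ := hx
    by_cases hlt : M * lr x + c ≤ lh x
    · exact Or.inl ⟨g1, g2, hlt⟩
    · right
      push Not at hlt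
      have h5 : N * lr x < lh x := by
        rw [one_div, ← div_eq_inv_mul, lt_div_iff₀ hN0] at g3
        linarith
      have h6 : (N - M) * lr x < c := by linarith
      have h7 : lr x ≤ |c| / (N - M) := by
        rw [le_div_iff₀ (by linarith)]
        linarith [le_abs_self c]
      have h8 : lh x ≤ K := by
        rw [hK]
        have := mul_le_mul_of_nonneg_left h7 hM0.le
        linarith [le_abs_self c]
      have hx' : (0 : ℝ) < ht x := by exact_mod_cast ht_pos' (by omega) g1.1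
      rw [hD]
      unfold lh at h8
      rwa [Real.log_le_iff_le_exp hx'] at h8
  have hc1 : ((Z (fun x => AdG x ∧ Q x) N B).ncard : ℝ) ≤
      ((Zc (fun x => AdG x ∧ Q x) M c B).ncard : ℝ) + D.ncard := by
    have e1 := Set.ncard_le_ncard hsub (hfin.union hDfin)
    exact_mod_cast e1.trans (Set.ncard_union_le _ _)
  rw [hNinv] at k1
  have e1 : 1 / M - ε' - 1 - ε' = (1 / M - 1 - ε) + (ε - 2 * ε') := by ring
  rw [e1, Real.rpow_add hB0] at k1
  have e2 : B ^ (ε' / 2) ≤ B ^ (ε - 2 * ε') := Real.rpow_le_rpow_of_exponent_le k3 (by linarith)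
  have e3 : 0 < B ^ (1 / M - 1 - ε) := by positivity
  have e4 := mul_le_mul_of_nonneg_left (k2.trans e2) e3.le
  by_cases hbig : 1 ≤ B ^ (1 / M - 1 - ε)
  · have h9 : (D.ncard : ℝ) ≤ B ^ (1 / M - 1 - ε) * D.ncard :=
      le_mul_of_one_le_left (Nat.cast_nonneg _) hbig
    nlinarith
  · push Not at hbig
    -- the set is not empty
    have h10 : (1 + (D.ncard : ℝ)) ≤ ((Z (fun x => AdG x ∧ Q x) N B).ncard : ℝ) := by
      have h12 : B ^ (ε' / 2) ≤ B ^ (1 / M - ε' - 1 - ε') := by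
        refine Real.rpow_le_rpow_of_exponent_le k3 ?_
        linarith
      rw [e1, Real.rpow_add hB0] at h12
      exact (k2.trans h12).trans k1
    linarith

end Pool.Agent.Q38.NG
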