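import Pool.Agent.Q38.NG.Off
import Mathlib.Algebra.MvPolynomial.SchwartzZippel

/-! The count by the radical, with an additive constant; zeros of polynomials. -/

set_option autoImplicit false

namespace Pool.Agent.Q38.NG

open Finset Filter Topology
open Pool.Agent.Q38.AE.Cov
open Pool.Agent.Q38.NC (Adm NV lh lr ht RX ht_pos RX_pos low le_ht ht_le fin_real)

variable {n : ℕ} {Q P : (Fin n → ℤ) → Prop}

theorem Fc_up (hn : 4 ≤ n) (hP : ∀ x, P x → AdG x) {M L : ℝ} (h1 : 1 / (n : ℝ) < M)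
    (h2 : M < 1 / ((n : ℝ) - 1)) (hML : M < L) (hL : L ≤ (1 - M) / ((n : ℝ) - 2)) (c : ℝ)
    (ε : ℝ) (hε : 0 < ε) : ∃ C : ℝ, 0 < C ∧ ∀ X : ℝ, 1 ≤ X →
    (Fc P M L c X).Finite ∧ ((Fc P M L c X).ncard : ℝ) ≤ C * X ^ (1 - M + ε) := by
  obtain ⟨hM0, hM1, h3, h4⟩ := inv_facts hn h1 h2
  have hn4 : (4 : ℝ) ≤ n := by exact_mod_cast hn
  have hn2 : (0 : ℝ) < (n : ℝ) - 2 := by linarith
  obtain ⟨M', hM'⟩ : ∃ M' : ℝ, M' = max ((1 / (n : ℝ) + M) / 2) (M - ε / 2) := ⟨_, rfl⟩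
  have hM'1 : 1 / (n : ℝ) < M' := by
    rw [hM']
    exact lt_of_lt_of_le (by linarith) (le_max_left _ _)
  have hMM : M' < M := by
    rw [hM']
    exact max_lt (by linarith) (by linarith)
  have hM'2 : M - ε / 2 ≤ M' := by rw [hM']; exact le_max_right _ _
  have hM'0 : 0 < M' := lt_trans (by positivity) hM'1
  have hL' : L ≤ (1 - M') / ((n : ℝ) - 2) := by
    refine hL.trans ?_
    rw [div_le_div_iff_of_pos_right hn2]
    linarith
  obtain ⟨C, hC, hup⟩ := E_up (P := P) hn hP hM'1 (hMM.trans h2) (hMM.trans hML) hL'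
    (show 0 < ε / 2 by positivity)
  obtain ⟨D, hD⟩ : ∃ D : Set (Fin n → ℤ), D =
    {x | (ht x : ℝ) ≤ Real.exp (M' * (|c| / (M - M')))} := ⟨_, rfl⟩
  have hDfin : D.Finite := by rw [hD]; exact finite_ht _
  refine ⟨C + D.ncard, by positivity, fun X hX => ?_⟩
  have hX0 : 0 < X := by linarith
  obtain ⟨f, hc⟩ := hup X hX
  have hsub : Fc P M L c X ⊆ E P lh lr M' L X ∪ D := by
    intro x hx
    obtain ⟨g1, g2, g3, g4⟩ := hx
    by_cases hlt : lh x ≤ M' * lr x
    · right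
      rw [hD]
      exact lost hM'0 hMM (ht_pos' (by omega) (hP x g1)) g3 hlt
    · left
      refine F_sub (by linarith) hX0 ⟨g1, g2, ?_, g4⟩
      exact (not_le.1 hlt).le
  have hfin := (f.union hDfin).subset hsub
  refine ⟨hfin, ?_⟩
  have h5 : ((Fc P M L c X).ncard : ℝ) ≤ ((E P lh lr M' L X).ncard : ℝ) + (D.ncard : ℝ) := by
    have e1 := Set.ncard_le_ncard hsub (f.union hDfin)
    exact_mod_cast e1.trans (Set.ncard_union_le _ _)
  have h6 : X ^ (1 - M' + ε / 2) ≤ X ^ (1 - M + ε) :=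
    Real.rpow_le_rpow_of_exponent_le hX (by linarith)
  have h7 : 1 ≤ X ^ (1 - M + ε) := Real.one_le_rpow hX (by linarith)
  have h8 : (D.ncard : ℝ) ≤ (D.ncard : ℝ) * X ^ (1 - M + ε) :=
    le_mul_of_one_le_right (Nat.cast_nonneg _) h7
  calc ((Fc P M L c X).ncard : ℝ) ≤ C * X ^ (1 - M' + ε / 2) + (D.ncard : ℝ) := by linarith
    _ ≤ C * X ^ (1 - M + ε) + (D.ncard : ℝ) * X ^ (1 - M + ε) :=
        add_le_add (mul_le_mul_of_nonneg_left h6 hC.le) h8
    _ = _ := by ring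

theorem Fc_low (hn : 4 ≤ n) (hQ : Few Q) {M L : ℝ} (h1 : 1 / (n : ℝ) < M)
    (h2 : M < 1 / ((n : ℝ) - 1)) (hML : M < L) (hL : L ≤ (1 - M) / ((n : ℝ) - 2)) (c : ℝ)
    (ε : ℝ) (hε : 0 < ε) : ∃ X₀ : ℝ, ∀ X : ℝ, X₀ ≤ X →
      X ^ (1 - M - ε) ≤ ((Fc (fun x => AdG x ∧ Q x) M L c X).ncard : ℝ) := by
  obtain ⟨hM0, hM1, h3, h4⟩ := inv_facts hn h1 h2
  have hn4 : (4 : ℝ) ≤ n := by exact_mod_cast hn
  have hn2 : (0 : ℝ) < (n : ℝ) - 2 := by linarith
  have hn1 : (0 : ℝ) < (n : ℝ) - 1 := by linarith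
  -- between `M` and the larger constant there is room
  have hroom : M < (1 - M) / ((n : ℝ) - 2) := hML.trans_le hL
  obtain ⟨τ, hτ⟩ : ∃ τ : ℝ, τ = min (min (ε / 4) ((1 - M) / 4))
    (min ((1 / ((n : ℝ) - 1) - M) / 2) ((L - M) / (4 * n))) := ⟨_, rfl⟩
  have hτ0 : 0 < τ := by
    rw [hτ]
    refine lt_min (lt_min (by linarith) (by linarith)) (lt_min (by linarith) ?_)
    exact div_pos (by linarith) (by linarith)
  have hτ1 : τ ≤ ε / 4 := by rw [hτ]; exact (min_le_left _ _).trans (min_le_left _ _)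
  have hτ2 : τ ≤ (1 - M) / 4 := by rw [hτ]; exact (min_le_left _ _).trans (min_le_right _ _)
  have hτ3 : τ ≤ (1 / ((n : ℝ) - 1) - M) / 2 := by
    rw [hτ]; exact (min_le_right _ _).trans (min_le_left _ _)
  have hτ4 : τ ≤ (L - M) / (4 * n) := by
    rw [hτ]; exact (min_le_right _ _).trans (min_le_right _ _)
  obtain ⟨N, hN⟩ : ∃ N : ℝ, N = M + τ := ⟨_, rfl⟩
  have hMN : M < N := by rw [hN]; linarith
  have hN2 : N < 1 / ((n : ℝ) - 1) := by rw [hN]; linarith
  obtain ⟨L', hL'⟩ : ∃ L' : ℝ, L' = min L ((1 - N) / ((n : ℝ) - 2)) := ⟨_, rfl⟩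
  have hNL : N < L' := by
    rw [hL', hN]
    refine lt_min ?_ ?_
    · rw [le_div_iff₀ (by linarith)] at hτ4
      nlinarith
    · rw [lt_div_iff₀ hn2]
      rw [le_div_iff₀ (by linarith)] at hτ4
      rw [le_div_iff₀ hn2] at hL
      nlinarith
  have hlow := F_low_off hn hQ (h1.trans hMN) hN2 hNL (by rw [hL']; exact min_le_right _ _)
    (show 0 < ε / 4 by positivity)
  obtain ⟨X₁, hX₁⟩ := hlow
  obtain ⟨K, hK⟩ : ∃ K : ℝ, K = M * (|c| / (N - M)) + |c| := ⟨_, rfl⟩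
  obtain ⟨D, hD⟩ : ∃ D : Set (Fin n → ℤ), D = {x | (ht x : ℝ) ≤ Real.exp K} := ⟨_, rfl⟩
  have hDfin : D.Finite := by rw [hD]; exact finite_ht _
  obtain ⟨ρ, hρ⟩ : ∃ ρ : ℝ, ρ = min (ε / 4) ((1 - M) / 4) := ⟨_, rfl⟩
  have hρ0 : 0 < ρ := by rw [hρ]; exact lt_min (by linarith) (by linarith)
  have hρ1 : ρ ≤ ε / 4 := by rw [hρ]; exact min_le_left _ _
  have hρ2 : ρ ≤ (1 - M) / 4 := by rw [hρ]; exact min_le_right _ _
  have hdom : ∀ᶠ B : ℝ in atTop, (1 + (D.ncard : ℝ)) ≤ B ^ ρ :=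
    (tendsto_rpow_atTop hρ0).eventually_ge_atTop _
  obtain ⟨X₂, hX₂⟩ := eventually_atTop.1 hdom
  -- a second lower bound, to see that the set is not small
  obtain ⟨X₃, hX₃⟩ := F_low_off hn hQ (h1.trans hMN) hN2 hNL (by rw [hL']; exact min_le_right _ _)
    hρ0
  refine ⟨max (max X₁ X₂) (max X₃ 1), fun X hX => ?_⟩
  have k1 := hX₁ X ((le_max_left _ _).trans ((le_max_left _ _).trans hX))
  have k2 := hX₂ X ((le_max_right _ _).trans ((le_max_left _ _).trans hX))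
  have k3 := hX₃ X ((le_max_left _ _).trans ((le_max_right _ _).trans hX))
  have hX1 : 1 ≤ X := (le_max_right _ _).trans ((le_max_right _ _).trans hX)
  have hX0 : 0 < X := by linarith
  obtain ⟨C1, -, hup⟩ := Fc_up (P := fun x => AdG x ∧ Q x) hn (fun _ h => h.1) h1 h2 hML hL c 1
    one_pos
  have hfin := (hup X hX1).1
  have hsub : F (fun x => AdG x ∧ Q x) lh lr N L' X ⊆
      Fc (fun x => AdG x ∧ Q x) M L c X ∪ D := by
    intro x hx
    obtain ⟨g1, g2, g3, g4⟩ := hx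
    by_cases hlt : M * lr x + c ≤ lh x
    · refine Or.inl ⟨g1, g2, hlt, lt_of_lt_of_le g4 ?_⟩
      refine mul_le_mul_of_nonneg_right ?_ (lr_nonneg x)
      rw [hL']
      exact min_le_left _ _
    · right
      push Not at hlt
      have h6 : (N - M) * lr x < c := by linarith
      have h7 : lr x ≤ |c| / (N - M) := by
        rw [le_div_iff₀ (by linarith)]
        linarith [le_abs_self c]
      have h8 : lh x ≤ K := by
        rw [hK]
        have := mul_le_mul_of_nonneg_left h7 hM0.le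
        linarith [le_abs_self c]
      have hx' : (0 : ℝ) < ht x := by exact_mod_cast ht_pos' (by omega) g1.1
      rw [hD]
      unfold lh at h8
      rwa [Real.log_le_iff_le_exp hx'] at h8
  have hc1 : ((F (fun x => AdG x ∧ Q x) lh lr N L' X).ncard : ℝ) ≤
      ((Fc (fun x => AdG x ∧ Q x) M L c X).ncard : ℝ) + D.ncard := by
    have e1 := Set.ncard_le_ncard hsub (hfin.union hDfin)
    exact_mod_cast e1.trans (Set.ncard_union_le _ _)
  have e1 : 1 - N - ε / 4 = (1 - M - ε) + (ε - ε / 4 - τ) := by rw [hN]; ring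
  rw [e1, Real.rpow_add hX0] at k1
  have e2 : X ^ ρ ≤ X ^ (ε - ε / 4 - τ) := Real.rpow_le_rpow_of_exponent_le hX1 (by linarith)
  have e3 : 0 < X ^ (1 - M - ε) := by positivity
  have e4 := mul_le_mul_of_nonneg_left (k2.trans e2) e3.le
  by_cases hbig : 1 ≤ X ^ (1 - M - ε)
  · have h9 : (D.ncard : ℝ) ≤ X ^ (1 - M - ε) * D.ncard :=
      le_mul_of_one_le_left (Nat.cast_nonneg _) hbig
    nlinarith
  · push Not at hbig
    have h12 : X ^ ρ ≤ X ^ (1 - N - ρ) := by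
      refine Real.rpow_le_rpow_of_exponent_le hX1 ?_
      rw [hN]
      linarith
    have h10 := (k2.trans h12).trans k3
    linarith

/-- the zeros of a polynomial in a box -/
theorem few_zeros {m : ℕ} (G : MvPolynomial (Fin (m + 1)) ℚ) (hG : G ≠ 0) (B : ℕ)
    (T : Finset (Fin (m + 1) → ℤ)) (hT : ∀ z ∈ T, (∀ i, (z i).natAbs ≤ B) ∧
      MvPolynomial.eval (fun i => (z i : ℚ)) G = 0) :
    T.card ≤ G.totalDegree * (2 * B + 1) ^ m := by
  classical
  obtain ⟨S, hS⟩ : ∃ S : Finset ℚ, S = (Icc (-(B : ℤ)) B).image (fun z : ℤ => (z : ℚ)) := ⟨_, rfl⟩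
  have hScard : S.card = 2 * B + 1 := by
    rw [hS, card_image_of_injective _ Int.cast_injective, Int.card_Icc]
    omega
  have h1 := MvPolynomial.schwartz_zippel_totalDegree hG S
  have h2 : T.card ≤ ((Fintype.piFinset fun _ : Fin (m + 1) => S).filter
      (fun f => MvPolynomial.eval f G = 0)).card := by
    refine card_le_card_of_injOn (fun z i => (z i : ℚ)) ?_ ?_
    · intro z hz
      rw [mem_coe] at hz
      obtain ⟨k1, k2⟩ := hT z hz
      rw [mem_coe, mem_filter, Fintype.mem_piFinset]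
      refine ⟨fun i => ?_, k2⟩
      rw [hS]
      refine mem_image_of_mem _ ?_
      rw [mem_Icc]
      have := k1 i
      omega
    · intro z _ z' _ h
      funext i
      have := congrFun h i
      simp only at this
      exact_mod_cast this
  rw [hScard] at h1
  have h3 : (0 : NNRat) < ((2 * B + 1 : ℕ) : NNRat) := by exact_mod_cast Nat.succ_pos _
  rw [div_le_div_iff₀ (pow_pos h3 _) h3] at h1
  have h4 : ((Fintype.piFinset fun _ : Fin (m + 1) => S).filter
      (fun f => MvPolynomial.eval f G = 0)).card * (2 * B + 1) ≤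
      G.totalDegree * (2 * B + 1) ^ (m + 1) := by exact_mod_cast h1
  have h5 : ((Fintype.piFinset fun _ : Fin (m + 1) => S).filter
      (fun f => MvPolynomial.eval f G = 0)).card ≤ G.totalDegree * (2 * B + 1) ^ m := by
    refine Nat.le_of_mul_le_mul_right ?_ (Nat.succ_pos (2 * B))
    calc _ ≤ G.totalDegree * (2 * B + 1) ^ (m + 1) := h4
      _ = G.totalDegree * (2 * B + 1) ^ m * (2 * B).succ := by
          rw [pow_succ, Nat.succ_eq_add_one]
          ring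
  exact h2.trans h5

end Pool.Agent.Q38.NG
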