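import Pool.Agent.Q38.NC.Up

/-! The part of an integer composed of given primes. -/

set_option autoImplicit false

namespace Pool.Agent.Q38.NG

open Finset
open Pool.Agent.H328R2.ABC (rad sum_inv_rad)
open Pool.Agent.Q38.NC

/-- the part of `a` composed of the primes dividing `K` -/
def kp (K a : ℕ) : ℕ := ∏ p ∈ a.primeFactors.filter (fun p => p ∣ K), p ^ a.factorization p

/-- the part of `a` prime to `K` -/
def cp (K a : ℕ) : ℕ := ∏ p ∈ a.primeFactors.filter (fun p => ¬ p ∣ K), p ^ a.factorization p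

theorem kp_mul_cp (K : ℕ) {a : ℕ} (ha : a ≠ 0) : kp K a * cp K a = a := by
  unfold kp cp
  rw [Finset.prod_filter_mul_prod_filter_not]
  exact Nat.prod_factorization_pow_eq_self ha

theorem cp_coprime (K a : ℕ) : Nat.Coprime (cp K a) K := by
  unfold cp
  refine Nat.Coprime.prod_left fun p hp => ?_
  rw [mem_filter] at hp
  exact Nat.Coprime.pow_left _ ((Nat.Prime.coprime_iff_not_dvd
    (Nat.prime_of_mem_primeFactors hp.1)).2 hp.2)

theorem dvd_of_dvd_kp {K a p : ℕ} (hp : p.Prime) (h : p ∣ kp K a) : p ∣ K := by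
  unfold kp at h
  obtain ⟨q, hq, hpq⟩ := (Prime.dvd_finsetProd_iff hp.prime _).1 h
  rw [mem_filter] at hq
  have h1 := hp.dvd_of_dvd_pow hpq
  rw [(Nat.prime_dvd_prime_iff_eq hp (Nat.prime_of_mem_primeFactors hq.1)).1 h1]
  exact hq.2

theorem kp_ne (K : ℕ) {a : ℕ} (ha : a ≠ 0) : kp K a ≠ 0 := fun h => ha (by
  rw [← kp_mul_cp K ha, h, zero_mul])

theorem cp_ne (K : ℕ) {a : ℕ} (ha : a ≠ 0) : cp K a ≠ 0 := fun h => ha (by
  rw [← kp_mul_cp K ha, h, mul_zero])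

theorem kp_dvd (K : ℕ) {a : ℕ} (ha : a ≠ 0) : kp K a ∣ a := ⟨_, (kp_mul_cp K ha).symm⟩

theorem cp_dvd (K : ℕ) {a : ℕ} (ha : a ≠ 0) : cp K a ∣ a :=
  ⟨kp K a, by rw [mul_comm]; exact (kp_mul_cp K ha).symm⟩

/-- a divisor of `a` composed of primes of `K` divides the `K`-part -/
theorem dvd_kp {K a d : ℕ} (ha : a ≠ 0) (hd : d ∣ a) (h : ∀ p : ℕ, p.Prime → p ∣ d → p ∣ K) :
    d ∣ kp K a := by
  have h1 : Nat.Coprime d (cp K a) := by
    rw [Nat.coprime_iff_gcd_eq_one]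
    by_contra hne
    obtain ⟨p, hp, hpd⟩ := Nat.exists_prime_and_dvd hne
    have h2 := h p hp (hpd.trans (Nat.gcd_dvd_left _ _))
    have h3 := hpd.trans (Nat.gcd_dvd_right _ _)
    exact hp.one_lt.ne' (Nat.dvd_one.1 ((cp_coprime K a) ▸ Nat.dvd_gcd h3 h2))
  rw [← kp_mul_cp K ha] at hd
  exact h1.dvd_of_dvd_mul_right hd

/-- the radical only depends on the primes -/
theorem rad_congr {a b : ℕ} (ha : a ≠ 0) (hb : b ≠ 0)
    (h : ∀ p : ℕ, p.Prime → (p ∣ a ↔ p ∣ b)) : rad a = rad b := by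
  have : a.primeFactors = b.primeFactors := by
    ext p
    rw [Nat.mem_primeFactors, Nat.mem_primeFactors]
    constructor
    · rintro ⟨h1, h2, -⟩
      exact ⟨h1, (h p h1).1 h2, hb⟩
    · rintro ⟨h1, h2, -⟩
      exact ⟨h1, (h p h1).2 h2, ha⟩
  unfold rad
  rw [this]

/-- the radical of a multiple -/
theorem rad_mul_part {Q a : ℕ} (hQ : Q ≠ 0) (ha : a ≠ 0) : rad (a * Q) = rad (cp Q a) * rad Q := by
  have h1 := cp_coprime Q a
  rw [← Pool.Agent.H328R2.ABC.RadSumAux.rad_mul_cop h1]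
  refine rad_congr (mul_ne_zero ha hQ) (mul_ne_zero (cp_ne Q ha) hQ) fun p hp => ?_
  rw [hp.dvd_mul, hp.dvd_mul]
  constructor
  · rintro (h | h)
    · rw [← kp_mul_cp Q ha, hp.dvd_mul] at h
      rcases h with h | h
      · exact Or.inr (dvd_of_dvd_kp hp h)
      · exact Or.inl h
    · exact Or.inr h
  · rintro (h | h)
    · exact Or.inl (h.trans (cp_dvd Q ha))
    · exact Or.inr h

/-- the cofactor of the prime-to-`K` part is at most the cofactor -/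
theorem co_cp_le (K : ℕ) {a : ℕ} (ha : a ≠ 0) : rad a * co (cp K a) ≤ a := by
  have h1 : Nat.Coprime (kp K a) (cp K a) := by
    rw [Nat.coprime_iff_gcd_eq_one]
    by_contra hne
    obtain ⟨p, hp, hpd⟩ := Nat.exists_prime_and_dvd hne
    have h2 := dvd_of_dvd_kp hp (hpd.trans (Nat.gcd_dvd_left _ _))
    have h3 := hpd.trans (Nat.gcd_dvd_right _ _)
    exact hp.one_lt.ne' (Nat.dvd_one.1 ((cp_coprime K a) ▸ Nat.dvd_gcd h3 h2))
  have h2 : rad a = rad (kp K a) * rad (cp K a) := by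
    rw [← Pool.Agent.H328R2.ABC.RadSumAux.rad_mul_cop h1, kp_mul_cp K ha]
  calc rad a * co (cp K a) = rad (kp K a) * (rad (cp K a) * co (cp K a)) := by rw [h2, mul_assoc]
    _ = rad (kp K a) * cp K a := by rw [rad_mul_co]
    _ ≤ kp K a * cp K a := Nat.mul_le_mul_right _ (rad_le (kp_ne K ha))
    _ = a := kp_mul_cp K ha

/-- the modulus attached to an integer -/
theorem mod_dvd (K : ℕ) {a : ℕ} (ha : a ≠ 0) : kp K a * mo (co (cp K a)) ∣ a := by
  calc kp K a * mo (co (cp K a)) ∣ kp K a * cp K a := Nat.mul_dvd_mul_left _ (co_dvd (cp_ne K ha))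
    _ = a := kp_mul_cp K ha

open Classical in
/-- the integers up to `H` composed of primes of `K` -/
noncomputable def Sm (K H : ℕ) : Finset ℕ :=
  (Icc 1 H).filter fun v => ∀ p : ℕ, p.Prime → p ∣ v → p ∣ K

theorem mem_Sm {K H v : ℕ} : v ∈ Sm K H ↔ (1 ≤ v ∧ v ≤ H) ∧ ∀ p : ℕ, p.Prime → p ∣ v → p ∣ K := by
  classical
  simp only [Sm, mem_filter, mem_Icc]

theorem kp_mem {K H a : ℕ} (ha : a ≠ 0) (h : a ≤ H) : kp K a ∈ Sm K H :=
  mem_Sm.2 ⟨⟨Nat.pos_of_ne_zero (kp_ne K ha),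
    (Nat.le_of_dvd (Nat.pos_of_ne_zero ha) (kp_dvd K ha)).trans h⟩, fun _ hp h => dvd_of_dvd_kp hp h⟩

/-- the sum of the inverses of the radicals up to `H` -/
noncomputable def S1 (H : ℕ) : ℝ := ∑ c ∈ Icc 1 H, 1 / (rad c : ℝ)

theorem S1_nonneg (H : ℕ) : 0 ≤ S1 H := sum_nonneg fun _ _ => by positivity

theorem rad_pos' (a : ℕ) : (0 : ℝ) < rad a := by exact_mod_cast rad_pos a

/-- multiples of a given integer -/
theorem sum_mult {Q H : ℕ} (hQ : Q ≠ 0) :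
    ∑ t ∈ Icc 1 H, 1 / (rad (t * Q) : ℝ) ≤ (Sm Q H).card * S1 H / (rad Q : ℝ) := by
  classical
  have h1 : ∀ t ∈ Icc 1 H, 1 / (rad (t * Q) : ℝ) =
      (fun z : ℕ × ℕ => 1 / (rad z.2 : ℝ) / (rad Q : ℝ)) (kp Q t, cp Q t) := by
    intro t ht
    rw [mem_Icc] at ht
    have ht0 : t ≠ 0 := by omega
    show 1 / (rad (t * Q) : ℝ) = 1 / (rad (cp Q t) : ℝ) / (rad Q : ℝ)
    rw [rad_mul_part hQ ht0, div_div]
    push_cast
    rfl
  rw [sum_congr rfl h1]
  have hinj : Set.InjOn (fun t => (kp Q t, cp Q t)) (Icc 1 H : Finset ℕ) := by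
    intro t ht t' ht' h
    rw [mem_coe, mem_Icc] at ht ht'
    simp only [Prod.mk.injEq] at h
    rw [← kp_mul_cp Q (by omega : t ≠ 0), ← kp_mul_cp Q (by omega : t' ≠ 0), h.1, h.2]
  rw [← Finset.sum_image (g := fun t => (kp Q t, cp Q t))
    (f := fun z : ℕ × ℕ => 1 / (rad z.2 : ℝ) / (rad Q : ℝ)) hinj]
  have h2 : (Icc 1 H).image (fun t => (kp Q t, cp Q t)) ⊆ Sm Q H ×ˢ Icc 1 H := by
    intro z hz
    obtain ⟨t, ht, rfl⟩ := mem_image.1 hz
    rw [mem_Icc] at ht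
    have ht0 : t ≠ 0 := by omega
    rw [mem_product]
    exact ⟨kp_mem ht0 ht.2, mem_Icc.2 ⟨Nat.pos_of_ne_zero (cp_ne Q ht0),
      (Nat.le_of_dvd (by omega) (cp_dvd Q ht0)).trans ht.2⟩⟩
  refine (sum_le_sum_of_subset_of_nonneg h2 fun z _ _ => by positivity).trans (le_of_eq ?_)
  rw [sum_product]
  simp only
  rw [sum_const, nsmul_eq_mul, ← sum_div]
  unfold S1
  ring

end Pool.Agent.Q38.NG
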